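import Pool.Agent.Y307.PCD.Geo2

/-!
Project PCD (helper307), MP_f3a7de_an: derivatives, choice of the parameters, the theorem from
the local insertion statement.
-/

set_option autoImplicit false
open Set Filter Topology
open Pool.Agent.H507R3.PC (T3 Lam LamConv XR YR PR pt3 Yaff Zaff Zlin hull_point YR_eq ZR_eq
  not_scalar pos_real fZ pZ)

namespace Pool.Agent.Y307.PCD

section deriv

variable {n : ℕ}

/-- the unit matrix with a single entry one -/
noncomputable def un (i : Fin n) (j : Fin 2) : Fin n → Fin 2 → ℝ :=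
  fun a b => if a = i ∧ b = j then (1 : ℝ) else 0

lemma norm_un (i : Fin n) (j : Fin 2) : ‖un i j‖ ≤ 1 := by
  rw [pi_norm_le_iff_of_nonneg zero_le_one]
  intro a
  rw [pi_norm_le_iff_of_nonneg zero_le_one]
  intro b
  unfold un
  split_ifs <;> simp

lemma fderiv_of_quad {G : (Fin n → Fin 2 → ℝ) → ℝ} {X : Fin n → Fin 2 → ℝ}
    (hG : DifferentiableAt ℝ G X) (E : Fin n → Fin 2 → ℝ) (D C : ℝ)
    (h : ∀ t : ℝ, G (X + t • E) = G X + t * D + t ^ 2 * C) : fderiv ℝ G X E = D := by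
  have hline : HasDerivAt (fun t : ℝ => X + t • E) E 0 := by
    have := ((hasDerivAt_id (0:ℝ)).smul_const E).const_add X
    simpa using this
  have hl0 : X + (0:ℝ) • E = X := by simp
  have h1 : HasDerivAt (fun t : ℝ => G (X + t • E)) (fderiv ℝ G X E) 0 := by
    have hG' : HasFDerivAt G (fderiv ℝ G X) (X + (0:ℝ) • E) := by
      rw [hl0]; exact hG.hasFDerivAt
    exact hG'.comp_hasDerivAt 0 hline
  have h2 : HasDerivAt (fun t : ℝ => G X + t * D + t ^ 2 * C) D 0 := by
    have k1 : HasDerivAt (fun t : ℝ => G X + t * D) D 0 := by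
      simpa using ((hasDerivAt_id (0:ℝ)).mul_const D).const_add (G X)
    have k2 : HasDerivAt (fun t : ℝ => t ^ 2 * C) 0 0 := by
      simpa using (hasDerivAt_pow 2 (0:ℝ)).mul_const C
    have k3 := k1.add k2
    rw [add_zero] at k3
    exact k3
  have h3 : (fun t : ℝ => G (X + t • E)) = fun t => G X + t * D + t ^ 2 * C := funext h
  rw [h3] at h1
  exact h1.unique h2

lemma rep_fderiv {G : (Fin n → Fin 2 → ℝ) → ℝ} {B : Fin n → Fin 2 → ℝ} {Q : Fin n → Fin n → ℝ}
    (hG : ∀ X, G X = ∑ r, ∑ c, B r c * X r c + ∑ r, ∑ s, Q r s * (X r 0 * X s 1))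
    (X : Fin n → Fin 2 → ℝ) (hd : DifferentiableAt ℝ G X) (E : Fin n → Fin 2 → ℝ) :
    fderiv ℝ G X E = ∑ r, ∑ c, B r c * E r c
      + ∑ r, ∑ s, Q r s * (E r 0 * X s 1 + X r 0 * E s 1) := by
  apply fderiv_of_quad hd E _ (∑ r, ∑ s, Q r s * (E r 0 * E s 1))
  intro t
  rw [hG, hG]
  have h1 : ∑ r, ∑ c, B r c * (X + t • E) r c
      = ∑ r, ∑ c, B r c * X r c + t * ∑ r, ∑ c, B r c * E r c := by
    rw [Finset.mul_sum, ← Finset.sum_add_distrib]
    refine Finset.sum_congr rfl fun r _ => ?_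
    rw [Finset.mul_sum, ← Finset.sum_add_distrib]
    refine Finset.sum_congr rfl fun c _ => ?_
    simp only [Pi.add_apply, Pi.smul_apply, smul_eq_mul]; ring
  have h2 : ∑ r, ∑ s, Q r s * ((X + t • E) r 0 * (X + t • E) s 1)
      = ∑ r, ∑ s, Q r s * (X r 0 * X s 1)
        + t * ∑ r, ∑ s, Q r s * (E r 0 * X s 1 + X r 0 * E s 1)
        + t ^ 2 * ∑ r, ∑ s, Q r s * (E r 0 * E s 1) := by
    rw [Finset.mul_sum, Finset.mul_sum, ← Finset.sum_add_distrib, ← Finset.sum_add_distrib]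
    refine Finset.sum_congr rfl fun r _ => ?_
    rw [Finset.mul_sum, Finset.mul_sum, ← Finset.sum_add_distrib, ← Finset.sum_add_distrib]
    refine Finset.sum_congr rfl fun c _ => ?_
    simp only [Pi.add_apply, Pi.smul_apply, smul_eq_mul]; ring
  rw [h1, h2]
  ring

lemma sum_un (B : Fin n → Fin 2 → ℝ) (i : Fin n) (j : Fin 2) :
    ∑ r, ∑ c, B r c * un i j r c = B i j := by
  unfold un
  rw [Finset.sum_eq_single i]
  · rw [Finset.sum_eq_single j]
    · simp
    · intro b _ hb; simp [hb]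
    · intro h; exact absurd (Finset.mem_univ j) h
  · intro b _ hb; simp [hb]
  · intro h; exact absurd (Finset.mem_univ i) h

lemma rep_grad0 {G : (Fin n → Fin 2 → ℝ) → ℝ} {B : Fin n → Fin 2 → ℝ} {Q : Fin n → Fin n → ℝ}
    (hG : ∀ X, G X = ∑ r, ∑ c, B r c * X r c + ∑ r, ∑ s, Q r s * (X r 0 * X s 1))
    (X : Fin n → Fin 2 → ℝ) (hd : DifferentiableAt ℝ G X) (i : Fin n) :
    fderiv ℝ G X (un i 0) = B i 0 + ∑ s, Q i s * X s 1 := by
  rw [rep_fderiv hG X hd, sum_un]
  congr 1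
  rw [Finset.sum_eq_single i]
  · refine Finset.sum_congr rfl fun s _ => ?_
    simp [un]
  · intro b _ hb
    apply Finset.sum_eq_zero
    intro s _
    simp [un, hb]
  · intro h; exact absurd (Finset.mem_univ i) h

lemma rep_grad1 {G : (Fin n → Fin 2 → ℝ) → ℝ} {B : Fin n → Fin 2 → ℝ} {Q : Fin n → Fin n → ℝ}
    (hQ : ∀ r s, Q s r = - Q r s)
    (hG : ∀ X, G X = ∑ r, ∑ c, B r c * X r c + ∑ r, ∑ s, Q r s * (X r 0 * X s 1))
    (X : Fin n → Fin 2 → ℝ) (hd : DifferentiableAt ℝ G X) (i : Fin n) :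
    fderiv ℝ G X (un i 1) = B i 1 - ∑ s, Q i s * X s 0 := by
  rw [rep_fderiv hG X hd, sum_un, sub_eq_add_neg, ← Finset.sum_neg_distrib]
  congr 1
  refine Finset.sum_congr rfl fun r _ => ?_
  rw [Finset.sum_eq_single i]
  · rw [hQ i r]
    simp [un]
  · intro b _ hb
    simp [un, hb]
  · intro h; exact absurd (Finset.mem_univ i) h

open Classical in
lemma aF_fderiv (A Y : Fin n → Fin 2 → ℝ) (f : ℝ) (p : Fin n → Fin n → ℝ) (i : Fin n) (j : Fin 2) :
    fderiv ℝ (fun X => aF A Y f p (minors X)) A (un i j) = Y i j := by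
  have hd : DifferentiableAt ℝ (fun X => aF A Y f p (minors X)) A := by
    have h1 : ContDiff ℝ ((1:ℕ∞) : WithTop ℕ∞) (fun X => aF A Y f p (minors X)) :=
      (aF_contDiff 1 A Y f p).comp (minors_contDiff 1)
    exact h1.differentiable (by norm_num) A
  rw [← sum_un Y i j]
  apply fderiv_of_quad hd (un i j) _
    (∑ r, ∑ s, p r s * (un i j r 0 * un i j s 1 - un i j r 1 * un i j s 0))
  intro t
  rw [aF_minors, aF_minors]
  have h1 : ∑ r, ∑ c, Y r c * ((A + t • un i j) r c - A r c) = t * ∑ r, ∑ c, Y r c * un i j r c := by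
    rw [Finset.mul_sum]
    refine Finset.sum_congr rfl fun r _ => ?_
    rw [Finset.mul_sum]
    refine Finset.sum_congr rfl fun c _ => ?_
    simp only [Pi.add_apply, Pi.smul_apply, smul_eq_mul]; ring
  have h2 : ∑ r, ∑ s, p r s * (((A + t • un i j) r 0 - A r 0) * ((A + t • un i j) s 1 - A s 1)
      - ((A + t • un i j) r 1 - A r 1) * ((A + t • un i j) s 0 - A s 0))
      = t ^ 2 * ∑ r, ∑ s, p r s * (un i j r 0 * un i j s 1 - un i j r 1 * un i j s 0) := by
    rw [Finset.mul_sum]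
    refine Finset.sum_congr rfl fun r _ => ?_
    rw [Finset.mul_sum]
    refine Finset.sum_congr rfl fun c _ => ?_
    simp only [Pi.add_apply, Pi.smul_apply, smul_eq_mul]; ring
  rw [h1, h2]
  simp

open Classical in
lemma minors_diff (X : Fin n → Fin 2 → ℝ) :
    DifferentiableAt ℝ (minors : (Fin n → Fin 2 → ℝ) → MinorIdx n → ℝ) X :=
  (minors_contDiff 1).differentiable (by norm_num) X

open Classical in
/-- gradient of a composition -/
lemma grad_comp {h : (MinorIdx n → ℝ) → ℝ} (X : Fin n → Fin 2 → ℝ)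
    (hd : DifferentiableAt ℝ h (minors X)) (i : Fin n) (j : Fin 2) :
    grad (fun X => h (minors X)) X i j
      = fderiv ℝ h (minors X) (fderiv ℝ (minors : (Fin n → Fin 2 → ℝ) → MinorIdx n → ℝ) X (un i j)) := by
  show fderiv ℝ (fun X => h (minors X)) X (un i j) = _
  have h1 := (hd.hasFDerivAt.comp X (minors_diff X).hasFDerivAt).fderiv
  have h2 : (h ∘ minors) = fun X : Fin n → Fin 2 → ℝ => h (minors X) := rfl
  rw [h2] at h1
  rw [h1]
  rfl

open Classical in
lemma dist_le_minors (X X₀ : Fin n → Fin 2 → ℝ) : dist X X₀ ≤ ‖minors X - minors X₀‖ := by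
  rw [dist_pi_le_iff (norm_nonneg _)]
  intro r
  rw [dist_pi_le_iff (norm_nonneg _)]
  intro c
  have h := norm_le_pi_norm (minors X - minors X₀) (e1 r c)
  rw [Pi.sub_apply, minors_e1, minors_e1] at h
  rwa [Real.dist_eq]

end deriv

section stk

variable {n : ℕ}

/-- the stacked matrix as a function of point, value and gradient -/
noncomputable def stk (q : (Fin n → Fin 2 → ℝ) × ℝ × (Fin n → Fin 2 → ℝ)) : BigMat n := fun i j =>
  match i with
  | Sum.inl i => q.1 i j
  | Sum.inr (Sum.inl i) => rot q.2.2 i j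
  | Sum.inr (Sum.inr a) => ∑ k, q.1 k a * rot q.2.2 k j - q.2.1 * J a j

lemma stacked_eq (f : (Fin n → Fin 2 → ℝ) → ℝ) (X : Fin n → Fin 2 → ℝ) :
    stacked f X = stk (X, f X, fun i j => grad f X i j) := by
  ext p j
  rcases p with p | p | a
  · rfl
  · rw [stacked_Y]; rfl
  · rw [stacked_Z]; rfl

lemma rot_cont {ι : Type*} (i : ι) (j : Fin 2) : Continuous fun M : ι → Fin 2 → ℝ => rot M i j := by
  unfold rot
  split_ifs <;> fun_prop

lemma stk_cont : Continuous (stk : (Fin n → Fin 2 → ℝ) × ℝ × (Fin n → Fin 2 → ℝ) → BigMat n) := by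
  refine continuous_matrix fun i j => ?_
  rcases i with i | i | a
  · show Continuous fun q : (Fin n → Fin 2 → ℝ) × ℝ × (Fin n → Fin 2 → ℝ) => q.1 i j
    fun_prop
  · exact (rot_cont i j).comp (continuous_snd.comp continuous_snd)
  · show Continuous fun q : (Fin n → Fin 2 → ℝ) × ℝ × (Fin n → Fin 2 → ℝ) =>
      ∑ k, q.1 k a * rot q.2.2 k j - q.2.1 * J a j
    refine Continuous.sub ?_ (by fun_prop)
    refine continuous_finsetSum _ fun k _ => Continuous.mul (by fun_prop) ?_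
    exact (rot_cont k j).comp (continuous_snd.comp continuous_snd)

end stk

end Pool.Agent.Y307.PCD
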