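import Pool.Agent.Y307.PCD.Asm

/-!
Project PCD (helper307), MP_f3a7de_an: choice of the parameters, the theorem from the local
insertion statement `S_BUILD`.
-/

set_option autoImplicit false
open Set Filter Topology
open Pool.Agent.H507R3.PC (T3 Lam LamConv XR YR PR pt3 Yaff Zaff Zlin hull_point YR_eq ZR_eq
  not_scalar pos_real fZ pZ)

namespace Pool.Agent.Y307.PCD

/-- the vertices of the scaled configuration -/
noncomputable def XP {m : ℕ} (X₀ : Fin (10 + m) → Fin 2 → ℝ) (η : ℝ) (i : Fin 24) :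
    Fin (10 + m) → Fin 2 → ℝ :=
  fun k j => X₀ k j + η * (emb (XR i) : Fin (10 + m) → Fin 2 → ℝ) k j

/-- the affine pieces of the scaled configuration -/
noncomputable def AP {m : ℕ} (X₀ : Fin (10 + m) → Fin 2 → ℝ) (η : ℝ) (i : Fin 24) :
    (MinorIdx (10 + m) → ℝ) → ℝ :=
  aF (XP X₀ η i) (fun k j => η⁻¹ * (emb (YR i) : Fin (10 + m) → Fin 2 → ℝ) k j) (fZ i : ℝ)
    (fun r s => η⁻¹ ^ 2 * (emb2 (fun r s => 100000000 * (pZ i r s : ℝ)) :
      Fin (10 + m) → Fin (10 + m) → ℝ) r s)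

variable {m : ℕ}

lemma AP_self (X₀ : Fin (10 + m) → Fin 2 → ℝ) (η : ℝ) (i : Fin 24) :
    AP X₀ η i (minors (XP X₀ η i)) = (fZ i : ℝ) := by
  unfold AP
  rw [aF_minors]
  simp

lemma AP_gap (X₀ : Fin (10 + m) → Fin 2 → ℝ) (η : ℝ) (hη : η ≠ 0) (i j : Fin 24) (hij : i ≠ j) :
    AP X₀ η i (minors (XP X₀ η j)) < AP X₀ η j (minors (XP X₀ η j)) := by
  rw [AP_self]
  unfold AP
  rw [aF_minors]
  have hd : ∀ k c, XP X₀ η j k c - XP X₀ η i k c
      = η * ((emb (XR j) : Fin (10 + m) → Fin 2 → ℝ) k c - (emb (XR i) : Fin (10 + m) → Fin 2 → ℝ) k c) := by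
    intro k c; unfold XP; ring
  simp only [hd]
  have h1 : ∑ r, ∑ c, (η⁻¹ * (emb (YR i) : Fin (10 + m) → Fin 2 → ℝ) r c)
      * (η * ((emb (XR j) : Fin (10 + m) → Fin 2 → ℝ) r c - (emb (XR i) : Fin (10 + m) → Fin 2 → ℝ) r c))
      = ∑ r, ∑ c, YR i r c * (XR j r c - XR i r c) := by
    rw [Fin.sum_univ_add]
    have e2 : ∑ r : Fin m, ∑ c, (η⁻¹ * (emb (YR i) : Fin (10 + m) → Fin 2 → ℝ) (Fin.natAdd 10 r) c)
      * (η * ((emb (XR j) : Fin (10 + m) → Fin 2 → ℝ) (Fin.natAdd 10 r) c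
        - (emb (XR i) : Fin (10 + m) → Fin 2 → ℝ) (Fin.natAdd 10 r) c)) = 0 := by
      simp
    rw [e2, add_zero]
    refine Finset.sum_congr rfl fun r _ => Finset.sum_congr rfl fun c _ => ?_
    rw [emb_left, emb_left, emb_left]
    field_simp
  have h2 : ∑ r, ∑ s, (η⁻¹ ^ 2 * (emb2 (fun r s => 100000000 * (pZ i r s : ℝ)) :
      Fin (10 + m) → Fin (10 + m) → ℝ) r s)
      * (η * ((emb (XR j) : Fin (10 + m) → Fin 2 → ℝ) r 0 - (emb (XR i) : Fin (10 + m) → Fin 2 → ℝ) r 0)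
        * (η * ((emb (XR j) : Fin (10 + m) → Fin 2 → ℝ) s 1 - (emb (XR i) : Fin (10 + m) → Fin 2 → ℝ) s 1))
        - η * ((emb (XR j) : Fin (10 + m) → Fin 2 → ℝ) r 1 - (emb (XR i) : Fin (10 + m) → Fin 2 → ℝ) r 1)
        * (η * ((emb (XR j) : Fin (10 + m) → Fin 2 → ℝ) s 0 - (emb (XR i) : Fin (10 + m) → Fin 2 → ℝ) s 0)))
      = ∑ r, ∑ s, (100000000 * (pZ i r s : ℝ)) * ((XR j r 0 - XR i r 0) * (XR j s 1 - XR i s 1)
          - (XR j r 1 - XR i r 1) * (XR j s 0 - XR i s 0)) := by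
    rw [Fin.sum_univ_add]
    have e2 : ∀ F : Fin m → Fin (10 + m) → ℝ, ∑ r : Fin m, ∑ s, (η⁻¹ ^ 2 *
        (emb2 (fun r s => 100000000 * (pZ i r s : ℝ)) :
      Fin (10 + m) → Fin (10 + m) → ℝ) (Fin.natAdd 10 r) s) * F r s = 0 := by
      intro F
      simp
    rw [e2, add_zero]
    refine Finset.sum_congr rfl fun r _ => ?_
    rw [Fin.sum_univ_add]
    have e3 : ∀ F : Fin m → ℝ, ∑ s : Fin m, (η⁻¹ ^ 2 *
        (emb2 (fun r s => 100000000 * (pZ i r s : ℝ)) :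
      Fin (10 + m) → Fin (10 + m) → ℝ) (Fin.castAdd m r) (Fin.natAdd 10 s)) * F s = 0 := by
      intro F
      simp
    rw [e3, add_zero]
    refine Finset.sum_congr rfl fun s _ => ?_
    rw [emb2_ll]
    simp only [emb_left]
    field_simp
  rw [h1, h2]
  have h3 := pos_real i j hij
  linarith

open Classical in
/-- all small scales are admissible -/
lemma exists_scale (X₀ : Fin (10 + m) → Fin 2 → ℝ) (p : (Fin (10 + m) → Fin 2 → ℝ) → Prop)
    (hp : ∀ᶠ X in 𝓝 X₀, p X) : ∃ η : ℝ, 0 < η ∧ ∀ i, p (XP X₀ η i) := by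
  have h1 : ∀ᶠ η in 𝓝[>] (0:ℝ), ∀ i : Fin 24, p (XP X₀ η i) := by
    rw [eventually_all]
    intro i
    have hc : Continuous fun η : ℝ => XP X₀ η i := by
      unfold XP
      fun_prop
    have h0 : XP X₀ 0 i = X₀ := by
      funext k j; simp [XP]
    have ht : Tendsto (fun η : ℝ => XP X₀ η i) (𝓝 0) (𝓝 X₀) := by
      have := hc.tendsto 0
      rwa [h0] at this
    exact eventually_nhdsWithin_of_eventually_nhds (ht.eventually hp)
  obtain ⟨η, h2, h3⟩ := (h1.and self_mem_nhdsWithin).exists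
  exact ⟨η, h3, h2⟩

open Classical in
/-- insertion of one configuration near `X₀`, all data controlled -/
theorem core_g (hb : S_BUILD) (k : ℕ∞) (hk : 1 ≤ k) (g₀ : (MinorIdx (10 + m) → ℝ) → ℝ)
    (hg₀c : StrictConvexOn ℝ univ g₀) (hg₀d : ContDiff ℝ k g₀)
    (X₀ : Fin (10 + m) → Fin 2 → ℝ) (ε : ℝ) (hε : 0 < ε) (U : Set (BigMat (10 + m)))
    (hU : U ∈ 𝓝 (stacked (fun X => g₀ (minors X)) X₀)) :
    ∃ (g : (MinorIdx (10 + m) → ℝ) → ℝ) (W : Fin 24 → Fin (10 + m) → Fin 2 → ℝ)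
      (A : BigMat (10 + m)), StrictConvexOn ℝ univ g ∧
      (∃ e : ℝ, 0 < e ∧ ConvexOn ℝ univ (fun v => g v - e * g₀ v)) ∧ ContDiff ℝ k g ∧
      (∀ v, ε ≤ ‖v - minors X₀‖ → g v = g₀ v) ∧ (∀ v, |g v - g₀ v| ≤ ε) ∧
      (∀ v, ‖fderiv ℝ g v - fderiv ℝ g₀ v‖ ≤ ε) ∧
      (∀ X i j, |grad (fun X => g (minors X)) X i j - grad (fun X => g₀ (minors X)) X i j| ≤ ε) ∧
      (∀ i, stacked (fun X => g (minors X)) (W i) ∈ U) ∧
      (∀ K, (∀ i, stacked (fun X => g (minors X)) (W i) ∈ K) → A ∈ rcHull K) ∧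
      ∀ f : (Fin (10 + m) → Fin 2 → ℝ) → ℝ, A ∉ inclusionSet f := by
  set f₀ : (Fin (10 + m) → Fin 2 → ℝ) → ℝ := fun X => g₀ (minors X) with hf₀e
  have hg₀ : ∀ X, f₀ X = g₀ (minors X) := fun X => rfl
  have hk' : (1 : WithTop ℕ∞) ≤ ((k : ℕ∞) : WithTop ℕ∞) := by exact_mod_cast hk
  have hk0 : ((k : ℕ∞) : WithTop ℕ∞) ≠ 0 := by
    intro h0; rw [h0] at hk'; exact absurd hk' (by norm_num)
  have hMc : ContDiff ℝ k (minors : (Fin (10 + m) → Fin 2 → ℝ) → MinorIdx (10 + m) → ℝ) :=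
    minors_contDiff k
  have hf₀c : ContDiff ℝ k f₀ := by rw [hf₀e]; exact hg₀d.comp hMc
  set v₀ : MinorIdx (10 + m) → ℝ := minors X₀ with hv₀
  -- bound for the derivative of the minors
  obtain ⟨C, hC0, hC⟩ : ∃ C : ℝ, 0 ≤ C ∧ ∀ X : Fin (10 + m) → Fin 2 → ℝ, dist X X₀ ≤ 1 →
      ‖fderiv ℝ (minors : (Fin (10 + m) → Fin 2 → ℝ) → MinorIdx (10 + m) → ℝ) X‖ ≤ C := by
    obtain ⟨C, hC⟩ := (isCompact_closedBall X₀ (1:ℝ)).exists_bound_of_continuousOn
      (hMc.continuous_fderiv hk0).continuousOn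
    exact ⟨max C 0, le_max_right _ _, fun X hX => (hC X hX).trans (le_max_left _ _)⟩
  -- neighbourhood of the stacked point
  set q₀ : (Fin (10 + m) → Fin 2 → ℝ) × ℝ × (Fin (10 + m) → Fin 2 → ℝ) :=
    (X₀, f₀ X₀, fun i j => grad f₀ X₀ i j) with hq₀
  have hUq : ∀ᶠ q in 𝓝 q₀, stk q ∈ U := by
    have h1 : stk q₀ = stacked f₀ X₀ := by rw [stacked_eq]
    have h2 : Tendsto (stk : _ → BigMat (10 + m)) (𝓝 q₀) (𝓝 (stk q₀)) := stk_cont.tendsto q₀
    rw [h1] at h2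
    exact h2 hU
  obtain ⟨ρ, hρ, hρΨ⟩ := Metric.eventually_nhds_iff.mp hUq
  -- the size of the change
  obtain ⟨κ, hκ, hκε, hκ1, hκρ, hκC, hκCρ⟩ : ∃ κ : ℝ, 0 < κ ∧ κ ≤ ε ∧ κ ≤ 1 ∧ κ ≤ ρ / 4 ∧
      κ * C ≤ ε ∧ κ * C ≤ ρ / 4 := by
    have hC1 : 0 < C + 1 := by linarith
    refine ⟨min (min ε 1) (min (ρ / 4) (min (ε / (C + 1)) (ρ / 4 / (C + 1)))), ?_, ?_, ?_, ?_, ?_, ?_⟩
    · have := div_pos hε hC1
      have := div_pos (show 0 < ρ / 4 by linarith) hC1
      exact lt_min (lt_min hε one_pos) (lt_min (by linarith) (lt_min ‹_› ‹_›))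
    · exact (min_le_left _ _).trans (min_le_left _ _)
    · exact (min_le_left _ _).trans (min_le_right _ _)
    · exact (min_le_right _ _).trans (min_le_left _ _)
    · have h1 : min (min ε 1) (min (ρ / 4) (min (ε / (C + 1)) (ρ / 4 / (C + 1)))) ≤ ε / (C + 1) :=
        (min_le_right _ _).trans ((min_le_right _ _).trans (min_le_left _ _))
      calc _ ≤ ε / (C + 1) * C := mul_le_mul_of_nonneg_right h1 hC0
        _ ≤ ε / (C + 1) * (C + 1) := mul_le_mul_of_nonneg_left (by linarith) (by positivity)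
        _ = ε := div_mul_cancel₀ _ hC1.ne'
    · have h1 : min (min ε 1) (min (ρ / 4) (min (ε / (C + 1)) (ρ / 4 / (C + 1)))) ≤ ρ / 4 / (C + 1) :=
        (min_le_right _ _).trans ((min_le_right _ _).trans (min_le_right _ _))
      calc _ ≤ ρ / 4 / (C + 1) * C := mul_le_mul_of_nonneg_right h1 hC0
        _ ≤ ρ / 4 / (C + 1) * (C + 1) := mul_le_mul_of_nonneg_left (by linarith) (by positivity)
        _ = ρ / 4 := div_mul_cancel₀ _ hC1.ne'
  obtain ⟨r, hr, hcfg⟩ := hb (MinorIdx (10 + m) → ℝ) k hk g₀ hg₀c hg₀d v₀ κ hκ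
  -- the scale
  have hev : ∀ᶠ X in 𝓝 X₀, ‖(minors X : MinorIdx (10 + m) → ℝ) - v₀‖ < r ∧ dist X X₀ < ρ ∧
      |f₀ X - f₀ X₀| < ρ / 4 ∧ ∀ i j, |grad f₀ X i j - grad f₀ X₀ i j| < ρ / 4 := by
    refine Filter.Eventually.and ?_ (Filter.Eventually.and ?_ (Filter.Eventually.and ?_ ?_))
    · have hc : Continuous fun X : Fin (10 + m) → Fin 2 → ℝ =>
          ‖(minors X : MinorIdx (10 + m) → ℝ) - v₀‖ := (hMc.continuous.sub continuous_const).norm
      have h0 : ‖(minors X₀ : MinorIdx (10 + m) → ℝ) - v₀‖ < r := by rw [hv₀]; simpa using hr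
      exact hc.continuousAt.eventually_lt_const h0
    · exact Metric.eventually_nhds_iff.mpr ⟨ρ, hρ, fun _ h => h⟩
    · have hc : Continuous fun X => |f₀ X - f₀ X₀| := (hf₀c.continuous.sub continuous_const).abs
      have h0 : |f₀ X₀ - f₀ X₀| < ρ / 4 := by simpa using hρ
      exact hc.continuousAt.eventually_lt_const h0
    · rw [eventually_all]; intro i
      rw [eventually_all]; intro j
      have hc1 : Continuous fun X => grad f₀ X i j := by
        show Continuous fun X => fderiv ℝ f₀ X (un i j)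
        exact (hf₀c.continuous_fderiv hk0).clm_apply continuous_const
      have hc : Continuous fun X => |grad f₀ X i j - grad f₀ X₀ i j| := (hc1.sub continuous_const).abs
      have h0 : |grad f₀ X₀ i j - grad f₀ X₀ i j| < ρ / 4 := by simpa using hρ
      exact hc.continuousAt.eventually_lt_const h0
  obtain ⟨η, hη, hηP⟩ := exists_scale X₀ _ hev
  obtain ⟨h, lam, δ, hlam, hδ, hsc, hstr, hcd, hfar, hval, hder, hpt⟩ := hcfg (Fin 24)
    (fun i => minors (XP X₀ η i)) (AP X₀ η) (fun i => aF_aff _ _ _ _)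
    (fun i => aF_contDiff k _ _ _ _) (fun i => (hηP i).1) (fun i j hij => AP_gap X₀ η hη.ne' i j hij)
  have hhd : ∀ v, DifferentiableAt ℝ h v := hcd.differentiable hk0
  have hg₀dd : ∀ v, DifferentiableAt ℝ g₀ v := hg₀d.differentiable hk0
  -- closeness of the gradients
  have hgrad : ∀ X i j, |grad (fun X => h (minors X)) X i j - grad f₀ X i j| ≤ κ * C := by
    intro X i j
    rw [hf₀e, grad_comp X (hhd _) i j, grad_comp X (hg₀dd _) i j]
    rw [← sub_apply]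
    rcases le_or_gt (dist X X₀) 1 with h1 | h1
    · have h2 := ContinuousLinearMap.le_opNorm (fderiv ℝ h (minors X) - fderiv ℝ g₀ (minors X))
        (fderiv ℝ (minors : (Fin (10 + m) → Fin 2 → ℝ) → MinorIdx (10 + m) → ℝ) X (un i j))
      have h3 := ContinuousLinearMap.le_opNorm
        (fderiv ℝ (minors : (Fin (10 + m) → Fin 2 → ℝ) → MinorIdx (10 + m) → ℝ) X) (un i j)
      have h4 : ‖fderiv ℝ (minors : (Fin (10 + m) → Fin 2 → ℝ) → MinorIdx (10 + m) → ℝ) X (un i j)‖ ≤ C := by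
        calc _ ≤ _ := h3
          _ ≤ C * 1 := mul_le_mul (hC X h1) (norm_un i j) (norm_nonneg _) hC0
          _ = C := mul_one C
      rw [← Real.norm_eq_abs]
      calc _ ≤ _ := h2
        _ ≤ κ * C := mul_le_mul (hder _) h4 (norm_nonneg _) hκ.le
    · have h2 : κ < ‖(minors X : MinorIdx (10 + m) → ℝ) - v₀‖ :=
        lt_of_le_of_lt hκ1 (lt_of_lt_of_le h1 (dist_le_minors X X₀))
      have h3 : h =ᶠ[𝓝 (minors X)] g₀ := by
        have hc : Continuous fun v : MinorIdx (10 + m) → ℝ => ‖v - v₀‖ :=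
          (continuous_id.sub continuous_const).norm
        filter_upwards [hc.continuousAt.eventually_const_lt h2] with v hv
        exact hfar v hv.le
      rw [h3.fderiv_eq, sub_self]
      simp only [zero_apply, abs_zero]
      positivity
  have hvalκ : ∀ X, |h (minors X) - f₀ X| ≤ κ := by
    intro X; rw [hg₀ X]; exact hval _
  -- representation of the linear part
  obtain ⟨B, Q, hQ, hBQ⟩ := rep_linear (fderiv ℝ g₀ v₀)
  set c : ℝ := g₀ v₀ - fderiv ℝ g₀ v₀ v₀ + δ with hc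
  refine ⟨h, XP X₀ η, Amap X₀ B Q c η lam (pt3 (PR 0)), hsc, hstr, hcd, fun v hv =>
    hfar v (hκε.trans hv), fun v => (hval v).trans hκε, fun v => (hder v).trans hκε,
    fun X i j => (hgrad X i j).trans hκC, ?_, ?_,
    fun f => not_mem X₀ B Q hQ c η lam hη.ne' hlam.ne' f⟩
  · intro i
    obtain ⟨g1, g2, g3, g4⟩ := hηP i
    rw [stacked_eq]
    apply hρΨ
    rw [hq₀, Prod.dist_eq, Prod.dist_eq]
    refine max_lt g2 (max_lt ?_ ?_)
    · show dist (h (minors (XP X₀ η i))) (f₀ X₀) < ρ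
      rw [Real.dist_eq]
      have e1' := hvalκ (XP X₀ η i)
      have e2' : h (minors (XP X₀ η i)) - f₀ X₀
          = (h (minors (XP X₀ η i)) - f₀ (XP X₀ η i)) + (f₀ (XP X₀ η i) - f₀ X₀) := by ring
      rw [e2']
      have e3' := abs_add_le (h (minors (XP X₀ η i)) - f₀ (XP X₀ η i)) (f₀ (XP X₀ η i) - f₀ X₀)
      linarith
    · rw [dist_pi_lt_iff hρ]; intro a
      rw [dist_pi_lt_iff hρ]; intro b
      show dist (grad (fun X => h (minors X)) (XP X₀ η i) a b) (grad f₀ X₀ a b) < ρ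
      rw [Real.dist_eq]
      have e1' := hgrad (XP X₀ η i) a b
      have e4' := g4 a b
      have e2' : grad (fun X => h (minors X)) (XP X₀ η i) a b - grad f₀ X₀ a b
          = (grad (fun X => h (minors X)) (XP X₀ η i) a b - grad f₀ (XP X₀ η i) a b)
            + (grad f₀ (XP X₀ η i) a b - grad f₀ X₀ a b) := by ring
      rw [e2']
      have e3' := abs_add_le (grad (fun X => h (minors X)) (XP X₀ η i) a b
        - grad f₀ (XP X₀ η i) a b) (grad f₀ (XP X₀ η i) a b - grad f₀ X₀ a b)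
      linarith
  · intro K hK
    apply hull_mem
    intro i
    obtain ⟨hp1, hp2⟩ := hpt i
    have hdL : ∀ X, DifferentiableAt ℝ (fun X => fderiv ℝ g₀ v₀ (minors X)) X := fun X =>
      (fderiv ℝ g₀ v₀).differentiableAt.comp X (minors_diff X)
    have hdA : DifferentiableAt ℝ (AP X₀ η i) (minors (XP X₀ η i)) :=
      (aF_contDiff 1 _ _ _ _).differentiable (by norm_num) _
    have hL : ∀ a b, fderiv ℝ g₀ v₀ (fderiv ℝ (minors : (Fin (10 + m) → Fin 2 → ℝ) →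
        MinorIdx (10 + m) → ℝ) (XP X₀ η i) (un a b))
        = fderiv ℝ (fun X => fderiv ℝ g₀ v₀ (minors X)) (XP X₀ η i) (un a b) := by
      intro a b
      have h1 := ((fderiv ℝ g₀ v₀).hasFDerivAt.comp (XP X₀ η i) (minors_diff _).hasFDerivAt).fderiv
      have h2 : ((fderiv ℝ g₀ v₀) ∘ minors) = fun X : Fin (10 + m) → Fin 2 → ℝ =>
        fderiv ℝ g₀ v₀ (minors X) := rfl
      rw [h2] at h1
      rw [h1]
      rfl
    have hAd : ∀ a b, fderiv ℝ (AP X₀ η i) (minors (XP X₀ η i)) (fderiv ℝ (minors :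
        (Fin (10 + m) → Fin 2 → ℝ) → MinorIdx (10 + m) → ℝ) (XP X₀ η i) (un a b))
        = η⁻¹ * (emb (YR i) : Fin (10 + m) → Fin 2 → ℝ) a b := by
      intro a b
      have h1 := grad_comp (XP X₀ η i) hdA a b
      rw [← h1]
      exact aF_fderiv _ _ _ _ a b
    have hgr : ∀ a b, grad (fun X => h (minors X)) (XP X₀ η i) a b
        = fderiv ℝ (fun X => fderiv ℝ g₀ v₀ (minors X)) (XP X₀ η i) (un a b)
          + lam / η * (emb (YR i) : Fin (10 + m) → Fin 2 → ℝ) a b := by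
      intro a b
      rw [grad_comp _ (hhd _) a b, hp2, add_apply,
        smul_apply, hL, hAd, smul_eq_mul]
      ring
    have hver : stacked (fun X => h (minors X)) (XP X₀ η i) = Amap X₀ B Q c η lam (pt3 (XR i)) := by
      apply Amap_vertex X₀ B Q hQ c η lam hη.ne' i
      · rfl
      · show h (minors (XP X₀ η i)) = _
        have hBQ' : fderiv ℝ g₀ v₀ (minors (XP X₀ η i)) = _ := hBQ (XP X₀ η i)
        rw [hp1, map_sub, AP_self, hBQ', hc]
        ring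
      · intro a
        rw [hgr, rep_grad0 hBQ _ (hdL _)]
      · intro a
        rw [hgr, rep_grad1 hQ hBQ _ (hdL _)]
    rw [← hver]
    exact hK i

end Pool.Agent.Y307.PCD
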