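import Pool.Agent.Y307.PCD.Stm

/-!
Project PCD (helper307), MP_f3a7de_an: insertion of a configuration into a strictly convex
function (`S_BUILD` from `S_SMAX`).
-/

set_option autoImplicit false
open Set Filter Topology
open Pool.Agent.H507R3.PC (IsAff)

namespace Pool.Agent.Y307.PCD.BUILD

variable {V : Type} [NormedAddCommGroup V] [NormedSpace ℝ V]

lemma line_deriv {f : V → ℝ} {x : V} (hd : DifferentiableAt ℝ f x) (e : V) :
    HasDerivAt (fun t : ℝ => f (x + t • e)) (fderiv ℝ f x e) 0 := by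
  have hline : HasDerivAt (fun t : ℝ => x + t • e) e 0 := by
    have := ((hasDerivAt_id (0:ℝ)).smul_const e).const_add x
    simpa using this
  have hG' : HasFDerivAt f (fderiv ℝ f x) (x + (0:ℝ) • e) := by
    simpa using hd.hasFDerivAt
  exact hG'.comp_hasDerivAt 0 hline

lemma first_order {f : V → ℝ} (hf : ConvexOn ℝ univ f) {x : V} (hd : DifferentiableAt ℝ f x)
    (y : V) : f x + fderiv ℝ f x (y - x) ≤ f y := by
  have h1 := line_deriv hd (y - x)
  have hc : ConvexOn ℝ univ (fun t : ℝ => f (x + t • (y - x))) := by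
    refine ⟨convex_univ, fun s _ t _ a b ha hb hab => ?_⟩
    have h := hf.2 (mem_univ (x + s • (y - x))) (mem_univ (x + t • (y - x))) ha hb hab
    have e : a • (x + s • (y - x)) + b • (x + t • (y - x)) = x + (a • s + b • t) • (y - x) := by
      have e1 : a • (x + s • (y - x)) + b • (x + t • (y - x))
          = (a + b) • x + (a * s + b * t) • (y - x) := by module
      rw [e1, hab, one_smul]; rfl
    rw [e] at h
    exact h
  have h2 := hc.le_slope_of_hasDerivAt (mem_univ 0) (mem_univ 1) zero_lt_one h1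
  rw [slope_def_field] at h2
  simp only [zero_smul, add_zero, one_smul, sub_zero, div_one, add_sub_cancel] at h2
  linarith

lemma aff_eq {a : V → ℝ} (ha : IsAff a) {x : V} (hd : DifferentiableAt ℝ a x) (y : V) :
    a y = a x + fderiv ℝ a x (y - x) := by
  have h1 := line_deriv hd (y - x)
  have h2 : (fun t : ℝ => a (x + t • (y - x))) = fun t => a x + t * (a y - a x) := by
    funext t
    have e : x + t • (y - x) = (1 - t) • x + t • y := by module
    rw [e, ha x y (1 - t) t (by ring)]; ring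
  rw [h2] at h1
  have h3 : HasDerivAt (fun t : ℝ => a x + t * (a y - a x)) (a y - a x) 0 := by
    simpa using ((hasDerivAt_id (0:ℝ)).mul_const (a y - a x)).const_add (a x)
  have h4 := h1.unique h3
  linarith

lemma aff_fderiv {a : V → ℝ} (ha : IsAff a) {x : V} (hd : DifferentiableAt ℝ a x) (y : V) :
    fderiv ℝ a y = fderiv ℝ a x := by
  have h : a = fun y => a x + fderiv ℝ a x (y - x) := funext fun y => aff_eq ha hd y
  have h1 : HasFDerivAt (fun y => a x + fderiv ℝ a x (y - x)) (fderiv ℝ a x) y := by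
    have h2 : HasFDerivAt (fun y : V => y - x) (ContinuousLinearMap.id ℝ V) y :=
      (hasFDerivAt_id y).sub_const x
    have h3 := ((fderiv ℝ a x).hasFDerivAt.comp y h2).const_add (a x)
    simpa using h3
  rw [h]
  rw [h1.fderiv]
  rw [← h]

lemma aff_lin (c : ℝ) (L : V →L[ℝ] ℝ) (w : V) : IsAff (fun v : V => c + L (v - w)) := by
  intro u v s t hst
  have e : s • u + t • v - w = s • (u - w) + t • (v - w) + (s + t - 1) • w := by module
  show c + L (s • u + t • v - w) = s * (c + L (u - w)) + t * (c + L (v - w))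
  rw [e, hst, sub_self, zero_smul, add_zero, map_add, map_smul, map_smul]
  simp only [smul_eq_mul]
  have ht : t = 1 - s := by linarith
  rw [ht]; ring

lemma fderiv_lin (c : ℝ) (L : V →L[ℝ] ℝ) (w v : V) :
    HasFDerivAt (fun v : V => c + L (v - w)) L v := by
  have h2 : HasFDerivAt (fun y : V => y - w) (ContinuousLinearMap.id ℝ V) v :=
    (hasFDerivAt_id v).sub_const w
  have h3 := (L.hasFDerivAt.comp v h2).const_add c
  simpa using h3

/-- growth of the excess -/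
lemma growth [FiniteDimensional ℝ V] {g : V → ℝ} (hg : StrictConvexOn ℝ univ g)
    (hd : Differentiable ℝ g) (v₀ : V) {ρ : ℝ} (hρ : 0 < ρ) :
    ∃ μ : ℝ, 0 < μ ∧ ∀ v, ρ ≤ ‖v - v₀‖ → μ * ‖v - v₀‖ ≤ g v - (g v₀ + fderiv ℝ g v₀ (v - v₀)) := by
  have : ProperSpace V := FiniteDimensional.proper_real V
  set φ : V → ℝ := fun v => g v - (g v₀ + fderiv ℝ g v₀ (v - v₀)) with hφ
  have hφ0 : φ v₀ = 0 := by simp [hφ]
  have hφn : ∀ v, 0 ≤ φ v := fun v => by
    have := first_order hg.convexOn (hd v₀) v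
    simp only [hφ]; linarith
  have hφc : ∀ (v : V) (s : ℝ), 0 ≤ s → s ≤ 1 → φ (v₀ + s • (v - v₀)) ≤ s * φ v := by
    intro v s hs0 hs1
    have h1 := hg.convexOn.2 (mem_univ v₀) (mem_univ v) (by linarith : 0 ≤ 1 - s) hs0 (by ring)
    have e : (1 - s) • v₀ + s • v = v₀ + s • (v - v₀) := by module
    rw [e] at h1
    simp only [smul_eq_mul] at h1
    simp only [hφ, add_sub_cancel_left, map_smul, smul_eq_mul]
    linarith
  have hφp : ∀ v, v ≠ v₀ → 0 < φ v := by
    intro v hv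
    have h1 := hg.2 (mem_univ v₀) (mem_univ v) (Ne.symm hv) (by norm_num : (0:ℝ) < 1/2)
      (by norm_num : (0:ℝ) < 1/2) (by norm_num)
    have e : (1/2 : ℝ) • v₀ + (1/2 : ℝ) • v = v₀ + (1/2 : ℝ) • (v - v₀) := by module
    rw [e] at h1
    simp only [smul_eq_mul] at h1
    have h2 := hφn (v₀ + (1/2 : ℝ) • (v - v₀))
    simp only [hφ, add_sub_cancel_left, map_smul, smul_eq_mul] at h2 ⊢
    linarith
  have hcont : Continuous φ := by
    have h1 := hd.continuous
    simp only [hφ]; fun_prop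
  obtain ⟨μ, hμ, hμs⟩ : ∃ μ : ℝ, 0 < μ ∧ ∀ p ∈ Metric.sphere v₀ ρ, μ * ρ ≤ φ p := by
    rcases (Metric.sphere v₀ ρ).eq_empty_or_nonempty with he | hne
    · exact ⟨1, one_pos, fun p hp => by rw [he] at hp; exact absurd hp (notMem_empty p)⟩
    · obtain ⟨u, hu, hmin⟩ := (isCompact_sphere v₀ ρ).exists_isMinOn hne hcont.continuousOn
      have hune : u ≠ v₀ := by
        rintro rfl
        rw [mem_sphere_iff_norm, sub_self, norm_zero] at hu
        linarith
      refine ⟨φ u / ρ, div_pos (hφp u hune) hρ, fun p hp => ?_⟩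
      rw [div_mul_cancel₀ _ hρ.ne']
      exact hmin hp
  refine ⟨μ, hμ, fun v hv => ?_⟩
  have ht : 0 < ‖v - v₀‖ := lt_of_lt_of_le hρ hv
  have hs0 : 0 < ρ / ‖v - v₀‖ := div_pos hρ ht
  have hs1 : ρ / ‖v - v₀‖ ≤ 1 := (div_le_one ht).mpr hv
  have h1 := hφc v _ hs0.le hs1
  have h2 := hμs (v₀ + (ρ / ‖v - v₀‖) • (v - v₀)) (by
    rw [mem_sphere_iff_norm, add_sub_cancel_left, norm_smul, Real.norm_eq_abs, abs_of_pos hs0,
      div_mul_cancel₀ _ ht.ne'])
  have h3 : μ * ρ ≤ ρ / ‖v - v₀‖ * φ v := h2.trans h1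
  rw [div_mul_eq_mul_div, le_div_iff₀ ht] at h3
  have h4 : ρ * (μ * ‖v - v₀‖) ≤ ρ * φ v := by linarith
  exact le_of_mul_le_mul_left h4 hρ

lemma exists_small {P Q : ℝ → Prop} (hP : ∀ᶠ x in 𝓝[>] (0:ℝ), P x) (hQ : ∀ᶠ x in 𝓝[>] (0:ℝ), Q x) :
    ∃ x, 0 < x ∧ P x ∧ Q x := by
  obtain ⟨x, ⟨h1, h2⟩, h3⟩ := ((hP.and hQ).and self_mem_nhdsWithin).exists
  exact ⟨x, h3, h1, h2⟩

lemma ev_mul_lt (a : ℝ) {b : ℝ} (hb : 0 < b) : ∀ᶠ x in 𝓝[>] (0:ℝ), x * a < b := by
  have hc : Continuous fun x : ℝ => x * a := by fun_prop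
  have h := hc.tendsto 0
  rw [zero_mul] at h
  exact eventually_nhdsWithin_of_eventually_nhds (h.eventually_lt_const hb)

theorem main (hsmax : S_SMAX) : S_BUILD := by
  intro V _ _ _ k hk g₀ hg hgd v₀ κ hκ
  have hk' : (1 : WithTop ℕ∞) ≤ ((k : ℕ∞) : WithTop ℕ∞) := by exact_mod_cast hk
  have hk0 : ((k : ℕ∞) : WithTop ℕ∞) ≠ 0 := by
    intro h0; rw [h0] at hk'; exact absurd hk' (by norm_num)
  have hdiff : Differentiable ℝ g₀ := hgd.differentiable hk0
  have hDc : Continuous (fderiv ℝ g₀) := hgd.continuous_fderiv hk0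
  obtain ⟨ρ, hρ, hρκ, hρ1, hρD⟩ : ∃ ρ : ℝ, 0 < ρ ∧ ρ ≤ κ ∧ ρ ≤ 1 ∧ ∀ v, ‖v - v₀‖ < ρ →
      ‖fderiv ℝ g₀ v - fderiv ℝ g₀ v₀‖ ≤ κ / 8 := by
    have hc : Continuous fun v => ‖fderiv ℝ g₀ v - fderiv ℝ g₀ v₀‖ := (hDc.sub continuous_const).norm
    have h0 : ‖fderiv ℝ g₀ v₀ - fderiv ℝ g₀ v₀‖ < κ / 8 := by
      rw [sub_self, norm_zero]; linarith
    obtain ⟨ρ, hρ, h⟩ := Metric.eventually_nhds_iff.mp
      ((hc.continuousAt (x := v₀)).eventually_lt_const h0)
    refine ⟨min ρ (min κ 1), lt_min hρ (lt_min hκ one_pos), (min_le_right _ _).trans (min_le_left _ _),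
      (min_le_right _ _).trans (min_le_right _ _), fun v hv => ?_⟩
    exact (h (by rw [dist_eq_norm]; exact lt_of_lt_of_le hv (min_le_left _ _))).le
  obtain ⟨μ, hμ, hgrow⟩ := growth hg hdiff v₀ hρ
  have hμρ : 0 < μ * ρ := mul_pos hμ hρ
  obtain ⟨δ, hδ, hδκ, hδμ⟩ : ∃ δ : ℝ, 0 < δ ∧ δ ≤ κ / 8 ∧ δ ≤ μ * ρ / 8 :=
    ⟨min (κ / 8) (μ * ρ / 8), lt_min (by linarith) (by linarith), min_le_left _ _, min_le_right _ _⟩
  obtain ⟨r, hr, hrρ, hr4⟩ : ∃ r : ℝ, 0 < r ∧ r ≤ ρ ∧ ∀ w, ‖w - v₀‖ < r →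
      (‖fderiv ℝ g₀ w - fderiv ℝ g₀ v₀‖ ≤ μ / 8 ∧ ‖fderiv ℝ g₀ w - fderiv ℝ g₀ v₀‖ ≤ κ / 8) ∧
      |g₀ w + fderiv ℝ g₀ w (v₀ - w) - g₀ v₀| ≤ δ / 8 ∧
      g₀ w - (g₀ v₀ + fderiv ℝ g₀ v₀ (w - v₀)) ≤ δ / 4 := by
    have hc1 : Continuous fun v => ‖fderiv ℝ g₀ v - fderiv ℝ g₀ v₀‖ := (hDc.sub continuous_const).norm
    have hc2 : Continuous fun w => |g₀ w + fderiv ℝ g₀ w (v₀ - w) - g₀ v₀| :=
      ((hdiff.continuous.add (hDc.clm_apply (continuous_const.sub continuous_id))).sub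
        continuous_const).abs
    have hc3 : Continuous fun w => g₀ w - (g₀ v₀ + fderiv ℝ g₀ v₀ (w - v₀)) := by
      have := hdiff.continuous
      fun_prop
    have h1 : ‖fderiv ℝ g₀ v₀ - fderiv ℝ g₀ v₀‖ < μ / 8 := by
      rw [sub_self, norm_zero]; linarith
    have h1' : ‖fderiv ℝ g₀ v₀ - fderiv ℝ g₀ v₀‖ < κ / 8 := by
      rw [sub_self, norm_zero]; linarith
    have h2 : |g₀ v₀ + fderiv ℝ g₀ v₀ (v₀ - v₀) - g₀ v₀| < δ / 8 := by
      simp only [sub_self, map_zero, add_zero, abs_zero]; linarith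
    have h3 : g₀ v₀ - (g₀ v₀ + fderiv ℝ g₀ v₀ (v₀ - v₀)) < δ / 4 := by
      simp only [sub_self, map_zero, add_zero]; linarith
    obtain ⟨r, hr, h⟩ := Metric.eventually_nhds_iff.mp
      ((((hc1.continuousAt (x := v₀)).eventually_lt_const h1).and
        ((hc1.continuousAt (x := v₀)).eventually_lt_const h1')).and
      (((hc2.continuousAt (x := v₀)).eventually_lt_const h2).and
        ((hc3.continuousAt (x := v₀)).eventually_lt_const h3)))
    refine ⟨min r ρ, lt_min hr hρ, min_le_right _ _, fun w hw => ?_⟩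
    obtain ⟨⟨ha, hb⟩, hc, hd⟩ := h (y := w) (by
      rw [dist_eq_norm]; exact lt_of_lt_of_le hw (min_le_left _ _))
    exact ⟨⟨ha.le, hb.le⟩, hc.le, hd.le⟩
  refine ⟨r, hr, ?_⟩
  intro ι _ _ w α haff hcd hw hgap
  have hαd : ∀ i, Differentiable ℝ (α i) := fun i => (hcd i).differentiable hk0
  have hαe : ∀ i v, α i v = α i v₀ + fderiv ℝ (α i) v₀ (v - v₀) := fun i v =>
    aff_eq (haff i) (hαd i v₀) v
  obtain ⟨C, hC, hCα, hCA⟩ : ∃ C : ℝ, 0 < C ∧ (∀ i v, |α i v| ≤ C * (1 + ‖v - v₀‖)) ∧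
      ∀ i, ‖fderiv ℝ (α i) v₀‖ ≤ C := by
    have hle : ∀ i, |α i v₀| + ‖fderiv ℝ (α i) v₀‖ ≤ ∑ i, (|α i v₀| + ‖fderiv ℝ (α i) v₀‖) := fun i =>
      Finset.single_le_sum (f := fun i => |α i v₀| + ‖fderiv ℝ (α i) v₀‖)
        (fun i _ => by positivity) (Finset.mem_univ i)
    have hs0 : 0 ≤ ∑ i, (|α i v₀| + ‖fderiv ℝ (α i) v₀‖) := Finset.sum_nonneg fun i _ => by positivity
    refine ⟨1 + ∑ i, (|α i v₀| + ‖fderiv ℝ (α i) v₀‖), by linarith, fun i v => ?_, fun i => ?_⟩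
    · have h1 := hle i
      have h2 := abs_nonneg (α i v₀)
      have h3 := norm_nonneg (fderiv ℝ (α i) v₀)
      have h4 := norm_nonneg (v - v₀)
      have h5 : |fderiv ℝ (α i) v₀ (v - v₀)| ≤ ‖fderiv ℝ (α i) v₀‖ * ‖v - v₀‖ := by
        rw [← Real.norm_eq_abs]; exact ContinuousLinearMap.le_opNorm _ _
      rw [hαe i v]
      have h6 := abs_add_le (α i v₀) (fderiv ℝ (α i) v₀ (v - v₀))
      nlinarith
    · have h1 := hle i
      have h2 := abs_nonneg (α i v₀)
      linarith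
  obtain ⟨lam, hlam, hl1, hl2, hl3, hl4⟩ : ∃ lam : ℝ, 0 < lam ∧ lam * C ≤ δ / 8 ∧
      lam * C ≤ μ / 16 ∧ lam * C ≤ μ * ρ / 16 ∧ lam * C ≤ κ / 16 := by
    refine ⟨min (min (δ / 8) (μ / 16)) (min (μ * ρ / 16) (κ / 16)) / C, ?_, ?_⟩
    · apply div_pos _ hC
      exact lt_min (lt_min (by linarith) (by linarith)) (lt_min (by linarith) (by linarith))
    · rw [div_mul_cancel₀ _ hC.ne']
      exact ⟨(min_le_left _ _).trans (min_le_left _ _), (min_le_left _ _).trans (min_le_right _ _),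
        (min_le_right _ _).trans (min_le_left _ _), (min_le_right _ _).trans (min_le_right _ _)⟩
  obtain ⟨e, he0, he2, he⟩ : ∃ e : ℝ, 0 < e ∧ e ≤ 1 / 2 ∧ ∀ i j, i ≠ j →
      e * (g₀ (w j) - (g₀ (w i) + fderiv ℝ g₀ (w i) (w j - w i)))
        < lam * (α j (w j) - α i (w j)) := by
    have h1 : ∀ᶠ x in 𝓝[>] (0:ℝ), x ≤ 1 / 2 := by
      have h2 := ev_mul_lt 1 (show (0:ℝ) < 1 / 2 by norm_num)
      filter_upwards [h2] with x hx
      linarith
    have h2 : ∀ᶠ x in 𝓝[>] (0:ℝ), ∀ i j, i ≠ j →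
      x * (g₀ (w j) - (g₀ (w i) + fderiv ℝ g₀ (w i) (w j - w i)))
        < lam * (α j (w j) - α i (w j)) := by
      rw [eventually_all]; intro i
      rw [eventually_all]; intro j
      by_cases hij : i = j
      · exact Eventually.of_forall fun x h => absurd hij h
      · have hpos : 0 < lam * (α j (w j) - α i (w j)) :=
          mul_pos hlam (by linarith [hgap i j hij])
        filter_upwards [ev_mul_lt (g₀ (w j) - (g₀ (w i) + fderiv ℝ g₀ (w i) (w j - w i))) hpos]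
          with x hx _
        exact hx
    obtain ⟨x, hx0, hx1, hx2⟩ := exists_small h1 h2
    exact ⟨x, hx0, hx1, hx2⟩
  set b : ι → V → ℝ := fun j v => (g₀ v₀ + fderiv ℝ g₀ v₀ (v - v₀)) + δ + lam * α j v
    - e * (g₀ (w j) + fderiv ℝ g₀ (w j) (v - w j)) with hb
  set G : V → ℝ := fun v => (1 - e) * g₀ v with hG
  have hbaff : ∀ j, IsAff (b j) := by
    intro j u v s t hst
    have h1 := aff_lin (g₀ v₀) (fderiv ℝ g₀ v₀) v₀ u v s t hst
    have h2 := aff_lin (g₀ (w j)) (fderiv ℝ g₀ (w j)) (w j) u v s t hst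
    have h3 := haff j u v s t hst
    simp only at h1 h2
    simp only [hb]
    rw [h1, h2, h3]
    have ht : t = 1 - s := by linarith
    rw [ht]; ring
  have hbd : ∀ j, ContDiff ℝ k (b j) := by
    intro j
    have h1 : ∀ (c : ℝ) (L : V →L[ℝ] ℝ) (x : V), ContDiff ℝ k (fun v => c + L (v - x)) := fun c L x =>
      contDiff_const.add (L.contDiff.comp (contDiff_id.sub contDiff_const))
    exact ((((h1 _ _ _).add contDiff_const).add (contDiff_const.mul (hcd j))).sub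
      (contDiff_const.mul (h1 _ _ _)))
  have hGd : ContDiff ℝ k G := contDiff_const.mul hgd
  have he1 : 0 < 1 - e := by linarith
  have hGc : ConvexOn ℝ univ G := by
    refine ⟨convex_univ, fun x _ y _ s t hs ht hst => ?_⟩
    have h1 := hg.convexOn.2 (mem_univ x) (mem_univ y) hs ht hst
    simp only [smul_eq_mul] at h1 ⊢
    simp only [hG]
    nlinarith
  have hGf : ∀ v, fderiv ℝ G v = (1 - e) • fderiv ℝ g₀ v := fun v =>
    ((hdiff v).hasFDerivAt.const_mul (1 - e)).fderiv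
  have hbf : ∀ j v, fderiv ℝ (b j) v = fderiv ℝ g₀ v₀ + lam • fderiv ℝ (α j) v₀
      - e • fderiv ℝ g₀ (w j) := by
    intro j v
    have h1 := fderiv_lin (g₀ v₀) (fderiv ℝ g₀ v₀) v₀ v
    have h2 := fderiv_lin (g₀ (w j)) (fderiv ℝ g₀ (w j)) (w j) v
    have h3 := (hαd j v).hasFDerivAt
    rw [aff_fderiv (haff j) (hαd j v₀) v] at h3
    exact (((h1.add_const δ).add (h3.const_mul lam)).sub (h2.const_mul e)).fderiv
  -- comparison of the linearisations
  have hlin : ∀ j v, |(g₀ (w j) + fderiv ℝ g₀ (w j) (v - w j)) - (g₀ v₀ + fderiv ℝ g₀ v₀ (v - v₀))|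
      ≤ δ / 8 + ‖fderiv ℝ g₀ (w j) - fderiv ℝ g₀ v₀‖ * ‖v - v₀‖ := by
    intro j v
    have e1 : (g₀ (w j) + fderiv ℝ g₀ (w j) (v - w j)) - (g₀ v₀ + fderiv ℝ g₀ v₀ (v - v₀))
        = (g₀ (w j) + fderiv ℝ g₀ (w j) (v₀ - w j) - g₀ v₀)
          + (fderiv ℝ g₀ (w j) - fderiv ℝ g₀ v₀) (v - v₀) := by
      have e2 : v - w j = (v - v₀) + (v₀ - w j) := by abel
      rw [e2, map_add, sub_apply]
      ring
    rw [e1]
    have h1 := abs_add_le (g₀ (w j) + fderiv ℝ g₀ (w j) (v₀ - w j) - g₀ v₀)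
      ((fderiv ℝ g₀ (w j) - fderiv ℝ g₀ v₀) (v - v₀))
    have h2 := (hr4 (w j) (hw j)).2.1
    have h3 : |(fderiv ℝ g₀ (w j) - fderiv ℝ g₀ v₀) (v - v₀)|
        ≤ ‖fderiv ℝ g₀ (w j) - fderiv ℝ g₀ v₀‖ * ‖v - v₀‖ := by
      rw [← Real.norm_eq_abs]; exact ContinuousLinearMap.le_opNorm _ _
    linarith
  have hφn : ∀ v, 0 ≤ g₀ v - (g₀ v₀ + fderiv ℝ g₀ v₀ (v - v₀)) := fun v => by
    have := first_order hg.convexOn (hdiff v₀) v
    linarith
  -- far away the function `G` is above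
  have hfarb : ∀ j v, ρ ≤ ‖v - v₀‖ → μ * ρ / 8 ≤ G v - b j v := by
    intro j v hv
    have h1 := hgrow v hv
    have h2 := (abs_le.mp (hlin j v)).1
    have h3 := (abs_le.mp (hCα j v)).2
    have h4 := (hr4 (w j) (hw j)).1.1
    have ht : 0 ≤ ‖v - v₀‖ := norm_nonneg _
    set t : ℝ := ‖v - v₀‖ with ht'
    set φ : ℝ := g₀ v - (g₀ v₀ + fderiv ℝ g₀ v₀ (v - v₀)) with hφ'
    set l : ℝ := (g₀ (w j) + fderiv ℝ g₀ (w j) (v - w j)) - (g₀ v₀ + fderiv ℝ g₀ v₀ (v - v₀)) with hl'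
    have hμt : μ * ρ ≤ μ * t := mul_le_mul_of_nonneg_left hv hμ.le
    have h5 : ‖fderiv ℝ g₀ (w j) - fderiv ℝ g₀ v₀‖ * t ≤ μ / 8 * t :=
      mul_le_mul_of_nonneg_right h4 ht
    have h6 : -(μ * t / 4) ≤ l := by nlinarith
    have h7 : lam * α j v ≤ μ * t / 8 := by
      have e1 : lam * α j v ≤ lam * (C * (1 + t)) := mul_le_mul_of_nonneg_left h3 hlam.le
      have e2 : lam * (C * (1 + t)) = lam * C + lam * C * t := by ring
      have e3 : lam * C * t ≤ μ / 16 * t := mul_le_mul_of_nonneg_right hl2 ht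
      nlinarith
    have h8 : G v - b j v = (1 - e) * φ + e * l - δ - lam * α j v := by
      simp only [hG, hb, hφ', hl']; ring
    rw [h8]
    have h9 : (1 - e) * φ ≥ 1 / 2 * (μ * t) := by
      have e1 : 0 ≤ μ * t := by positivity
      nlinarith
    have h10 : e * l ≥ -(μ * t / 8) := by
      have e1 : 0 ≤ μ * t := by positivity
      nlinarith
    nlinarith
  -- at the points of the configuration
  have hg1 : ∀ j, δ / 2 ≤ b j (w j) - G (w j) := by
    intro j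
    have h1 := (hr4 (w j) (hw j)).2.2
    have h3 := (abs_le.mp (hCα j (w j))).1
    have ht : ‖w j - v₀‖ ≤ 1 := (hw j).le.trans (hrρ.trans hρ1)
    have h8 : b j (w j) - G (w j)
        = δ + lam * α j (w j) - (g₀ (w j) - (g₀ v₀ + fderiv ℝ g₀ v₀ (w j - v₀))) := by
      simp only [hG, hb, sub_self, map_zero]; ring
    rw [h8]
    have h4 : -(C * 2) ≤ α j (w j) := by nlinarith
    have h5 : lam * (-(C * 2)) ≤ lam * α j (w j) := mul_le_mul_of_nonneg_left h4 hlam.le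
    nlinarith
  have hg2 : ∀ i j, i ≠ j → 0 < b j (w j) - b i (w j) := by
    intro i j hij
    have h1 := he i j hij
    have h8 : b j (w j) - b i (w j) = lam * (α j (w j) - α i (w j))
        - e * (g₀ (w j) - (g₀ (w i) + fderiv ℝ g₀ (w i) (w j - w i))) := by
      simp only [hb, sub_self, map_zero]; ring
    rw [h8]; linarith
  -- the parameter of the regularised maximum
  set N : ℕ := (Finset.univ : Finset ι).card with hN
  obtain ⟨d, hd0, ⟨hd1, hd3, hd4⟩, hd2⟩ : ∃ d : ℝ, 0 < d ∧ (d * ((N:ℝ) + 2) < δ / 2 ∧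
      d * 1 < μ * ρ / 16 ∧ d * (N:ℝ) < κ / 8) ∧
      ∀ i j, i ≠ j → d * ((N:ℝ) + 2) < b j (w j) - b i (w j) := by
    refine exists_small ?_ ?_
    · exact (ev_mul_lt _ (by linarith)).and ((ev_mul_lt _ (by linarith)).and
        (ev_mul_lt _ (by linarith)))
    · rw [eventually_all]; intro i
      rw [eventually_all]; intro j
      by_cases hij : i = j
      · exact Eventually.of_forall fun x h => absurd hij h
      · filter_upwards [ev_mul_lt ((N:ℝ) + 2) (hg2 i j hij)] with x hx _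
        exact hx
  obtain ⟨H, hHc, hHd, hGH, hHup, hHeq, hHlow, hHder⟩ := hsmax V k hk G hGc hGd ι b hbaff hbd d hd0 N
    Finset.univ le_rfl
  have hHdiff : Differentiable ℝ H := hHd.differentiable hk0
  have hhf : ∀ v, fderiv ℝ (fun v => e * g₀ v + H v) v = e • fderiv ℝ g₀ v + fderiv ℝ H v := fun v =>
    (((hdiff v).hasFDerivAt.const_mul e).add (hHdiff v).hasFDerivAt).fderiv
  have hHG : ∀ v, ρ ≤ ‖v - v₀‖ → H v = G v := by
    intro v hv
    apply hHlow
    intro i _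
    have := hfarb i v hv
    linarith
  have hbnear : ∀ j v, ‖v - v₀‖ < ρ → b j v ≤ G v + κ / 2 := by
    intro j v hv
    have h1 := hφn v
    have h2 := (abs_le.mp (hlin j v)).1
    have h3 := (abs_le.mp (hCα j v)).2
    have h4 := (hr4 (w j) (hw j)).1.2
    have ht : 0 ≤ ‖v - v₀‖ := norm_nonneg _
    have ht1 : ‖v - v₀‖ ≤ 1 := hv.le.trans hρ1
    set t : ℝ := ‖v - v₀‖ with ht'
    set φ : ℝ := g₀ v - (g₀ v₀ + fderiv ℝ g₀ v₀ (v - v₀)) with hφ'
    set l : ℝ := (g₀ (w j) + fderiv ℝ g₀ (w j) (v - w j)) - (g₀ v₀ + fderiv ℝ g₀ v₀ (v - v₀)) with hl'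
    have h5 : ‖fderiv ℝ g₀ (w j) - fderiv ℝ g₀ v₀‖ * t ≤ κ / 8 * 1 :=
      mul_le_mul h4 ht1 ht (by linarith)
    have h6 : -(κ / 4) ≤ l := by linarith
    have h7 : lam * α j v ≤ κ / 8 := by
      have e1 : lam * α j v ≤ lam * (C * (1 + t)) := mul_le_mul_of_nonneg_left h3 hlam.le
      have e2 : lam * (C * (1 + t)) = lam * C + lam * C * t := by ring
      have e3 : lam * C * t ≤ κ / 16 * 1 := mul_le_mul hl4 ht1 ht (by linarith)
      linarith
    have h8 : b j v - G v = -((1 - e) * φ) - e * l + δ + lam * α j v := by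
      simp only [hG, hb, hφ', hl']; ring
    have h9 : 0 ≤ (1 - e) * φ := mul_nonneg he1.le h1
    have h10 : e * l ≥ -(κ / 8) := by nlinarith
    linarith
  have hLb : ∀ j v, ‖fderiv ℝ (b j) v - (1 - e) • fderiv ℝ g₀ v₀‖ ≤ κ / 8 := by
    intro j v
    have e1 : fderiv ℝ (b j) v - (1 - e) • fderiv ℝ g₀ v₀
        = lam • fderiv ℝ (α j) v₀ - e • (fderiv ℝ g₀ (w j) - fderiv ℝ g₀ v₀) := by
      rw [hbf]; module
    rw [e1]
    have h1 := norm_sub_le (lam • fderiv ℝ (α j) v₀) (e • (fderiv ℝ g₀ (w j) - fderiv ℝ g₀ v₀))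
    rw [norm_smul, norm_smul, Real.norm_eq_abs, Real.norm_eq_abs, abs_of_pos hlam,
      abs_of_pos he0] at h1
    have h2 : lam * ‖fderiv ℝ (α j) v₀‖ ≤ lam * C := mul_le_mul_of_nonneg_left (hCA j) hlam.le
    have h3 := (hr4 (w j) (hw j)).1.2
    have h4 : e * ‖fderiv ℝ g₀ (w j) - fderiv ℝ g₀ v₀‖ ≤ 1 / 2 * (κ / 8) :=
      mul_le_mul he2 h3 (norm_nonneg _) (by norm_num)
    linarith
  have hconv2 : ConvexOn ℝ univ (fun v => (e * g₀ v + H v) - e * g₀ v) := by
    have e1 : (fun v => (e * g₀ v + H v) - e * g₀ v) = H := by funext v; ring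
    rw [e1]; exact hHc
  refine ⟨fun v => e * g₀ v + H v, lam, δ, hlam, hδ, ?_, ⟨e, he0, hconv2⟩,
    (contDiff_const.mul hgd).add hHd, ?_, ?_, ?_, ?_⟩
  · have h1 : StrictConvexOn ℝ univ (fun v => e * g₀ v) := by
      refine ⟨convex_univ, fun x _ y _ hxy s t hs ht hst => ?_⟩
      have h1 := hg.2 (mem_univ x) (mem_univ y) hxy hs ht hst
      simp only [smul_eq_mul] at h1 ⊢
      nlinarith
    exact h1.add_convexOn hHc
  · intro v hv
    show e * g₀ v + H v = g₀ v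
    rw [hHG v (hρκ.trans hv)]
    simp only [hG]; ring
  · intro v
    show |e * g₀ v + H v - g₀ v| ≤ κ
    have e1 : e * g₀ v + H v - g₀ v = H v - G v := by simp only [hG]; ring
    rw [e1]
    rcases lt_or_ge (‖v - v₀‖) ρ with hv | hv
    · have h1 := hGH v
      have h2 := hHup v (G v + κ / 2) (by linarith) (fun i _ => hbnear i v hv)
      rw [abs_of_nonneg (by linarith)]
      have h3 : ((Finset.univ : Finset ι).card : ℝ) * d ≤ κ / 8 := by
        rw [← hN]; linarith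
      linarith
    · rw [hHG v hv, sub_self, abs_zero]; exact hκ.le
  · intro v
    rw [hhf]
    rcases lt_or_ge (‖v - v₀‖) ρ with hv | hv
    · have h1 := hρD v hv
      have h2 : ‖fderiv ℝ G v - (1 - e) • fderiv ℝ g₀ v₀‖ ≤ κ / 8 := by
        rw [hGf, ← smul_sub, norm_smul, Real.norm_eq_abs, abs_of_pos he1]
        have : (1 - e) * ‖fderiv ℝ g₀ v - fderiv ℝ g₀ v₀‖ ≤ 1 * (κ / 8) :=
          mul_le_mul (by linarith) h1 (norm_nonneg _) (by norm_num)
        linarith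
      have h3 := hHder v ((1 - e) • fderiv ℝ g₀ v₀) (κ / 8) h2 (fun i _ => hLb i v)
      have e1 : e • fderiv ℝ g₀ v + fderiv ℝ H v - fderiv ℝ g₀ v
          = (fderiv ℝ H v - (1 - e) • fderiv ℝ g₀ v₀)
            - (fderiv ℝ G v - (1 - e) • fderiv ℝ g₀ v₀) := by
        rw [hGf]; module
      rw [e1]
      have h4 := norm_sub_le (fderiv ℝ H v - (1 - e) • fderiv ℝ g₀ v₀)
        (fderiv ℝ G v - (1 - e) • fderiv ℝ g₀ v₀)
      linarith
    · have h1 : H =ᶠ[𝓝 v] G := by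
        have h2 : ∀ᶠ x in 𝓝 v, ∀ i, b i x + d < G x := by
          rw [eventually_all]
          intro i
          have h3 : b i v + d < G v := by
            have := hfarb i v hv
            linarith
          exact ((hbd i).continuous.add continuous_const).continuousAt.eventually_lt
            hGd.continuous.continuousAt h3
        filter_upwards [h2] with x hx
        exact hHlow x fun i _ => (hx i).le
      rw [h1.fderiv_eq, hGf]
      have e1 : e • fderiv ℝ g₀ v + (1 - e) • fderiv ℝ g₀ v - fderiv ℝ g₀ v = 0 := by module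
      rw [e1, norm_zero]; exact hκ.le
  · intro j
    have h1 : H =ᶠ[𝓝 (w j)] b j := by
      have h2 : ∀ᶠ x in 𝓝 (w j), ∀ i, i ≠ j → b i x + ((N:ℝ) + 2) * d < b j x := by
        rw [eventually_all]
        intro i
        by_cases hij : i = j
        · exact Eventually.of_forall fun x h => absurd hij h
        · have h3 : b i (w j) + ((N:ℝ) + 2) * d < b j (w j) := by
            have := hd2 i j hij
            linarith
          filter_upwards [((hbd i).continuous.add continuous_const).continuousAt.eventually_lt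
            (hbd j).continuous.continuousAt h3] with x hx _
          exact hx
      have h3 : ∀ᶠ x in 𝓝 (w j), G x + ((N:ℝ) + 2) * d < b j x := by
        have h4 : G (w j) + ((N:ℝ) + 2) * d < b j (w j) := by
          have := hg1 j
          linarith
        exact (hGd.continuous.add continuous_const).continuousAt.eventually_lt
            (hbd j).continuous.continuousAt h4
      filter_upwards [h2, h3] with x hx hx'
      exact hHeq x j (Finset.mem_univ j) hx'.le fun i _ hi => (hx i hi).le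
    constructor
    · show e * g₀ (w j) + H (w j) = _
      rw [h1.self_of_nhds]
      simp only [hb, sub_self, map_zero]; ring
    · rw [hhf, h1.fderiv_eq, hbf, aff_fderiv (haff j) (hαd j v₀) (w j)]
      module

end Pool.Agent.Y307.PCD.BUILD
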