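import Pool.Agent.Y307.PCD.Stm

/-!
Project PCD (helper307), MP_f3a7de_an: definitions, minors of `n × 2` matrices, representation of
linear functionals of the minors.
-/

set_option autoImplicit false
open Set Filter Topology
open Pool.Agent.H507R3.PC (IsAff)

namespace Pool.Agent.Y307.PCD

/-- Index set of all minors of an `n × 2` matrix: the size `k + 1 ≤ min n 2`, the `k + 1` rows and
the `k + 1` columns. -/
abbrev MinorIdx (n : ℕ) : Type := Σ k : Fin (min n 2),
  {r : Fin (k.1 + 1) → Fin n // StrictMono r} × {c : Fin (k.1 + 1) → Fin 2 // StrictMono c}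

/-- The vector `Φ(X)` of all minors of an `n × 2` matrix `X`: its entries and, if `n ≥ 2`, its
`2 × 2` determinants formed from pairs of rows. -/
noncomputable def minors {n : ℕ} (X : Fin n → Fin 2 → ℝ) : MinorIdx n → ℝ :=
  fun p => Matrix.det ((Matrix.of X).submatrix p.2.1.1 p.2.2.1)

open Classical in
/-- `f = g ∘ Φ` for a strictly convex function `g` of class `C^k`. -/
def StrictlyPolyconvex {n : ℕ} (k : ℕ∞) (f : (Fin n → Fin 2 → ℝ) → ℝ) : Prop :=
  ∃ g : (MinorIdx n → ℝ) → ℝ, StrictConvexOn ℝ univ g ∧ ContDiff ℝ k g ∧ ∀ X, f X = g (minors X)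

/-- The gradient `Df(X)`: the `n × 2` matrix of the partial derivatives of `f` at `X`. -/
noncomputable def grad {n : ℕ} (f : (Fin n → Fin 2 → ℝ) → ℝ) (X : Fin n → Fin 2 → ℝ) :
    Matrix (Fin n) (Fin 2) ℝ :=
  Matrix.of fun i j => fderiv ℝ f X (fun a b => if a = i ∧ b = j then (1 : ℝ) else 0)

/-- The rotation `J`. -/
def J : Matrix (Fin 2) (Fin 2) ℝ := !![0, 1; -1, 0]

/-- The real `(2 n + 2) × 2` matrices, as three blocks of `n`, `n` and `2` rows. -/
abbrev BigMat (n : ℕ) : Type := Matrix (Fin n ⊕ (Fin n ⊕ Fin 2)) (Fin 2) ℝ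

/-- The matrix obtained by stacking `X`, `Y_X = Df(X) J` and `Z_X = Xᵀ Y_X - f(X) J`. -/
noncomputable def stacked {n : ℕ} (f : (Fin n → Fin 2 → ℝ) → ℝ) (X : Fin n → Fin 2 → ℝ) :
    BigMat n :=
  Matrix.fromRows (Matrix.of X) (Matrix.fromRows (grad f X * J)
    ((Matrix.of X).transpose * (grad f X * J) - f X • J))

/-- The inclusion set `K_f`. -/
def inclusionSet {n : ℕ} (f : (Fin n → Fin 2 → ℝ) → ℝ) : Set (BigMat n) := range (stacked f)

/-- The closed ball of radius `R` about `0` for the Euclidean (Hilbert-Schmidt) norm. -/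
def closedBallHS (n : ℕ) (R : ℝ) : Set (BigMat n) := {P | ∑ i, ∑ j, P i j ^ 2 ≤ R ^ 2}

/-- `F` is rank-one convex: convex along all lines whose direction is a matrix of rank one. -/
def RankOneConvex {n : ℕ} (F : BigMat n → ℝ) : Prop :=
  ∀ A B : BigMat n, B.rank = 1 → ConvexOn ℝ univ (fun t : ℝ => F (A + t • B))

/-- The rank-one convex hull of `K`. -/
def rcHull {n : ℕ} (K : Set (BigMat n)) : Set (BigMat n) :=
  {A | ∀ F : BigMat n → ℝ, RankOneConvex F → (∀ P ∈ K, F P ≤ 0) → F A ≤ 0}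

variable {n : ℕ}

lemma sm2 {m : ℕ} {r s : Fin m} (h : r < s) : StrictMono (![r, s] : Fin 2 → Fin m) := by
  intro a b hab
  match a, b, hab with
  | 0, 0, hab => exact absurd hab (lt_irrefl _)
  | 0, 1, _ => simpa using h
  | 1, 0, hab => exact absurd hab (by decide)
  | 1, 1, hab => exact absurd hab (lt_irrefl _)

def e1 (r : Fin n) (c : Fin 2) : MinorIdx n :=
  ⟨⟨0, by have := r.2; omega⟩, ⟨fun _ => r, fun a b h => by
      have : a = b := Subsingleton.elim (α := Fin 1) a b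
      exact absurd h (by rw [this]; exact lt_irrefl _)⟩,
    ⟨fun _ => c, fun a b h => by
      have : a = b := Subsingleton.elim (α := Fin 1) a b
      exact absurd h (by rw [this]; exact lt_irrefl _)⟩⟩

def e2 (r s : Fin n) (h : r < s) : MinorIdx n :=
  ⟨⟨1, by have h1 := s.2; have h2 : r.1 < s.1 := h; omega⟩, ⟨![r, s], sm2 h⟩,
    ⟨![0, 1], sm2 (by decide)⟩⟩

lemma minors_e1 (Y : Fin n → Fin 2 → ℝ) (r : Fin n) (c : Fin 2) : minors Y (e1 r c) = Y r c := by
  show Matrix.det (n := Fin 1) ((Matrix.of Y).submatrix (fun _ => r) (fun _ => c)) = Y r c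
  rw [Matrix.det_fin_one]; rfl

lemma minors_e2 (Y : Fin n → Fin 2 → ℝ) (r s : Fin n) (h : r < s) :
    minors Y (e2 r s h) = Y r 0 * Y s 1 - Y r 1 * Y s 0 := by
  show Matrix.det (n := Fin 2) ((Matrix.of Y).submatrix ![r, s] ![0, 1]) = _
  rw [Matrix.det_fin_two]; rfl

/-- antisymmetric extension of the `2 × 2` minors -/
noncomputable def mv (v : MinorIdx n → ℝ) (r s : Fin n) : ℝ :=
  if h : r < s then v (e2 r s h) else if h' : s < r then - v (e2 s r h') else 0

lemma mv_minors (Y : Fin n → Fin 2 → ℝ) (r s : Fin n) :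
    mv (minors Y) r s = Y r 0 * Y s 1 - Y r 1 * Y s 0 := by
  unfold mv
  split_ifs with h h'
  · exact minors_e2 Y r s h
  · rw [minors_e2]; ring
  · have : r = s := le_antisymm (not_lt.mp h') (not_lt.mp h)
    subst this; ring

lemma mv_add (u w : MinorIdx n → ℝ) (a b : ℝ) (r s : Fin n) :
    mv (a • u + b • w) r s = a * mv u r s + b * mv w r s := by
  unfold mv
  split_ifs
  · simp
  · simp; ring
  · simp

/-- the affine function attached to a value, a gradient and multipliers at `A` -/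
noncomputable def aF (A Y : Fin n → Fin 2 → ℝ) (f : ℝ) (p : Fin n → Fin n → ℝ)
    (v : MinorIdx n → ℝ) : ℝ :=
  f + ∑ r, ∑ c, Y r c * (v (e1 r c) - A r c)
    + ∑ r, ∑ s, p r s * (mv v r s - v (e1 r 0) * A s 1 - A r 0 * v (e1 s 1)
        + v (e1 r 1) * A s 0 + A r 1 * v (e1 s 0) + (A r 0 * A s 1 - A r 1 * A s 0))

lemma aF_minors (A Y : Fin n → Fin 2 → ℝ) (f : ℝ) (p : Fin n → Fin n → ℝ) (Z : Fin n → Fin 2 → ℝ) :
    aF A Y f p (minors Z) = f + ∑ r, ∑ c, Y r c * (Z r c - A r c)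
      + ∑ r, ∑ s, p r s * ((Z r 0 - A r 0) * (Z s 1 - A s 1) - (Z r 1 - A r 1) * (Z s 0 - A s 0)) := by
  unfold aF
  simp only [minors_e1, mv_minors]
  congr 1
  apply Finset.sum_congr rfl; intro r _
  apply Finset.sum_congr rfl; intro s _
  ring

lemma aF_aff (A Y : Fin n → Fin 2 → ℝ) (f : ℝ) (p : Fin n → Fin n → ℝ) : IsAff (aF A Y f p) := by
  intro u w s t hst
  have ht : t = 1 - s := by linarith
  unfold aF
  simp only [mv_add, Pi.add_apply, Pi.smul_apply, smul_eq_mul]
  have e1' : ∑ r, ∑ c, Y r c * (s * u (e1 r c) + t * w (e1 r c) - A r c)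
      = s * ∑ r, ∑ c, Y r c * (u (e1 r c) - A r c) + t * ∑ r, ∑ c, Y r c * (w (e1 r c) - A r c) := by
    simp only [Finset.mul_sum]
    rw [← Finset.sum_add_distrib]
    apply Finset.sum_congr rfl; intro r _
    rw [← Finset.sum_add_distrib]
    apply Finset.sum_congr rfl; intro c _
    rw [ht]; ring
  rw [e1']
  have e2' : ∑ r, ∑ s', p r s' * (s * mv u r s' + t * mv w r s'
        - (s * u (e1 r 0) + t * w (e1 r 0)) * A s' 1 - A r 0 * (s * u (e1 s' 1) + t * w (e1 s' 1))
        + (s * u (e1 r 1) + t * w (e1 r 1)) * A s' 0 + A r 1 * (s * u (e1 s' 0) + t * w (e1 s' 0))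
        + (A r 0 * A s' 1 - A r 1 * A s' 0))
      = s * ∑ r, ∑ s', p r s' * (mv u r s' - u (e1 r 0) * A s' 1 - A r 0 * u (e1 s' 1)
        + u (e1 r 1) * A s' 0 + A r 1 * u (e1 s' 0) + (A r 0 * A s' 1 - A r 1 * A s' 0))
      + t * ∑ r, ∑ s', p r s' * (mv w r s' - w (e1 r 0) * A s' 1 - A r 0 * w (e1 s' 1)
        + w (e1 r 1) * A s' 0 + A r 1 * w (e1 s' 0) + (A r 0 * A s' 1 - A r 1 * A s' 0)) := by
    simp only [Finset.mul_sum]
    rw [← Finset.sum_add_distrib]
    apply Finset.sum_congr rfl; intro r _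
    rw [← Finset.sum_add_distrib]
    apply Finset.sum_congr rfl; intro c _
    rw [ht]; ring
  rw [e2', ht]
  ring

section norm

open Classical in
lemma mv_contDiff (k : ℕ∞) (r s : Fin n) : ContDiff ℝ k (fun v : MinorIdx n → ℝ => mv v r s) := by
  unfold mv
  split_ifs
  · exact contDiff_apply ℝ ℝ _
  · exact (contDiff_apply ℝ ℝ _).neg
  · exact contDiff_const

open Classical in
lemma aF_contDiff (k : ℕ∞) (A Y : Fin n → Fin 2 → ℝ) (f : ℝ) (p : Fin n → Fin n → ℝ) :
    ContDiff ℝ k (aF A Y f p) := by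
  unfold aF
  have hv : ∀ q : MinorIdx n, ContDiff ℝ k (fun v : MinorIdx n → ℝ => v q) :=
    fun q => contDiff_apply ℝ ℝ q
  have hm := mv_contDiff (n := n) k
  apply ContDiff.add
  · apply ContDiff.add contDiff_const
    apply ContDiff.sum; intro r _
    apply ContDiff.sum; intro c _
    exact contDiff_const.mul ((hv _).sub contDiff_const)
  · apply ContDiff.sum; intro r _
    apply ContDiff.sum; intro s _
    apply contDiff_const.mul
    exact ((((((hm r s).sub ((hv _).mul contDiff_const)).sub (contDiff_const.mul (hv _))).add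
      ((hv _).mul contDiff_const)).add (contDiff_const.mul (hv _))).add contDiff_const)

open Classical in
lemma minors_contDiff (k : ℕ∞) : ContDiff ℝ k (minors : (Fin n → Fin 2 → ℝ) → MinorIdx n → ℝ) := by
  rw [contDiff_pi]
  intro q
  unfold minors
  simp only [Matrix.det_apply']
  apply ContDiff.sum; intro σ _
  apply contDiff_const.mul
  apply contDiff_prod
  intro i _
  simp only [Matrix.submatrix_apply, Matrix.of_apply]
  exact (contDiff_apply ℝ ℝ _).comp (contDiff_apply ℝ (Fin 2 → ℝ) _)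

end norm

/-- a function of the form `B : X + Σ Q r s X r 0 X s 1` with antisymmetric `Q` -/
def Rep (F : (Fin n → Fin 2 → ℝ) → ℝ) : Prop :=
  ∃ (B : Fin n → Fin 2 → ℝ) (Q : Fin n → Fin n → ℝ), (∀ r s, Q s r = - Q r s) ∧
    ∀ X, F X = ∑ r, ∑ c, B r c * X r c + ∑ r, ∑ s, Q r s * (X r 0 * X s 1)

lemma rep_zero : Rep (n := n) (fun _ => 0) :=
  ⟨fun _ _ => 0, fun _ _ => 0, fun _ _ => by simp, fun X => by simp⟩

lemma rep_add {F G : (Fin n → Fin 2 → ℝ) → ℝ} (hF : Rep F) (hG : Rep G) :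
    Rep (fun X => F X + G X) := by
  obtain ⟨B, Q, h1, h2⟩ := hF
  obtain ⟨B', Q', h1', h2'⟩ := hG
  refine ⟨fun r c => B r c + B' r c, fun r s => Q r s + Q' r s, fun r s => ?_, fun X => ?_⟩
  · show Q s r + Q' s r = -(Q r s + Q' r s)
    rw [h1 r s, h1' r s]; ring
  · show F X + G X = _
    rw [h2, h2']
    simp only [add_mul, Finset.sum_add_distrib]
    ring

lemma rep_smul {F : (Fin n → Fin 2 → ℝ) → ℝ} (a : ℝ) (hF : Rep F) : Rep (fun X => a * F X) := by
  obtain ⟨B, Q, h1, h2⟩ := hF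
  refine ⟨fun r c => a * B r c, fun r s => a * Q r s, fun r s => ?_, fun X => ?_⟩
  · show a * Q s r = -(a * Q r s)
    rw [h1 r s]; ring
  · show a * F X = _
    rw [h2, mul_add, Finset.mul_sum, Finset.mul_sum]
    simp only [Finset.mul_sum, mul_assoc]

lemma rep_sum {ι : Type*} (S : Finset ι) (F : ι → (Fin n → Fin 2 → ℝ) → ℝ) (h : ∀ i, Rep (F i)) :
    Rep (fun X => ∑ i ∈ S, F i X) := by
  classical
  induction S using Finset.induction_on with
  | empty => simpa using (rep_zero (n := n))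
  | insert a S ha ih =>
    have := rep_add (h a) ih
    simpa [Finset.sum_insert ha] using this

lemma rep_entry (a : Fin n) (c : Fin 2) : Rep (fun X : Fin n → Fin 2 → ℝ => X a c) := by
  refine ⟨fun a' b => if a' = a then (if b = c then 1 else 0) else 0, fun _ _ => 0,
    fun _ _ => by simp, fun X => ?_⟩
  simp

lemma rep_det (a b : Fin n) :
    Rep (fun X : Fin n → Fin 2 → ℝ => X a 0 * X b 1 - X a 1 * X b 0) := by
  refine ⟨fun _ _ => 0, fun r s => (if r = a ∧ s = b then 1 else 0)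
      - (if r = b ∧ s = a then 1 else 0), fun r s => ?_, fun X => ?_⟩
  · have h1 : (s = a ∧ r = b) ↔ (r = b ∧ s = a) := and_comm
    have h2 : (s = b ∧ r = a) ↔ (r = a ∧ s = b) := and_comm
    show (if s = a ∧ r = b then (1:ℝ) else 0) - (if s = b ∧ r = a then (1:ℝ) else 0)
      = -((if r = a ∧ s = b then (1:ℝ) else 0) - (if r = b ∧ s = a then (1:ℝ) else 0))
    rw [if_congr h1 rfl rfl, if_congr h2 rfl rfl]
    ring
  · simp only [zero_mul, Finset.sum_const_zero, zero_add, sub_mul, Finset.sum_sub_distrib, ite_and,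
      ite_mul, one_mul]
    simp
    ring

lemma rep_minor (p : MinorIdx n) : Rep (fun X => minors X p) := by
  obtain ⟨⟨kv, hk⟩, ⟨r, hr⟩, ⟨c, hc⟩⟩ := p
  match kv, hk, r, hr, c, hc with
  | 0, hk, r, hr, c, hc =>
    have h1 : (fun X : Fin n → Fin 2 → ℝ => minors X ⟨⟨0, hk⟩, ⟨r, hr⟩, ⟨c, hc⟩⟩)
        = fun X => X (r 0) (c 0) := by
      funext X
      show Matrix.det (n := Fin 1) ((Matrix.of X).submatrix r c) = _
      rw [Matrix.det_fin_one]; rfl
    rw [h1]
    exact rep_entry _ _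
  | 1, hk, r, hr, c, hc =>
    have h01 : (c (0 : Fin 2)).1 < (c (1 : Fin 2)).1 := hc (Fin.zero_lt_one (n := 0))
    have h2 := (c (1 : Fin 2)).2
    have hc0 : c (0 : Fin 2) = 0 := by
      apply Fin.ext
      show (c (0 : Fin 2)).1 = 0
      omega
    have hc1 : c (1 : Fin 2) = 1 := by
      apply Fin.ext
      show (c (1 : Fin 2)).1 = 1
      omega
    have h1 : (fun X : Fin n → Fin 2 → ℝ => minors X ⟨⟨1, hk⟩, ⟨r, hr⟩, ⟨c, hc⟩⟩)
        = fun X => X (r (0 : Fin 2)) 0 * X (r (1 : Fin 2)) 1 - X (r (0 : Fin 2)) 1 * X (r (1 : Fin 2)) 0 := by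
      funext X
      show Matrix.det (n := Fin 2) ((Matrix.of X).submatrix r c) = _
      rw [Matrix.det_fin_two]
      show X (r (0 : Fin 2)) (c (0 : Fin 2)) * X (r (1 : Fin 2)) (c (1 : Fin 2))
        - X (r (0 : Fin 2)) (c (1 : Fin 2)) * X (r (1 : Fin 2)) (c (0 : Fin 2)) = _
      rw [hc0, hc1]
    rw [h1]
    exact rep_det _ _
  | (kk + 2), hk, r, hr, c, hc => exact absurd hk (by omega)

open Classical in
lemma rep_linear (L : (MinorIdx n → ℝ) →L[ℝ] ℝ) : Rep (fun X => L (minors X)) := by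
  have h : ∀ X : Fin n → Fin 2 → ℝ, L (minors X)
      = ∑ p : MinorIdx n, L (Pi.single p (1 : ℝ)) * minors X p := by
    intro X
    conv_lhs => rw [← Finset.univ_sum_single (minors X)]
    rw [map_sum]
    apply Finset.sum_congr rfl; intro p _
    have : Pi.single (M := fun _ : MinorIdx n => ℝ) p (minors X p)
        = (minors X p) • Pi.single p (1 : ℝ) := by
      rw [← Pi.single_smul]; simp
    rw [this, map_smul, smul_eq_mul, mul_comm]
  have h2 := rep_sum Finset.univ (fun (p : MinorIdx n) X => L (Pi.single p (1 : ℝ)) * minors X p)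
    (fun p => rep_smul _ (rep_minor p))
  have h3 : (fun X : Fin n → Fin 2 → ℝ => L (minors X))
      = fun X => ∑ p : MinorIdx n, L (Pi.single p (1 : ℝ)) * minors X p := funext h
  rw [h3]
  exact h2

end Pool.Agent.Y307.PCD
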