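import Pool.Agent.Y307.PCD.Seq

/-!
Project PCD (helper307), MP_f3a7de_an: failure near every point of the inclusion set.
-/

set_option autoImplicit false
open Set Filter Topology

namespace Pool.Agent.Y307.PCD

section

variable {n : ℕ}

lemma rcHull_mono {K L : Set (BigMat n)} (h : K ⊆ L) : rcHull K ⊆ rcHull L :=
  fun _ hA F hF hL => hA F hF fun P hP => hL P (h hP)

/-- boxes are closed under the hull -/
lemma rcHull_box (P₀ : BigMat n) (r : ℝ) (K : Set (BigMat n))
    (hK : ∀ P ∈ K, ∀ a b, |P a b - P₀ a b| ≤ r) (A : BigMat n) (hA : A ∈ rcHull K) (a) (b) :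
    |A a b - P₀ a b| ≤ r := by
  have h := hA (fun P => |P a b - P₀ a b| - r) ?_ (fun P hP => by have := hK P hP a b; linarith)
  · have h' : |A a b - P₀ a b| - r ≤ 0 := h
    linarith
  · intro B C _
    refine ⟨convex_univ, fun s _ t _ x y hx hy hxy => ?_⟩
    simp only [smul_eq_mul, Matrix.add_apply, Matrix.smul_apply]
    have e1 : B a b + (x * s + y * t) * C a b - P₀ a b
        = x * (B a b + s * C a b - P₀ a b) + y * (B a b + t * C a b - P₀ a b) := by
      have hy' : y = 1 - x := by linarith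
      rw [hy']; ring
    rw [e1]
    have e2 := abs_add_le (x * (B a b + s * C a b - P₀ a b)) (y * (B a b + t * C a b - P₀ a b))
    rw [abs_mul, abs_mul, abs_of_nonneg hx, abs_of_nonneg hy] at e2
    have e3 : x * (|B a b + s * C a b - P₀ a b| - r) + y * (|B a b + t * C a b - P₀ a b| - r)
        = x * |B a b + s * C a b - P₀ a b| + y * |B a b + t * C a b - P₀ a b| - r := by
      have hy' : y = 1 - x := by linarith
      rw [hy']; ring
    rw [e3]; linarith

/-- every neighbourhood contains a box -/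
lemma exists_box {U : Set (BigMat n)} {P₀ : BigMat n} (hU : U ∈ 𝓝 P₀) :
    ∃ r : ℝ, 0 < r ∧ ∀ P : BigMat n, (∀ a b, |P a b - P₀ a b| < r) → P ∈ U := by
  obtain ⟨r, hr, h⟩ := (Metric.mem_nhds_iff
    (α := (Fin n ⊕ (Fin n ⊕ Fin 2)) → Fin 2 → ℝ)).mp hU
  refine ⟨r, hr, fun P hP => h ?_⟩
  have h1 := (dist_pi_lt_iff (β := (Fin n ⊕ (Fin n ⊕ Fin 2))) (X := fun _ => Fin 2 → ℝ)
    (f := P) (g := P₀) hr).mpr fun a => (dist_pi_lt_iff hr).mpr fun b => by
      rw [Real.dist_eq]; exact hP a b
  exact Metric.mem_ball.mpr h1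

end

open Classical in
theorem everywhere {n : ℕ} (hn : 10 ≤ n) (f₀ : (Fin n → Fin 2 → ℝ) → ℝ)
    (hf₀ : StrictlyPolyconvex 1 f₀) (F₀ : Set (Fin n → Fin 2 → ℝ)) (hF₀ : F₀.Finite)
    (ε : ℝ) (hε : 0 < ε) :
    ∃ f : (Fin n → Fin 2 → ℝ) → ℝ, StrictlyPolyconvex 1 f ∧ (∀ X, |f X - f₀ X| ≤ ε) ∧
      (∀ X i j, |grad f X i j - grad f₀ X i j| ≤ ε) ∧
      (∀ X ∈ F₀, f X = f₀ X ∧ grad f X = grad f₀ X) ∧
      ∀ U : Set (BigMat n), IsOpen U → (inclusionSet f ∩ U).Nonempty →
        ∃ A, A ∈ U ∧ A ∈ rcHull (inclusionSet f ∩ U) ∧ A ∉ inclusionSet f := by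
  obtain ⟨m, rfl⟩ := Nat.exists_eq_add_of_le hn
  obtain ⟨g₀, hg₀c, hg₀d, hg₀⟩ := hf₀
  have hf₀e : f₀ = fun X => g₀ (minors X) := funext hg₀
  subst hf₀e
  set s₀ : St m := ⟨g₀, F₀, ε / 2, hg₀c, hg₀d, hF₀, by linarith⟩ with hs₀
  set D : ℕ → Fin (10 + m) → Fin 2 → ℝ := fun i =>
    TopologicalSpace.denseSeq (Fin (10 + m) → Fin 2 → ℝ) (Nat.unpair i).1 with hD
  have hstep := fun i => run_step D s₀ i
  unfold Step at hstep
  choose e he0 heb heb' hq hFF hval hder hgr hfr X W A hX hWF hWst hhull hnot using hstep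
  set S : ℕ → St m := run D s₀ with hS
  have he2 : ∀ i, e (i + 1) ≤ e i / 2 := fun i => by
    have h1 := heb (i + 1)
    rw [heb' i] at h1
    exact h1
  have he00 : 2 * e 0 ≤ ε := by
    have h1 : e 0 ≤ ε / 2 := heb 0
    linarith
  have hSd : ∀ i, ContDiff ℝ 1 (S i).g := fun i => by exact_mod_cast (S i).hd
  have hlim0 := e_tendsto e he0 he2
  obtain ⟨H, hHs, hHd, hHb, hHfb⟩ := limit (fun i => (S i).g) e he0 he2 hSd
    (fun i => (S i).hg.convexOn) hval hder hq
  set f : (Fin (10 + m) → Fin 2 → ℝ) → ℝ := fun X => H (minors X) with hf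
  have hHdd : ∀ v, DifferentiableAt ℝ H v := hHd.differentiable (by norm_num)
  have hSdd : ∀ i v, DifferentiableAt ℝ (S i).g v := fun i => (hSd i).differentiable (by norm_num)
  -- uniform closeness of the gradients
  have hgb : ∀ i X a b, |grad f X a b - grad (fun X => (S i).g (minors X)) X a b| ≤ 2 * e i := by
    intro i X a b
    obtain ⟨-, hb⟩ := lim_bound (fun i => grad (fun X => (S i).g (minors X)) X a b) e he2
      (fun i => by rw [Real.norm_eq_abs]; exact hgr i X a b)
    set L : ℝ := grad (fun X => (S 0).g (minors X)) X a b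
      + ∑' j, (grad (fun X => (S (j + 1)).g (minors X)) X a b
        - grad (fun X => (S j).g (minors X)) X a b) with hL
    have h1 : Tendsto (fun i => grad (fun X => (S i).g (minors X)) X a b) atTop (𝓝 L) := by
      rw [tendsto_iff_norm_sub_tendsto_zero]
      refine squeeze_zero (fun _ => norm_nonneg _) (fun i => ?_)
        (by simpa using hlim0.const_mul 2)
      rw [norm_sub_rev]; exact hb i
    have h2 : Tendsto (fun i => grad (fun X => (S i).g (minors X)) X a b) atTop
        (𝓝 (grad f X a b)) := by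
      rw [tendsto_iff_norm_sub_tendsto_zero]
      have h3 : Tendsto (fun i => (2 * e i) * ‖fderiv ℝ (minors : (Fin (10 + m) → Fin 2 → ℝ) →
          MinorIdx (10 + m) → ℝ) X (un a b)‖) atTop (𝓝 0) := by
        simpa using (hlim0.const_mul 2).mul_const ‖fderiv ℝ (minors : (Fin (10 + m) → Fin 2 → ℝ) →
          MinorIdx (10 + m) → ℝ) X (un a b)‖
      refine squeeze_zero (fun _ => norm_nonneg _) (fun i => ?_) h3
      rw [norm_sub_rev, hf, grad_comp X (hHdd _) a b, grad_comp X (hSdd i _) a b, ← sub_apply]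
      exact (ContinuousLinearMap.le_opNorm _ _).trans
        (mul_le_mul_of_nonneg_right (hHfb i _) (norm_nonneg _))
    have h4 := tendsto_nhds_unique h1 h2
    rw [← h4, ← Real.norm_eq_abs]
    exact hb i
  -- frozen points
  have hmono : ∀ i j, i ≤ j → (S i).F ⊆ (S j).F := by
    intro i j hij
    induction j, hij using Nat.le_induction with
    | base => exact subset_rfl
    | succ j _ ih => exact ih.trans (hFF j)
  have hfz : ∀ i Y, Y ∈ (S i).F → ∀ j, i ≤ j → (S j).g (minors Y) = (S i).g (minors Y) ∧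
      fderiv ℝ (S j).g (minors Y) = fderiv ℝ (S i).g (minors Y) := by
    intro i Y hY j hij
    induction j, hij using Nat.le_induction with
    | base => exact ⟨rfl, rfl⟩
    | succ j hj ih =>
      have h1 := hfr j Y (hmono i j hj hY)
      exact ⟨(h1.self_of_nhds).trans ih.1, (h1.fderiv_eq).trans ih.2⟩
  have hzero : ∀ (x : ℝ), (∀ᶠ j in atTop, |x| ≤ 2 * e j) → x = 0 := by
    intro x hx
    have h1 : Tendsto (fun j => 2 * e j) atTop (𝓝 0) := by simpa using hlim0.const_mul 2
    have h2 := ge_of_tendsto h1 hx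
    exact abs_nonpos_iff.mp h2
  have hfrozen' : ∀ i Y, Y ∈ (S i).F → f Y = (S i).g (minors Y) ∧
      ∀ a b, grad f Y a b = grad (fun X => (S i).g (minors X)) Y a b := by
    intro i Y hY
    have h1 : f Y = (S i).g (minors Y) := by
      have h2 := hzero (f Y - (S i).g (minors Y)) (by
        filter_upwards [eventually_ge_atTop i] with j hj
        rw [← (hfz i Y hY j hj).1]
        exact hHb j (minors Y))
      linarith
    have h3 : ∀ a b, grad f Y a b = grad (fun X => (S i).g (minors X)) Y a b := by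
      intro a b
      have h2 := hzero (grad f Y a b - grad (fun X => (S i).g (minors X)) Y a b) (by
        filter_upwards [eventually_ge_atTop i] with j hj
        have h4 : grad (fun X => (S i).g (minors X)) Y a b
            = grad (fun X => (S j).g (minors X)) Y a b := by
          rw [grad_comp Y (hSdd i _) a b, grad_comp Y (hSdd j _) a b, (hfz i Y hY j hj).2]
        rw [h4]
        exact hgb j Y a b)
      linarith
    exact ⟨h1, h3⟩
  have hfrozen : ∀ i Y, Y ∈ (S i).F → stacked f Y = stacked (fun X => (S i).g (minors X)) Y := by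
    intro i Y hY
    obtain ⟨h1, h3⟩ := hfrozen' i Y hY
    rw [stacked_eq, stacked_eq]
    have h5 : (fun a b => grad f Y a b) = fun a b => grad (fun X => (S i).g (minors X)) Y a b := by
      funext a b; exact h3 a b
    rw [h5, h1]
  have hfc : ContDiff ℝ 1 f := hHd.comp (by exact_mod_cast minors_contDiff (n := 10 + m) 1)
  refine ⟨f, ⟨H, hHs, by exact_mod_cast hHd, fun X => rfl⟩, fun X => (hHb 0 _).trans he00,
    fun X a b => (hgb 0 X a b).trans he00, fun Y hY => ⟨(hfrozen' 0 Y hY).1, by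
      ext a b; exact (hfrozen' 0 Y hY).2 a b⟩, ?_⟩
  rintro U hU ⟨P₀, ⟨X₀, hX₀⟩, hPU⟩
  obtain ⟨r', hr', hbox⟩ := exists_box (hU.mem_nhds hPU)
  obtain ⟨r, hr, hrr⟩ : ∃ r : ℝ, 0 < r ∧ r < r' := ⟨r' / 2, by linarith, by linarith⟩
  -- continuity of the stacked matrix
  set q₀ : (Fin (10 + m) → Fin 2 → ℝ) × ℝ × (Fin (10 + m) → Fin 2 → ℝ) :=
    (X₀, f X₀, fun i j => grad f X₀ i j) with hq₀
  have hst : stk q₀ = P₀ := by rw [← hX₀, stacked_eq]
  have hUq : ∀ᶠ q in 𝓝 q₀, ∀ a b, |stk q a b - P₀ a b| < r / 2 := by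
    have h2 : Tendsto (stk : _ → BigMat (10 + m)) (𝓝 q₀) (𝓝 (stk q₀)) := stk_cont.tendsto q₀
    rw [hst] at h2
    exact h2 (entries_nhds P₀ (show 0 < r / 2 by linarith))
  obtain ⟨ρ, hρ, hρq⟩ := Metric.eventually_nhds_iff.mp hUq
  have hev : ∀ᶠ X in 𝓝 X₀, dist X X₀ < ρ ∧ |f X - f X₀| < ρ / 2 ∧
      ∀ i j, |grad f X i j - grad f X₀ i j| < ρ / 2 := by
    refine Filter.Eventually.and ?_ (Filter.Eventually.and ?_ ?_)
    · exact Metric.eventually_nhds_iff.mpr ⟨ρ, hρ, fun _ h => h⟩
    · have hc : Continuous fun X => |f X - f X₀| := (hfc.continuous.sub continuous_const).abs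
      have h0 : |f X₀ - f X₀| < ρ / 2 := by simpa using hρ
      exact hc.continuousAt.eventually_lt_const h0
    · rw [eventually_all]; intro i
      rw [eventually_all]; intro j
      have hc1 : Continuous fun X => grad f X i j := by
        show Continuous fun X => fderiv ℝ f X (un i j)
        exact (hfc.continuous_fderiv (by norm_num)).clm_apply continuous_const
      have hc : Continuous fun X => |grad f X i j - grad f X₀ i j| := (hc1.sub continuous_const).abs
      have h0 : |grad f X₀ i j - grad f X₀ i j| < ρ / 2 := by simpa using hρ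
      exact hc.continuousAt.eventually_lt_const h0
  obtain ⟨τ, hτ, hτX⟩ := Metric.eventually_nhds_iff.mp hev
  -- a late step with centre near `X₀`
  have hpow : Tendsto (fun i : ℕ => (1 / 2 : ℝ) ^ i) atTop (𝓝 0) :=
    tendsto_pow_atTop_nhds_zero_of_lt_one (by norm_num) (by norm_num)
  have h2e : Tendsto (fun j => 2 * e j) atTop (𝓝 0) := by simpa using hlim0.const_mul 2
  obtain ⟨N, hN⟩ := eventually_atTop.mp
    ((hpow.eventually_lt_const (show 0 < min (r / 2) (τ / 2) from lt_min (by linarith) (by linarith))).and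
      (h2e.eventually_lt_const (show 0 < ρ / 2 by linarith)))
  obtain ⟨l, hl⟩ := (TopologicalSpace.denseRange_denseSeq (Fin (10 + m) → Fin 2 → ℝ)).exists_dist_lt
    X₀ (show 0 < τ / 2 by linarith)
  set i : ℕ := Nat.pair l N with hi
  obtain ⟨hN1, hN2⟩ := hN i (Nat.right_le_pair l N)
  have hDi : D i = TopologicalSpace.denseSeq (Fin (10 + m) → Fin 2 → ℝ) l := by
    simp only [hD, hi, Nat.unpair_pair]
  have hXi : dist (X i) X₀ < τ := by
    have h1 := hX i
    rw [hDi] at h1
    have h2 := dist_triangle (X i) (TopologicalSpace.denseSeq (Fin (10 + m) → Fin 2 → ℝ) l) X₀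
    rw [dist_comm (X i) (TopologicalSpace.denseSeq (Fin (10 + m) → Fin 2 → ℝ) l),
      dist_comm (TopologicalSpace.denseSeq (Fin (10 + m) → Fin 2 → ℝ) l) X₀] at h2
    have h3 := hN1.trans_le (min_le_right _ _)
    linarith
  obtain ⟨k1, k2, k3⟩ := hτX hXi
  have hclose : ∀ a b, |stacked (fun X => (S i).g (minors X)) (X i) a b - P₀ a b| < r / 2 := by
    rw [stacked_eq]
    apply hρq
    rw [hq₀, Prod.dist_eq, Prod.dist_eq]
    refine max_lt k1 (max_lt ?_ ?_)
    · show dist ((S i).g (minors (X i))) (f X₀) < ρ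
      rw [Real.dist_eq]
      have e1' := hHb i (minors (X i))
      rw [abs_sub_comm] at e1'
      have e2' : (S i).g (minors (X i)) - f X₀
          = ((S i).g (minors (X i)) - H (minors (X i))) + (f (X i) - f X₀) := by
        simp only [hf]; ring
      rw [e2']
      have e3' := abs_add_le ((S i).g (minors (X i)) - H (minors (X i))) (f (X i) - f X₀)
      linarith
    · rw [dist_pi_lt_iff hρ]; intro a
      rw [dist_pi_lt_iff hρ]; intro b
      show dist (grad (fun X => (S i).g (minors X)) (X i) a b) (grad f X₀ a b) < ρ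
      rw [Real.dist_eq]
      have e1' := hgb i (X i) a b
      rw [abs_sub_comm] at e1'
      have e4' := k3 a b
      have e2' : grad (fun X => (S i).g (minors X)) (X i) a b - grad f X₀ a b
          = (grad (fun X => (S i).g (minors X)) (X i) a b - grad f (X i) a b)
            + (grad f (X i) a b - grad f X₀ a b) := by ring
      rw [e2']
      have e3' := abs_add_le (grad (fun X => (S i).g (minors X)) (X i) a b - grad f (X i) a b)
        (grad f (X i) a b - grad f X₀ a b)
      linarith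
  have hWr : ∀ j a b, |stacked f (W i j) a b - P₀ a b| < r := by
    intro j a b
    rw [hfrozen (i + 1) (W i j) (hWF i j)]
    have h1 := hWst i j a b
    have h2 := hclose a b
    have h3 := hN1.trans_le (min_le_left _ _)
    have h4 := abs_add_le (stacked (fun X => (S (i + 1)).g (minors X)) (W i j) a b
      - stacked (fun X => (S i).g (minors X)) (X i) a b)
      (stacked (fun X => (S i).g (minors X)) (X i) a b - P₀ a b)
    rw [sub_add_sub_cancel] at h4
    linarith
  set K : Set (BigMat (10 + m)) := {P | P ∈ inclusionSet f ∧ ∀ a b, |P a b - P₀ a b| < r} with hK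
  have hAK : A i ∈ rcHull K := by
    apply hhull i
    intro j
    rw [← hfrozen (i + 1) (W i j) (hWF i j)]
    exact ⟨⟨_, rfl⟩, hWr j⟩
  have hKU : K ⊆ inclusionSet f ∩ U := fun P hP =>
    ⟨hP.1, hbox P fun a b => (hP.2 a b).trans hrr⟩
  refine ⟨A i, hbox _ fun a b => ?_, rcHull_mono hKU hAK, hnot i f⟩
  exact (rcHull_box P₀ r K (fun P hP a b => (hP.2 a b).le) (A i) hAK a b).trans_lt hrr

end Pool.Agent.Y307.PCD
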