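import Pool.Agent.Y307.PCD.Stm

/-!
Project PCD (helper307), MP_f3a7de_an: a smooth regularisation of the positive part (`S_PSI`).
-/

set_option autoImplicit false
open Set Filter Topology

namespace Pool.Agent.Y307.PCD.PSI

/-- the derivative -/
noncomputable def s (t : ℝ) : ℝ := Real.smoothTransition ((t + 1) / 2)

lemma s_cont : Continuous s := Real.smoothTransition.continuous.comp (by fun_prop)

lemma s_sm : ContDiff ℝ ((⊤ : ℕ∞) : WithTop ℕ∞) s :=
  Real.smoothTransition.contDiff.comp (by fun_prop)

lemma s_mono : Monotone s := fun x y h => Real.smoothTransition.monotone (by linarith)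

lemma s_low {t : ℝ} (h : t ≤ -1) : s t = 0 := Real.smoothTransition.zero_of_nonpos (by linarith)

lemma s_high {t : ℝ} (h : 1 ≤ t) : s t = 1 := Real.smoothTransition.one_of_one_le (by linarith)

lemma s_sym (t : ℝ) : s t + s (-t) = 1 := by
  have h1 := Real.smoothTransition.pos_denom ((t + 1) / 2)
  have e : (-t + 1) / 2 = 1 - (t + 1) / 2 := by ring
  unfold s
  rw [e]
  unfold Real.smoothTransition
  rw [sub_sub_cancel, add_comm (expNegInvGlue (1 - (t + 1) / 2)) (expNegInvGlue ((t + 1) / 2)),
    ← add_div, div_self h1.ne']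

/-- the function -/
noncomputable def psi (t : ℝ) : ℝ := ∫ x in (-1)..t, s x

lemma psi_der (t : ℝ) : HasDerivAt psi (s t) t :=
  (s_cont.integral_hasStrictDerivAt (-1) t).hasDerivAt

lemma psi_deriv : deriv psi = s := funext fun t => (psi_der t).deriv

lemma psi_diff : Differentiable ℝ psi := fun t => (psi_der t).differentiableAt

lemma psi_one : psi 1 = 1 := by
  have h1 : ∫ x in (-1:ℝ)..1, s (-x) = ∫ x in (-1:ℝ)..1, s x := by
    rw [intervalIntegral.integral_comp_neg]; simp
  have h2 : ∫ x in (-1:ℝ)..1, (s x + s (-x)) = 2 := by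
    simp only [s_sym]
    rw [intervalIntegral.integral_const]; norm_num
  have hi : IntervalIntegrable (fun x => s (-x)) MeasureTheory.volume (-1) 1 :=
    (s_cont.comp continuous_neg).intervalIntegrable _ _
  rw [intervalIntegral.integral_add (s_cont.intervalIntegrable _ _) hi, h1] at h2
  unfold psi
  linarith

theorem main : S_PSI := by
  refine ⟨psi, ?_, ?_, ?_, ?_, ?_, ?_, ?_⟩
  · rw [contDiff_infty_iff_deriv]
    exact ⟨psi_diff, by rw [psi_deriv]; exact s_sm⟩
  · intro t ht
    have h : ∫ x in (-1)..t, s x = ∫ x in (-1)..t, (0:ℝ) := by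
      apply intervalIntegral.integral_congr
      intro x hx
      rw [uIcc_of_ge ht] at hx
      exact s_low hx.2
    unfold psi
    rw [h]; simp
  · intro t ht
    have h : ∫ x in (1:ℝ)..t, s x = ∫ x in (1:ℝ)..t, (1:ℝ) := by
      apply intervalIntegral.integral_congr
      intro x hx
      rw [uIcc_of_le ht] at hx
      exact s_high hx.1
    have h2 : psi t = psi 1 + ∫ x in (1:ℝ)..t, s x := by
      unfold psi
      rw [intervalIntegral.integral_add_adjacent_intervals (s_cont.intervalIntegrable _ _)
        (s_cont.intervalIntegrable _ _)]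
    rw [h2, h, psi_one]
    simp
  · apply Monotone.convexOn_univ_of_deriv psi_diff
    rw [psi_deriv]; exact s_mono
  · apply monotone_of_deriv_nonneg psi_diff
    intro t; rw [psi_deriv]; exact Real.smoothTransition.nonneg _
  · apply monotone_of_deriv_nonneg
    · exact differentiable_id.sub psi_diff
    · intro t
      have h : HasDerivAt (fun t => t - psi t) (1 - s t) t := (hasDerivAt_id t).sub (psi_der t)
      rw [h.deriv]
      have := Real.smoothTransition.le_one ((t + 1) / 2)
      unfold s
      linarith
  · intro t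
    rw [psi_deriv]
    exact ⟨Real.smoothTransition.nonneg _, Real.smoothTransition.le_one _⟩

end Pool.Agent.Y307.PCD.PSI
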