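import Pool.Agent.Y307.PCD.Stm

/-!
Project PCD (helper307), MP_f3a7de_an: regularised maximum (`S_SMAX` from `S_PSI`).
-/

set_option autoImplicit false
open Set Filter Topology
open Pool.Agent.H507R3.PC (IsAff)

namespace Pool.Agent.Y307.PCD.SMAX

/-- the properties of the scaled regularised positive part -/
structure Reg (δ : ℝ) (p : ℝ → ℝ) : Prop where
  sm : ContDiff ℝ ((⊤ : ℕ∞) : WithTop ℕ∞) p
  low : ∀ t, t ≤ -δ → p t = 0
  high : ∀ t, δ ≤ t → p t = t
  conv : ConvexOn ℝ univ p
  mono : Monotone p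
  lip : Monotone (fun t => t - p t)
  d0 : ∀ t, 0 ≤ deriv p t
  d1 : ∀ t, deriv p t ≤ 1

lemma exists_reg (hpsi : S_PSI) {δ : ℝ} (hδ : 0 < δ) : ∃ p : ℝ → ℝ, Reg δ p := by
  obtain ⟨ψ, h1, h2, h3, h4, h5, h6, h7⟩ := hpsi
  have hd : Differentiable ℝ ψ := h1.differentiable (by simp)
  have hder : ∀ t, HasDerivAt (fun t => δ * ψ (t / δ)) (deriv ψ (t / δ)) t := by
    intro t
    have e1 : HasDerivAt (fun t : ℝ => t / δ) (1 / δ) t := (hasDerivAt_id t).div_const δ
    have e2 := ((hd (t / δ)).hasDerivAt.comp t e1).const_mul δ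
    refine e2.congr_deriv ?_
    field_simp
  refine ⟨fun t => δ * ψ (t / δ), ⟨?_, ?_, ?_, ?_, ?_, ?_, ?_, ?_⟩⟩
  · exact contDiff_const.mul (h1.comp (contDiff_id.div_const δ))
  · intro t ht
    have : t / δ ≤ -1 := by rw [div_le_iff₀ hδ]; linarith
    show δ * ψ (t / δ) = 0
    rw [h2 _ this, mul_zero]
  · intro t ht
    have : 1 ≤ t / δ := by rw [le_div_iff₀ hδ]; linarith
    show δ * ψ (t / δ) = t
    rw [h3 _ this]; field_simp
  · refine ⟨convex_univ, fun x _ y _ s t hs ht hst => ?_⟩
    have e := h4.2 (mem_univ (x / δ)) (mem_univ (y / δ)) hs ht hst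
    simp only [smul_eq_mul] at e ⊢
    have e2 : (s * x + t * y) / δ = s * (x / δ) + t * (y / δ) := by ring
    rw [e2]
    have e3 := mul_le_mul_of_nonneg_left e hδ.le
    linarith
  · intro x y hxy
    exact mul_le_mul_of_nonneg_left (h5 (div_le_div_of_nonneg_right hxy hδ.le)) hδ.le
  · intro x y hxy
    have e := h6 (div_le_div_of_nonneg_right hxy hδ.le)
    simp only at e ⊢
    have e3 := mul_le_mul_of_nonneg_left e hδ.le
    have e4 : δ * (x / δ - ψ (x / δ)) = x - δ * ψ (x / δ) := by field_simp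
    have e5 : δ * (y / δ - ψ (y / δ)) = y - δ * ψ (y / δ) := by field_simp
    rw [e4, e5] at e3
    exact e3
  · intro t; rw [(hder t).deriv]; exact (h7 _).1
  · intro t; rw [(hder t).deriv]; exact (h7 _).2

section
variable {δ : ℝ} {p : ℝ → ℝ}

lemma Reg.nonneg (h : Reg δ p) (t : ℝ) : 0 ≤ p t := by
  have e := h.mono (min_le_left t (-δ))
  rw [h.low _ (min_le_right t (-δ))] at e
  exact e

lemma Reg.le (h : Reg δ p) (t : ℝ) {M : ℝ} (hM : 0 ≤ M) (ht : t ≤ M) : p t ≤ M + δ := by
  rcases le_total δ t with h1 | h1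
  · rw [h.high _ h1]
    have : 0 ≤ p δ := h.nonneg δ
    have e2 := h.high δ le_rfl
    linarith
  · have e := h.mono h1
    rw [h.high _ le_rfl] at e
    linarith

variable {V : Type} [NormedAddCommGroup V] [NormedSpace ℝ V]

lemma smax_convex (hp : Reg δ p) {h a : V → ℝ} (hh : ConvexOn ℝ univ h) (ha : IsAff a) :
    ConvexOn ℝ univ (fun v => h v + p (a v - h v)) := by
  refine ⟨convex_univ, fun u _ w _ s t hs ht hst => ?_⟩
  have h1 := hh.2 (mem_univ u) (mem_univ w) hs ht hst
  have h2 := ha u w s t hst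
  simp only [smul_eq_mul] at h1 ⊢
  set x := h (s • u + t • w)
  rw [h2]
  set x1 := h u
  set x2 := h w
  set y1 := a u
  set y2 := a w
  have h3 := hp.lip (show s * y1 + t * y2 - (s * x1 + t * x2) ≤ s * y1 + t * y2 - x by linarith)
  have h4 := hp.conv.2 (mem_univ (y1 - x1)) (mem_univ (y2 - x2)) hs ht hst
  simp only [smul_eq_mul] at h3 h4
  have e : s * (y1 - x1) + t * (y2 - x2) = s * y1 + t * y2 - (s * x1 + t * x2) := by ring
  rw [e] at h4
  nlinarith [h3, h4]

lemma step_fderiv (hp : Reg δ p) {h a : V → ℝ} (hh : Differentiable ℝ h) (ha : Differentiable ℝ a)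
    (v : V) (L : V →L[ℝ] ℝ) (r : ℝ) (h1 : ‖fderiv ℝ h v - L‖ ≤ r) (h2 : ‖fderiv ℝ a v - L‖ ≤ r) :
    ‖fderiv ℝ (fun v => h v + p (a v - h v)) v - L‖ ≤ r := by
  have hpd : Differentiable ℝ p := hp.sm.differentiable (by simp)
  have e1 : HasFDerivAt (fun v => a v - h v) (fderiv ℝ a v - fderiv ℝ h v) v :=
    (ha v).hasFDerivAt.sub (hh v).hasFDerivAt
  have e2 : HasFDerivAt (fun v => p (a v - h v))
      (deriv p (a v - h v) • (fderiv ℝ a v - fderiv ℝ h v)) v :=
    (hpd (a v - h v)).hasDerivAt.comp_hasFDerivAt v e1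
  have e3 : fderiv ℝ (fun v => h v + p (a v - h v)) v
      = fderiv ℝ h v + deriv p (a v - h v) • (fderiv ℝ a v - fderiv ℝ h v) :=
    ((hh v).hasFDerivAt.add e2).fderiv
  rw [e3]
  set c := deriv p (a v - h v) with hc
  have c0 : 0 ≤ c := hp.d0 _
  have c1 : c ≤ 1 := hp.d1 _
  have e4 : fderiv ℝ h v + c • (fderiv ℝ a v - fderiv ℝ h v) - L
      = (1 - c) • (fderiv ℝ h v - L) + c • (fderiv ℝ a v - L) := by module
  rw [e4]
  have e5 := norm_add_le ((1 - c) • (fderiv ℝ h v - L)) (c • (fderiv ℝ a v - L))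
  rw [norm_smul, norm_smul, Real.norm_eq_abs, Real.norm_eq_abs, abs_of_nonneg c0,
    abs_of_nonneg (by linarith : 0 ≤ 1 - c)] at e5
  have e6 := mul_le_mul_of_nonneg_left h1 (by linarith : 0 ≤ 1 - c)
  have e7 := mul_le_mul_of_nonneg_left h2 c0
  linarith

end

theorem main (hpsi : S_PSI) : S_SMAX := by
  intro V _ _ k hk G hGc hGd ι a haff had δ hδ N s
  classical
  have hk' : (1 : WithTop ℕ∞) ≤ ((k : ℕ∞) : WithTop ℕ∞) := by exact_mod_cast hk
  have hk0 : ((k : ℕ∞) : WithTop ℕ∞) ≠ 0 := by
    intro h0; rw [h0] at hk'; exact absurd hk' (by norm_num)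
  obtain ⟨p, hp⟩ := exists_reg hpsi hδ
  have hpk : ContDiff ℝ k p := hp.sm.of_le (by exact_mod_cast le_top)
  induction s using Finset.induction_on with
  | empty =>
    intro _
    refine ⟨G, hGc, hGd, fun v => le_rfl, fun v M h _ => by simpa using h,
      fun v j hj => absurd hj (Finset.notMem_empty j), fun v _ => rfl, fun v L r h _ => h⟩
  | insert q s hq ih =>
    intro hN
    rw [Finset.card_insert_of_notMem hq] at hN
    obtain ⟨H, h1, h2, h3, h4, h5, h6, h7⟩ := ih (by omega)
    have hcard : ((insert q s).card : ℝ) = (s.card : ℝ) + 1 := by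
      rw [Finset.card_insert_of_notMem hq]; push_cast; ring
    have hNr : (s.card : ℝ) + 1 ≤ N := by exact_mod_cast hN
    have hc0 : (0:ℝ) ≤ s.card := Nat.cast_nonneg _
    have hN0 : (0:ℝ) ≤ (N:ℝ) := Nat.cast_nonneg _
    refine ⟨fun v => H v + p (a q v - H v), smax_convex hp h1 (haff q),
      h2.add (hpk.comp ((had q).sub h2)), ?_, ?_, ?_, ?_, ?_⟩
    · intro v
      have := hp.nonneg (a q v - H v)
      have := h3 v
      show G v ≤ H v + p (a q v - H v)
      linarith
    · intro v M hG hM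
      have hM1 : H v ≤ M + s.card * δ := h4 v M hG fun i hi => hM i (Finset.mem_insert_of_mem hi)
      have hM2 : a q v ≤ M := hM q (Finset.mem_insert_self q s)
      rw [hcard]
      have hsd : 0 ≤ (s.card : ℝ) * δ := by positivity
      have : p (a q v - H v) ≤ (M + s.card * δ - H v) + δ := by
        apply hp.le
        · linarith
        · linarith
      show H v + p (a q v - H v) ≤ _
      nlinarith
    · intro v j hj hGj hgap
      show H v + p (a q v - H v) = a j v
      rw [Finset.mem_insert] at hj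
      rcases hj with rfl | hj
      · have hle : H v ≤ (a j v - (N + 2) * δ) + s.card * δ := by
          apply h4
          · linarith
          · intro i hi
            have hne : i ≠ j := by rintro rfl; exact hq hi
            have := hgap i (Finset.mem_insert_of_mem hi) hne
            linarith
        have hge : δ ≤ a j v - H v := by nlinarith
        rw [hp.high _ hge]; ring
      · have hhj : H v = a j v := h5 v j hj hGj fun i hi hne =>
          hgap i (Finset.mem_insert_of_mem hi) hne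
        have hkj : q ≠ j := by rintro rfl; exact hq hj
        have := hgap q (Finset.mem_insert_self q s) hkj
        have hlow : a q v - H v ≤ -δ := by
          rw [hhj]; nlinarith
        rw [hp.low _ hlow, hhj, add_zero]
    · intro v hv
      show H v + p (a q v - H v) = G v
      have e1 := h6 v fun i hi => hv i (Finset.mem_insert_of_mem hi)
      have e2 := hv q (Finset.mem_insert_self q s)
      rw [hp.low _ (by rw [e1]; linarith), e1, add_zero]
    · intro v L r hG hr
      exact step_fderiv hp (h2.differentiable hk0) ((had q).differentiable hk0) v L r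
        (h7 v L r hG fun i hi => hr i (Finset.mem_insert_of_mem hi)) (hr q (Finset.mem_insert_self q s))

end Pool.Agent.Y307.PCD.SMAX
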