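import Pool.Agent.Y307.PCD.Asm2
import Pool.Agent.Y307.PCD.PSI
import Pool.Agent.Y307.PCD.SMAX
import Pool.Agent.Y307.PCD.BUILD

/-!
Project PCD (helper307), MP_f3a7de_an: the local insertion theorem without hypotheses, strictly and
strongly polyconvex functions.
-/

set_option autoImplicit false
open Set Filter Topology

namespace Pool.Agent.Y307.PCD

/-- the local insertion statement -/
theorem build : S_BUILD := BUILD.main (SMAX.main PSI.main)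

open Classical in
/-- `f = g ∘ Φ` for a strongly (uniformly) convex function `g` of class `C^k`: for some `c > 0`
the function `g(v) - c |v|²` is convex. -/
def StronglyPolyconvex {n : ℕ} (k : ℕ∞) (f : (Fin n → Fin 2 → ℝ) → ℝ) : Prop :=
  ∃ g : (MinorIdx n → ℝ) → ℝ, (∃ c : ℝ, 0 < c ∧ ConvexOn ℝ univ (fun v => g v - c * ∑ p, v p ^ 2)) ∧
    ContDiff ℝ k g ∧ ∀ X, f X = g (minors X)

section
variable {ι : Type*} [Fintype ι]

lemma sumsq_id (u w : ι → ℝ) (s t : ℝ) (hst : s + t = 1) :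
    s * ∑ k, u k ^ 2 + t * ∑ k, w k ^ 2 - ∑ k, (s * u k + t * w k) ^ 2
      = s * t * ∑ k, (u k - w k) ^ 2 := by
  simp only [Finset.mul_sum]
  rw [← Finset.sum_add_distrib, ← Finset.sum_sub_distrib]
  apply Finset.sum_congr rfl; intro k _
  have : t = 1 - s := by linarith
  rw [this]; ring

lemma strict_of_strong {g : (ι → ℝ) → ℝ} {c : ℝ} (hc : 0 < c)
    (h : ConvexOn ℝ univ (fun v => g v - c * ∑ p, v p ^ 2)) : StrictConvexOn ℝ univ g := by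
  refine ⟨convex_univ, fun u _ w _ huw s t hs ht hst => ?_⟩
  have h1 := h.2 (mem_univ u) (mem_univ w) hs.le ht.le hst
  have h2 := sumsq_id u w s t hst
  have hpos : 0 < ∑ k, (u k - w k) ^ 2 := by
    obtain ⟨k, hk⟩ := Function.ne_iff.mp huw
    apply Finset.sum_pos' (fun k _ => sq_nonneg _)
    exact ⟨k, Finset.mem_univ k, by have := sub_ne_zero.mpr hk; positivity⟩
  have h3 : 0 < c * (s * t * ∑ k, (u k - w k) ^ 2) := by positivity
  rw [← h2] at h3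
  simp only [smul_eq_mul, Pi.add_apply, Pi.smul_apply] at h1 ⊢
  nlinarith

lemma strong_trans {g g₀ : (ι → ℝ) → ℝ} {c e : ℝ} (he : 0 < e)
    (h : ConvexOn ℝ univ (fun v => g v - e * g₀ v))
    (h₀ : ConvexOn ℝ univ (fun v => g₀ v - c * ∑ p, v p ^ 2)) :
    ConvexOn ℝ univ (fun v => g v - e * c * ∑ p, v p ^ 2) := by
  have h1 := h.add (h₀.smul he.le)
  have e1 : ((fun v => g v - e * g₀ v) + fun v => e • (g₀ v - c * ∑ p, v p ^ 2))
      = fun v : ι → ℝ => g v - e * c * ∑ p, v p ^ 2 := by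
    funext v
    simp only [Pi.add_apply, smul_eq_mul]; ring
  rw [e1] at h1
  exact h1

end

variable {m : ℕ}

lemma ball_nhds (P₀ : BigMat (10 + m)) {ε : ℝ} (hε : 0 < ε) :
    {P : BigMat (10 + m) | ∑ i, ∑ j, P i j ^ 2 ≤ (Real.sqrt (∑ i, ∑ j, P₀ i j ^ 2) + ε) ^ 2}
      ∈ 𝓝 P₀ := by
  have hS0 : 0 ≤ ∑ i, ∑ j, P₀ i j ^ 2 := by positivity
  have hlt : ∑ i, ∑ j, P₀ i j ^ 2 < (Real.sqrt (∑ i, ∑ j, P₀ i j ^ 2) + ε) ^ 2 := by
    have h1 := Real.sq_sqrt hS0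
    have h2 := Real.sqrt_nonneg (∑ i, ∑ j, P₀ i j ^ 2)
    nlinarith
  have hc : Continuous fun P : BigMat (10 + m) => ∑ i, ∑ j, P i j ^ 2 := by
    refine continuous_finsetSum _ fun i _ => continuous_finsetSum _ fun j _ => Continuous.pow ?_ 2
    exact Continuous.matrix_elem continuous_id i j
  filter_upwards [(hc.continuousAt (x := P₀)).eventually_lt_const hlt] with P hP
  exact hP.le

open Classical in
theorem single {n : ℕ} (hn : 10 ≤ n) (k : ℕ∞) (hk : 1 ≤ k) (f₀ : (Fin n → Fin 2 → ℝ) → ℝ)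
    (hf₀ : StrictlyPolyconvex k f₀) (X₀ : Fin n → Fin 2 → ℝ) (ε : ℝ) (hε : 0 < ε) :
    ∃ f : (Fin n → Fin 2 → ℝ) → ℝ, StrictlyPolyconvex k f ∧
      (StronglyPolyconvex k f₀ → StronglyPolyconvex k f) ∧
      (∀ X, ε ≤ dist X X₀ → f X = f₀ X) ∧ (∀ X, |f X - f₀ X| ≤ ε) ∧
      (∀ X i j, |grad f X i j - grad f₀ X i j| ≤ ε) ∧
      ∀ R : ℝ, Real.sqrt (∑ i, ∑ j, (stacked f₀ X₀ i j) ^ 2) + ε ≤ R →
        ∃ A, A ∈ rcHull (inclusionSet f ∩ closedBallHS n R) ∧ A ∉ inclusionSet f := by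
  obtain ⟨m, rfl⟩ := Nat.exists_eq_add_of_le hn
  -- choose the representative
  obtain ⟨g₀, hg₀c, hg₀d, hg₀, hstrong⟩ : ∃ g₀ : (MinorIdx (10 + m) → ℝ) → ℝ,
      StrictConvexOn ℝ univ g₀ ∧ ContDiff ℝ k g₀ ∧ (∀ X, f₀ X = g₀ (minors X)) ∧
      (StronglyPolyconvex k f₀ → ∃ c : ℝ, 0 < c ∧
        ConvexOn ℝ univ (fun v => g₀ v - c * ∑ p, v p ^ 2)) := by
    by_cases hs : StronglyPolyconvex k f₀
    · obtain ⟨g, ⟨c, hc, h1⟩, h2, h3⟩ := hs
      exact ⟨g, strict_of_strong hc h1, h2, h3, fun _ => ⟨c, hc, h1⟩⟩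
    · obtain ⟨g, h1, h2, h3⟩ := hf₀
      exact ⟨g, h1, h2, h3, fun h => absurd h hs⟩
  have hf₀e : f₀ = fun X => g₀ (minors X) := funext hg₀
  subst hf₀e
  obtain ⟨g, W, A, h1, ⟨e, he, hconv⟩, h2, h3, h4, -, h5, h6, h7, h8⟩ := core_g build k hk g₀ hg₀c
    hg₀d X₀ ε hε _ (ball_nhds (stacked (fun X => g₀ (minors X)) X₀) hε)
  refine ⟨fun X => g (minors X), ⟨g, h1, h2, fun X => rfl⟩, ?_, ?_, fun X => h4 _, h5, ?_⟩
  · intro hs
    obtain ⟨c, hc, hcc⟩ := hstrong hs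
    exact ⟨g, ⟨e * c, mul_pos he hc, strong_trans he hconv hcc⟩, h2, fun X => rfl⟩
  · intro X hX
    exact h3 _ (hX.trans (dist_le_minors X X₀))
  · intro R hR
    refine ⟨A, h7 _ fun i => ⟨⟨W i, rfl⟩, ?_⟩, h8 _⟩
    have h9 : ∑ a, ∑ b, (stacked (fun X => g (minors X)) (W i) a b) ^ 2
      ≤ (Real.sqrt (∑ a, ∑ b, (stacked (fun X => g₀ (minors X)) X₀ a b) ^ 2) + ε) ^ 2 := h6 i
    show ∑ a, ∑ b, (stacked (fun X => g (minors X)) (W i) a b) ^ 2 ≤ R ^ 2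
    have h10 := Real.sqrt_nonneg (∑ a, ∑ b, (stacked (fun X => g₀ (minors X)) X₀ a b) ^ 2)
    exact h9.trans (pow_le_pow_left₀ (by linarith) hR 2)

end Pool.Agent.Y307.PCD
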