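import Pool.Agent.H507R3.PCHull
import Pool.Agent.Y307.PCD.Defs

/-!
Project PCD (helper307), MP_f3a7de_an: the affine map carrying the model laminate into the
inclusion set of the new function.
-/

set_option autoImplicit false
open Set Filter Topology
open Pool.Agent.H507R3.PC (T3 Lam LamConv XR YR PR pt3 Yaff Zaff Zlin hull_point YR_eq ZR_eq
  not_scalar pos_real fZ pZ)

namespace Pool.Agent.Y307.PCD

/-- extension by zero -/
noncomputable def emb {m : ℕ} (Y : Fin 10 → Fin 2 → ℝ) : Fin (10 + m) → Fin 2 → ℝ :=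
  Fin.append Y (fun _ => 0)

/-- extension by zero in both arguments -/
noncomputable def emb2 {m : ℕ} (p : Fin 10 → Fin 10 → ℝ) : Fin (10 + m) → Fin (10 + m) → ℝ :=
  Fin.append (fun r => Fin.append (p r) (fun _ => 0)) (fun _ _ => 0)

/-- multiplication by `J` from the right -/
noncomputable def rot {ι : Type*} (M : ι → Fin 2 → ℝ) (i : ι) (j : Fin 2) : ℝ :=
  if j = 0 then - M i 1 else M i 0

section
variable {m : ℕ}

@[simp] lemma emb_left (Y : Fin 10 → Fin 2 → ℝ) (i : Fin 10) :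
    (emb Y : Fin (10 + m) → Fin 2 → ℝ) (Fin.castAdd m i) = Y i := Fin.append_left _ _ _

@[simp] lemma emb_right (Y : Fin 10 → Fin 2 → ℝ) (i : Fin m) :
    (emb Y : Fin (10 + m) → Fin 2 → ℝ) (Fin.natAdd 10 i) = 0 := Fin.append_right _ _ _

@[simp] lemma emb2_ll (p : Fin 10 → Fin 10 → ℝ) (i j : Fin 10) :
    (emb2 p : Fin (10 + m) → Fin (10 + m) → ℝ) (Fin.castAdd m i) (Fin.castAdd m j) = p i j := by
  unfold emb2; rw [Fin.append_left, Fin.append_left]

@[simp] lemma emb2_lr (p : Fin 10 → Fin 10 → ℝ) (i : Fin 10) (j : Fin m) :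
    (emb2 p : Fin (10 + m) → Fin (10 + m) → ℝ) (Fin.castAdd m i) (Fin.natAdd 10 j) = 0 := by
  unfold emb2; rw [Fin.append_left, Fin.append_right]

@[simp] lemma emb2_r (p : Fin 10 → Fin 10 → ℝ) (i : Fin m) (j : Fin (10 + m)) :
    (emb2 p : Fin (10 + m) → Fin (10 + m) → ℝ) (Fin.natAdd 10 i) j = 0 := by
  unfold emb2; rw [Fin.append_right]

lemma sum_emb (Y W : Fin 10 → Fin 2 → ℝ) (a b : Fin 2) :
    ∑ k : Fin (10 + m), (emb Y : Fin (10 + m) → Fin 2 → ℝ) k a * (emb W : Fin (10 + m) → Fin 2 → ℝ) k b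
      = ∑ k : Fin 10, Y k a * W k b := by
  rw [Fin.sum_univ_add]
  simp

lemma emb_line (Y W : Fin 10 → Fin 2 → ℝ) (t : ℝ) (i : Fin (10 + m)) (j : Fin 2) :
    (emb (Y + t • W) : Fin (10 + m) → Fin 2 → ℝ) i j = emb Y i j + t * emb W i j := by
  refine Fin.addCases (fun i => ?_) (fun i => ?_) i <;> simp

lemma rot_emb_line (Y W : Fin 10 → Fin 2 → ℝ) (t : ℝ) (i : Fin (10 + m)) (j : Fin 2) :
    rot (emb (Y + t • W) : Fin (10 + m) → Fin 2 → ℝ) i j = rot (emb Y) i j + t * rot (emb W) i j := by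
  unfold rot
  split_ifs
  · rw [emb_line]; ring
  · rw [emb_line]

lemma rot_emb_left (Y : Fin 10 → Fin 2 → ℝ) (i : Fin 10) (j : Fin 2) :
    rot (emb Y : Fin (10 + m) → Fin 2 → ℝ) (Fin.castAdd m i) j = rot Y i j := by
  unfold rot; simp

lemma rot_emb_right (Y : Fin 10 → Fin 2 → ℝ) (i : Fin m) (j : Fin 2) :
    rot (emb Y : Fin (10 + m) → Fin 2 → ℝ) (Fin.natAdd 10 i) j = 0 := by
  unfold rot; simp

lemma sum_split (X₀ : Fin (10 + m) → Fin 2 → ℝ) (W Y : Fin 10 → Fin 2 → ℝ) (η : ℝ) (a j : Fin 2) :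
    ∑ k : Fin (10 + m), (X₀ k a + η * (emb W : Fin (10 + m) → Fin 2 → ℝ) k a)
        * rot (emb Y : Fin (10 + m) → Fin 2 → ℝ) k j
      = ∑ k : Fin (10 + m), X₀ k a * rot (emb Y : Fin (10 + m) → Fin 2 → ℝ) k j
        + η * ∑ k : Fin 10, W k a * rot Y k j := by
  have h : ∑ k : Fin 10, W k a * rot Y k j
      = ∑ k : Fin (10 + m), (emb W : Fin (10 + m) → Fin 2 → ℝ) k a
        * rot (emb Y : Fin (10 + m) → Fin 2 → ℝ) k j := by
    rw [Fin.sum_univ_add]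
    simp [rot_emb_left]
  rw [h, Finset.mul_sum, ← Finset.sum_add_distrib]
  exact Finset.sum_congr rfl fun k _ => by ring

lemma mul_J {ι : Type*} (M : Matrix ι (Fin 2) ℝ) (i : ι) (j : Fin 2) :
    (M * J) i j = rot M i j := by
  fin_cases j <;> simp [Matrix.mul_apply, Fin.sum_univ_two, J, rot]

lemma stacked_X {n : ℕ} (f : (Fin n → Fin 2 → ℝ) → ℝ) (X : Fin n → Fin 2 → ℝ) (i : Fin n)
    (j : Fin 2) : stacked f X (Sum.inl i) j = X i j := rfl

lemma stacked_Y {n : ℕ} (f : (Fin n → Fin 2 → ℝ) → ℝ) (X : Fin n → Fin 2 → ℝ) (i : Fin n)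
    (j : Fin 2) : stacked f X (Sum.inr (Sum.inl i)) j = rot (grad f X) i j := by
  show (grad f X * J) i j = _
  exact mul_J _ _ _

lemma stacked_Z {n : ℕ} (f : (Fin n → Fin 2 → ℝ) → ℝ) (X : Fin n → Fin 2 → ℝ) (a j : Fin 2) :
    stacked f X (Sum.inr (Sum.inr a)) j = ∑ k, X k a * rot (grad f X) k j - f X * J a j := by
  show ((Matrix.of X).transpose * (grad f X * J) - f X • J) a j = _
  rw [Matrix.sub_apply, Matrix.mul_apply, Matrix.smul_apply, smul_eq_mul]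
  simp only [mul_J]
  rfl

/-- the affine map -/
noncomputable def Amap (X₀ B : Fin (10 + m) → Fin 2 → ℝ) (Q : Fin (10 + m) → Fin (10 + m) → ℝ)
    (c η lam : ℝ) (P : T3) : BigMat (10 + m) := fun i j =>
  match i with
  | Sum.inl i => X₀ i j + η * (emb P.1 : Fin (10 + m) → Fin 2 → ℝ) i j
  | Sum.inr (Sum.inl i) => rot B i j
      + ∑ l, Q i l * (X₀ l j + η * (emb P.1 : Fin (10 + m) → Fin 2 → ℝ) l j)
      + lam / η * rot (emb P.2.1 : Fin (10 + m) → Fin 2 → ℝ) i j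
  | Sum.inr (Sum.inr a) =>
      ∑ k, (X₀ k a + η * (emb P.1 : Fin (10 + m) → Fin 2 → ℝ) k a) * rot B k j
      - (c + ∑ r, ∑ s, B r s * (X₀ r s + η * (emb P.1 : Fin (10 + m) → Fin 2 → ℝ) r s)) * J a j
      + lam / η * ∑ k, X₀ k a * rot (emb P.2.1 : Fin (10 + m) → Fin 2 → ℝ) k j
      + lam * rot P.2.2 a j

/-- its linear part -/
noncomputable def Alin (X₀ B : Fin (10 + m) → Fin 2 → ℝ) (Q : Fin (10 + m) → Fin (10 + m) → ℝ)
    (η lam : ℝ) (P : T3) : BigMat (10 + m) := fun i j =>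
  match i with
  | Sum.inl i => η * (emb P.1 : Fin (10 + m) → Fin 2 → ℝ) i j
  | Sum.inr (Sum.inl i) => ∑ l, Q i l * (η * (emb P.1 : Fin (10 + m) → Fin 2 → ℝ) l j)
      + lam / η * rot (emb P.2.1 : Fin (10 + m) → Fin 2 → ℝ) i j
  | Sum.inr (Sum.inr a) =>
      ∑ k, (η * (emb P.1 : Fin (10 + m) → Fin 2 → ℝ) k a) * rot B k j
      - (∑ r, ∑ s, B r s * (η * (emb P.1 : Fin (10 + m) → Fin 2 → ℝ) r s)) * J a j
      + lam / η * ∑ k, X₀ k a * rot (emb P.2.1 : Fin (10 + m) → Fin 2 → ℝ) k j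
      + lam * rot P.2.2 a j

lemma rot_line (Y W : Fin 2 → Fin 2 → ℝ) (t : ℝ) (i : Fin 2) (j : Fin 2) :
    rot (Y + t • W) i j = rot Y i j + t * rot W i j := by
  unfold rot
  split_ifs
  · simp; ring
  · simp

lemma Amap_line (X₀ B : Fin (10 + m) → Fin 2 → ℝ) (Q : Fin (10 + m) → Fin (10 + m) → ℝ)
    (c η lam : ℝ) (P D : T3) (t : ℝ) :
    Amap X₀ B Q c η lam (P + t • D) = Amap X₀ B Q c η lam P + t • Alin X₀ B Q η lam D := by
  ext i j
  rcases i with i | i | a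
  · show X₀ i j + η * (emb (P.1 + t • D.1) : Fin (10 + m) → Fin 2 → ℝ) i j
      = (X₀ i j + η * (emb P.1 : Fin (10 + m) → Fin 2 → ℝ) i j)
        + t * (η * (emb D.1 : Fin (10 + m) → Fin 2 → ℝ) i j)
    rw [emb_line]; ring
  · show rot B i j
      + ∑ l, Q i l * (X₀ l j + η * (emb (P.1 + t • D.1) : Fin (10 + m) → Fin 2 → ℝ) l j)
      + lam / η * rot (emb (P.2.1 + t • D.2.1) : Fin (10 + m) → Fin 2 → ℝ) i j
      = (rot B i j
      + ∑ l, Q i l * (X₀ l j + η * (emb P.1 : Fin (10 + m) → Fin 2 → ℝ) l j)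
      + lam / η * rot (emb P.2.1 : Fin (10 + m) → Fin 2 → ℝ) i j)
      + t * (∑ l, Q i l * (η * (emb D.1 : Fin (10 + m) → Fin 2 → ℝ) l j)
      + lam / η * rot (emb D.2.1 : Fin (10 + m) → Fin 2 → ℝ) i j)
    have h1 : ∑ l, Q i l * (X₀ l j + η * (emb (P.1 + t • D.1) : Fin (10 + m) → Fin 2 → ℝ) l j)
        = ∑ l, Q i l * (X₀ l j + η * (emb P.1 : Fin (10 + m) → Fin 2 → ℝ) l j)
          + t * ∑ l, Q i l * (η * (emb D.1 : Fin (10 + m) → Fin 2 → ℝ) l j) := by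
      rw [Finset.mul_sum, ← Finset.sum_add_distrib]
      exact Finset.sum_congr rfl fun l _ => by rw [emb_line]; ring
    rw [h1, rot_emb_line]
    ring
  · show ∑ k, (X₀ k a + η * (emb (P.1 + t • D.1) : Fin (10 + m) → Fin 2 → ℝ) k a) * rot B k j
      - (c + ∑ r, ∑ s, B r s * (X₀ r s + η * (emb (P.1 + t • D.1) : Fin (10 + m) → Fin 2 → ℝ) r s)) * J a j
      + lam / η * ∑ k, X₀ k a * rot (emb (P.2.1 + t • D.2.1) : Fin (10 + m) → Fin 2 → ℝ) k j
      + lam * rot (P.2.2 + t • D.2.2) a j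
      = (∑ k, (X₀ k a + η * (emb P.1 : Fin (10 + m) → Fin 2 → ℝ) k a) * rot B k j
      - (c + ∑ r, ∑ s, B r s * (X₀ r s + η * (emb P.1 : Fin (10 + m) → Fin 2 → ℝ) r s)) * J a j
      + lam / η * ∑ k, X₀ k a * rot (emb P.2.1 : Fin (10 + m) → Fin 2 → ℝ) k j
      + lam * rot P.2.2 a j)
      + t * (∑ k, (η * (emb D.1 : Fin (10 + m) → Fin 2 → ℝ) k a) * rot B k j
      - (∑ r, ∑ s, B r s * (η * (emb D.1 : Fin (10 + m) → Fin 2 → ℝ) r s)) * J a j
      + lam / η * ∑ k, X₀ k a * rot (emb D.2.1 : Fin (10 + m) → Fin 2 → ℝ) k j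
      + lam * rot D.2.2 a j)
    have h1 : ∑ k, (X₀ k a + η * (emb (P.1 + t • D.1) : Fin (10 + m) → Fin 2 → ℝ) k a) * rot B k j
        = ∑ k, (X₀ k a + η * (emb P.1 : Fin (10 + m) → Fin 2 → ℝ) k a) * rot B k j
          + t * ∑ k, (η * (emb D.1 : Fin (10 + m) → Fin 2 → ℝ) k a) * rot B k j := by
      rw [Finset.mul_sum, ← Finset.sum_add_distrib]
      exact Finset.sum_congr rfl fun l _ => by rw [emb_line]; ring
    have h2 : ∑ r, ∑ s, B r s * (X₀ r s + η * (emb (P.1 + t • D.1) : Fin (10 + m) → Fin 2 → ℝ) r s)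
        = ∑ r, ∑ s, B r s * (X₀ r s + η * (emb P.1 : Fin (10 + m) → Fin 2 → ℝ) r s)
          + t * ∑ r, ∑ s, B r s * (η * (emb D.1 : Fin (10 + m) → Fin 2 → ℝ) r s) := by
      rw [Finset.mul_sum, ← Finset.sum_add_distrib]
      refine Finset.sum_congr rfl fun l _ => ?_
      rw [Finset.mul_sum, ← Finset.sum_add_distrib]
      exact Finset.sum_congr rfl fun l' _ => by rw [emb_line]; ring
    have h3 : ∑ k, X₀ k a * rot (emb (P.2.1 + t • D.2.1) : Fin (10 + m) → Fin 2 → ℝ) k j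
        = ∑ k, X₀ k a * rot (emb P.2.1 : Fin (10 + m) → Fin 2 → ℝ) k j
          + t * ∑ k, X₀ k a * rot (emb D.2.1 : Fin (10 + m) → Fin 2 → ℝ) k j := by
      rw [Finset.mul_sum, ← Finset.sum_add_distrib]
      exact Finset.sum_congr rfl fun l _ => by rw [rot_emb_line]; ring
    rw [h1, h2, h3, rot_line]
    ring

/-- a matrix with rows `w i • ξ` has rank at most one -/
lemma rank_zero_or_one {n : ℕ} (B : BigMat n) (w : Fin n ⊕ (Fin n ⊕ Fin 2) → ℝ) (ξ : Fin 2 → ℝ)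
    (h : ∀ i j, B i j = w i * ξ j) : B = 0 ∨ B.rank = 1 := by
  by_cases h0 : B = 0
  · exact Or.inl h0
  · right
    have hB : B = Matrix.vecMulVec w ξ := by
      ext i j; rw [h]; rfl
    apply le_antisymm
    · rw [hB]; exact Matrix.rank_vecMulVec_le w ξ
    · rw [Nat.one_le_iff_ne_zero]
      intro hr
      apply h0
      rw [Matrix.rank, Module.finrank_eq_zero_iff_of_free] at hr
      ext i j
      have h1 : B.mulVec (Pi.single j 1) = 0 := by
        have h2 : B.mulVecLin (Pi.single j 1) ∈ LinearMap.range B.mulVecLin :=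
          LinearMap.mem_range_self _ _
        have h3 := hr.elim ⟨_, h2⟩ 0
        exact congrArg Subtype.val h3
      have h4 := congrFun h1 i
      simpa using h4

lemma convex_along {n : ℕ} {F : BigMat n → ℝ} (hF : RankOneConvex F) (A B : BigMat n)
    (hB : B = 0 ∨ B.rank = 1) : ConvexOn ℝ univ (fun t : ℝ => F (A + t • B)) := by
  rcases hB with h | h
  · subst h
    simp only [smul_zero, add_zero]
    exact convexOn_const _ convex_univ
  · exact hF A B h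

lemma rot_perp {ι : Type*} (M : ι → Fin 2 → ℝ) (ξ : Fin 2 → ℝ) (hξ : ξ 0 ^ 2 + ξ 1 ^ 2 = 1)
    (h : ∀ i, M i 0 * ξ 0 + M i 1 * ξ 1 = 0) (i : ι) (j : Fin 2) :
    rot M i j = (M i 0 * ξ 1 - M i 1 * ξ 0) * ξ j := by
  have h1 := h i
  fin_cases j
  · show - M i 1 = (M i 0 * ξ 1 - M i 1 * ξ 0) * ξ 0
    linear_combination (M i 1) * hξ - (ξ 1) * h1
  · show M i 0 = (M i 0 * ξ 1 - M i 1 * ξ 0) * ξ 1
    linear_combination (-M i 0) * hξ + (ξ 0) * h1

lemma Alin_rank (X₀ B : Fin (10 + m) → Fin 2 → ℝ) (Q : Fin (10 + m) → Fin (10 + m) → ℝ)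
    (η lam : ℝ) (P : T3) (hP : Lam P) :
    Alin X₀ B Q η lam P = 0 ∨ (Alin X₀ B Q η lam P).rank = 1 := by
  obtain ⟨ξ, hξ, hY, hZ, u, hu⟩ := hP
  rw [Fin.sum_univ_two] at hξ
  have hx : ∀ (i : Fin (10 + m)) (j : Fin 2), (emb P.1 : Fin (10 + m) → Fin 2 → ℝ) i j
      = (Fin.append u (fun _ => (0:ℝ)) : Fin (10 + m) → ℝ) i * ξ j := by
    intro i j
    refine Fin.addCases (fun i => ?_) (fun i => ?_) i
    · rw [emb_left, Fin.append_left, hu]
    · rw [emb_right, Fin.append_right]; simp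
  set x : Fin (10 + m) → ℝ := Fin.append u (fun _ => (0:ℝ)) with hxdef
  have hyv : ∀ (i : Fin (10 + m)) (j : Fin 2), rot (emb P.2.1 : Fin (10 + m) → Fin 2 → ℝ) i j
      = ((emb P.2.1 : Fin (10 + m) → Fin 2 → ℝ) i 0 * ξ 1
        - (emb P.2.1 : Fin (10 + m) → Fin 2 → ℝ) i 1 * ξ 0) * ξ j := by
    apply rot_perp _ _ hξ
    intro i
    refine Fin.addCases (fun i => ?_) (fun i => ?_) i
    · have := hY i
      rw [Fin.sum_univ_two] at this
      simpa using this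
    · simp
  set y : Fin (10 + m) → ℝ := fun i => (emb P.2.1 : Fin (10 + m) → Fin 2 → ℝ) i 0 * ξ 1
        - (emb P.2.1 : Fin (10 + m) → Fin 2 → ℝ) i 1 * ξ 0 with hydef
  have hzv : ∀ (a j : Fin 2), rot P.2.2 a j = (P.2.2 a 0 * ξ 1 - P.2.2 a 1 * ξ 0) * ξ j := by
    apply rot_perp _ _ hξ
    intro a
    have := hZ a
    rwa [Fin.sum_univ_two] at this
  set z : Fin 2 → ℝ := fun a => P.2.2 a 0 * ξ 1 - P.2.2 a 1 * ξ 0 with hzdef
  set b0 : ℝ := ∑ k, x k * B k 0 with hb0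
  set b1 : ℝ := ∑ k, x k * B k 1 with hb1
  refine rank_zero_or_one _ (Sum.elim (fun i => η * x i) (Sum.elim
    (fun i => η * ∑ l, Q i l * x l + lam / η * y i)
    (fun a => (if a = 0 then -(η * b1) else η * b0) + lam / η * ∑ k, X₀ k a * y k + lam * z a))) ξ ?_
  rintro (i | i | a) j
  · show η * (emb P.1 : Fin (10 + m) → Fin 2 → ℝ) i j = η * x i * ξ j
    rw [hx]; ring
  · show ∑ l, Q i l * (η * (emb P.1 : Fin (10 + m) → Fin 2 → ℝ) l j)
      + lam / η * rot (emb P.2.1 : Fin (10 + m) → Fin 2 → ℝ) i j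
      = (η * ∑ l, Q i l * x l + lam / η * y i) * ξ j
    have h1 : ∑ l, Q i l * (η * (emb P.1 : Fin (10 + m) → Fin 2 → ℝ) l j)
        = η * (∑ l, Q i l * x l) * ξ j := by
      rw [Finset.mul_sum, Finset.sum_mul]
      exact Finset.sum_congr rfl fun l _ => by rw [hx]; ring
    rw [h1, hyv]
    ring
  · show ∑ k, (η * (emb P.1 : Fin (10 + m) → Fin 2 → ℝ) k a) * rot B k j
      - (∑ r, ∑ s, B r s * (η * (emb P.1 : Fin (10 + m) → Fin 2 → ℝ) r s)) * J a j
      + lam / η * ∑ k, X₀ k a * rot (emb P.2.1 : Fin (10 + m) → Fin 2 → ℝ) k j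
      + lam * rot P.2.2 a j
      = ((if a = 0 then -(η * b1) else η * b0) + lam / η * ∑ k, X₀ k a * y k + lam * z a) * ξ j
    have h1 : ∑ k, (η * (emb P.1 : Fin (10 + m) → Fin 2 → ℝ) k a) * rot B k j
        = η * ξ a * (if j = 0 then -b1 else b0) := by
      split_ifs with hj
      · rw [hb1, ← Finset.sum_neg_distrib, Finset.mul_sum]
        refine Finset.sum_congr rfl fun l _ => ?_
        rw [hx]; unfold rot; rw [if_pos hj]; ring
      · rw [hb0, Finset.mul_sum]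
        refine Finset.sum_congr rfl fun l _ => ?_
        rw [hx]; unfold rot; rw [if_neg hj]; ring
    have h2 : ∑ r, ∑ s, B r s * (η * (emb P.1 : Fin (10 + m) → Fin 2 → ℝ) r s)
        = η * (b0 * ξ 0 + b1 * ξ 1) := by
      rw [hb0, hb1, Finset.sum_mul, Finset.sum_mul, ← Finset.sum_add_distrib, Finset.mul_sum]
      refine Finset.sum_congr rfl fun l _ => ?_
      rw [Fin.sum_univ_two, hx, hx]; ring
    have h3 : ∑ k, X₀ k a * rot (emb P.2.1 : Fin (10 + m) → Fin 2 → ℝ) k j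
        = (∑ k, X₀ k a * y k) * ξ j := by
      rw [Finset.sum_mul]
      exact Finset.sum_congr rfl fun l _ => by rw [hyv]; ring
    rw [h1, h2, h3, hzv]
    have key : η * ξ a * (if j = 0 then -b1 else b0) - η * (b0 * ξ 0 + b1 * ξ 1) * J a j
        = (if a = 0 then -(η * b1) else η * b0) * ξ j := by
      fin_cases a <;> fin_cases j <;> simp [J] <;> ring
    linear_combination key

end

end Pool.Agent.Y307.PCD
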