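import Pool.Agent.Y307.PCD.Geo

/-!
Project PCD (helper307), MP_f3a7de_an: the vertices of the model laminate are mapped into the
inclusion set, one hull point is not.
-/

set_option autoImplicit false
open Set Filter Topology
open Pool.Agent.H507R3.PC (T3 Lam LamConv XR YR PR pt3 Yaff Zaff Zlin hull_point YR_eq ZR_eq
  not_scalar pos_real fZ pZ)

namespace Pool.Agent.Y307.PCD

variable {m : ℕ}

lemma antisymm_sum {n : ℕ} (Q : Fin n → Fin n → ℝ) (hQ : ∀ r s, Q s r = - Q r s) (x : Fin n → ℝ) :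
    ∑ r, x r * ∑ s, Q r s * x s = 0 := by
  have h1 : ∑ r, x r * ∑ s, Q r s * x s = ∑ r, ∑ s, x r * (Q r s * x s) :=
    Finset.sum_congr rfl fun r _ => Finset.mul_sum _ _ _
  have h2 : ∑ r, ∑ s, x r * (Q r s * x s) = ∑ s, ∑ r, x r * (Q r s * x s) := Finset.sum_comm
  have h3 : ∑ s, ∑ r, x r * (Q r s * x s) = - ∑ s, ∑ r, x s * (Q s r * x r) := by
    rw [← Finset.sum_neg_distrib]
    refine Finset.sum_congr rfl fun s _ => ?_
    rw [← Finset.sum_neg_distrib]
    refine Finset.sum_congr rfl fun r _ => ?_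
    rw [hQ r s]; ring
  rw [h1]
  have h4 := h2.trans h3
  linarith

lemma antisymm_swap {n : ℕ} (Q : Fin n → Fin n → ℝ) (hQ : ∀ r s, Q s r = - Q r s) (x y : Fin n → ℝ) :
    ∑ r, y r * ∑ s, Q r s * x s = - ∑ r, x r * ∑ s, Q r s * y s := by
  have h1 : ∑ r, y r * ∑ s, Q r s * x s = ∑ r, ∑ s, y r * (Q r s * x s) :=
    Finset.sum_congr rfl fun r _ => Finset.mul_sum _ _ _
  have h2 : ∑ r, ∑ s, y r * (Q r s * x s) = ∑ s, ∑ r, y r * (Q r s * x s) := Finset.sum_comm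
  have h3 : ∑ r, x r * ∑ s, Q r s * y s = ∑ r, ∑ s, x r * (Q r s * y s) :=
    Finset.sum_congr rfl fun r _ => Finset.mul_sum _ _ _
  rw [h1, h2, h3, ← Finset.sum_neg_distrib]
  refine Finset.sum_congr rfl fun s _ => ?_
  rw [← Finset.sum_neg_distrib]
  refine Finset.sum_congr rfl fun r _ => ?_
  rw [hQ s r]; ring

/-- the stacked matrix at a point with prescribed gradient and value is in the image -/
lemma Amap_vertex (X₀ B : Fin (10 + m) → Fin 2 → ℝ) (Q : Fin (10 + m) → Fin (10 + m) → ℝ)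
    (hQ : ∀ r s, Q s r = - Q r s) (c η lam : ℝ) (hη : η ≠ 0) (i : Fin 24)
    (f : (Fin (10 + m) → Fin 2 → ℝ) → ℝ) (X : Fin (10 + m) → Fin 2 → ℝ)
    (hX : X = fun k j => X₀ k j + η * (emb (XR i) : Fin (10 + m) → Fin 2 → ℝ) k j)
    (hf : f X = c + ∑ r, ∑ s, B r s * X r s + ∑ r, ∑ s, Q r s * (X r 0 * X s 1) + lam * (fZ i : ℝ))
    (hg0 : ∀ k, grad f X k 0 = B k 0 + ∑ s, Q k s * X s 1
      + lam / η * (emb (YR i) : Fin (10 + m) → Fin 2 → ℝ) k 0)
    (hg1 : ∀ k, grad f X k 1 = B k 1 - ∑ s, Q k s * X s 0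
      + lam / η * (emb (YR i) : Fin (10 + m) → Fin 2 → ℝ) k 1) :
    stacked f X = Amap X₀ B Q c η lam (pt3 (XR i)) := by
  have hXe : ∀ k j, X k j = X₀ k j + η * (emb (XR i) : Fin (10 + m) → Fin 2 → ℝ) k j := by
    intro k j; rw [hX]
  have hrot : ∀ k j, rot (grad f X) k j = rot B k j + ∑ l, Q k l * X l j
      + lam / η * rot (emb (YR i) : Fin (10 + m) → Fin 2 → ℝ) k j := by
    intro k j
    unfold rot
    fin_cases j
    · show (if (0 : Fin 2) = 0 then - grad f X k 1 else _) = _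
      simp only [if_true]
      rw [hg1]
      simp only [Fin.zero_eta, if_true]
      ring
    · have h10 : ¬ ((1 : Fin 2) = 0) := by decide
      show (if (1 : Fin 2) = 0 then _ else grad f X k 0) = (if (1 : Fin 2) = 0 then _ else B k 0)
        + ∑ l, Q k l * X l 1 + lam / η * (if (1 : Fin 2) = 0 then _ else
          (emb (YR i) : Fin (10 + m) → Fin 2 → ℝ) k 0)
      rw [if_neg h10, if_neg h10, if_neg h10, hg0]
  ext p j
  rcases p with p | p | a
  · rw [stacked_X, hXe]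
    rfl
  · rw [stacked_Y, hrot]
    show _ = rot B p j
      + ∑ l, Q p l * (X₀ l j + η * (emb (XR i) : Fin (10 + m) → Fin 2 → ℝ) l j)
      + lam / η * rot (emb (Yaff (XR i)) : Fin (10 + m) → Fin 2 → ℝ) p j
    rw [YR_eq]
    simp only [hXe]
  · rw [stacked_Z]
    show _ = ∑ k, (X₀ k a + η * (emb (XR i) : Fin (10 + m) → Fin 2 → ℝ) k a) * rot B k j
      - (c + ∑ r, ∑ s, B r s * (X₀ r s + η * (emb (XR i) : Fin (10 + m) → Fin 2 → ℝ) r s)) * J a j
      + lam / η * ∑ k, X₀ k a * rot (emb (Yaff (XR i)) : Fin (10 + m) → Fin 2 → ℝ) k j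
      + lam * rot (Zaff (XR i)) a j
    rw [YR_eq]
    simp only [← hXe]
    have h1 : ∑ k, X k a * rot (grad f X) k j
        = ∑ k, X k a * rot B k j + ∑ k, X k a * ∑ l, Q k l * X l j
          + lam / η * ∑ k, X k a * rot (emb (YR i) : Fin (10 + m) → Fin 2 → ℝ) k j := by
      rw [Finset.mul_sum, ← Finset.sum_add_distrib, ← Finset.sum_add_distrib]
      exact Finset.sum_congr rfl fun k _ => by rw [hrot]; ring
    have h2 : ∑ k, X k a * rot (emb (YR i) : Fin (10 + m) → Fin 2 → ℝ) k j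
        = ∑ k, X₀ k a * rot (emb (YR i) : Fin (10 + m) → Fin 2 → ℝ) k j
          + η * ∑ k : Fin 10, XR i k a * rot (YR i) k j := by
      rw [← sum_split]
      exact Finset.sum_congr rfl fun k _ => by rw [hXe]
    have h3 : ∑ k, X k a * ∑ l, Q k l * X l j
        = (∑ r, ∑ s, Q r s * (X r 0 * X s 1)) * J a j := by
      have e0 : ∑ r, ∑ s, Q r s * (X r 0 * X s 1) = ∑ k, X k 0 * ∑ l, Q k l * X l 1 := by
        refine Finset.sum_congr rfl fun r _ => ?_
        rw [Finset.mul_sum]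
        exact Finset.sum_congr rfl fun s _ => by ring
      rw [e0]
      fin_cases a <;> fin_cases j
      · show ∑ k, X k 0 * ∑ l, Q k l * X l 0 = _ * J 0 0
        rw [antisymm_sum Q hQ (fun k => X k 0)]; simp [J]
      · show ∑ k, X k 0 * ∑ l, Q k l * X l 1 = _ * J 0 1
        simp [J]
      · show ∑ k, X k 1 * ∑ l, Q k l * X l 0 = _ * J 1 0
        rw [antisymm_swap Q hQ (fun k => X k 0) (fun k => X k 1)]; simp [J]
      · show ∑ k, X k 1 * ∑ l, Q k l * X l 1 = _ * J 1 1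
        rw [antisymm_sum Q hQ (fun k => X k 1)]; simp [J]
    have h4 : ∑ k : Fin 10, XR i k a * rot (YR i) k j - (fZ i : ℝ) * J a j
        = rot (Zaff (XR i)) a j := by
      fin_cases j
      · show ∑ k : Fin 10, XR i k a * (- YR i k 1) - (fZ i : ℝ) * J a 0 = - Zaff (XR i) a 1
        rw [ZR_eq]
        simp only [mul_neg, Finset.sum_neg_distrib]
        fin_cases a
        · simp [J]
        · simp [J]
          ring
      · show ∑ k : Fin 10, XR i k a * (YR i k 0) - (fZ i : ℝ) * J a 1 = Zaff (XR i) a 0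
        rw [ZR_eq]
        fin_cases a <;> simp [J]
    rw [h1, h2, h3, hf, ← h4]
    field_simp
    ring

/-- one hull point is outside the inclusion set -/
lemma not_mem (X₀ B : Fin (10 + m) → Fin 2 → ℝ) (Q : Fin (10 + m) → Fin (10 + m) → ℝ)
    (hQ : ∀ r s, Q s r = - Q r s) (c η lam : ℝ) (hη : η ≠ 0) (hlam : lam ≠ 0)
    (f : (Fin (10 + m) → Fin 2 → ℝ) → ℝ) :
    Amap X₀ B Q c η lam (pt3 (PR 0)) ∉ inclusionSet f := by
  rintro ⟨X, hX⟩
  have hX0 : ∀ k j, X k j = X₀ k j + η * (emb (PR 0) : Fin (10 + m) → Fin 2 → ℝ) k j := fun k j =>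
    congrFun (congrFun hX (Sum.inl k)) j
  have hX1 : ∀ k j, rot (grad f X) k j = rot B k j
      + ∑ l, Q k l * (X₀ l j + η * (emb (PR 0) : Fin (10 + m) → Fin 2 → ℝ) l j)
      + lam / η * rot (emb (Yaff (PR 0)) : Fin (10 + m) → Fin 2 → ℝ) k j := fun k j => by
    rw [← stacked_Y]
    exact congrFun (congrFun hX (Sum.inr (Sum.inl k))) j
  have hX2 : ∑ k, X k 0 * rot (grad f X) k 0 - f X * J 0 0
      = ∑ k, (X₀ k 0 + η * (emb (PR 0) : Fin (10 + m) → Fin 2 → ℝ) k 0) * rot B k 0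
      - (c + ∑ r, ∑ s, B r s * (X₀ r s + η * (emb (PR 0) : Fin (10 + m) → Fin 2 → ℝ) r s)) * J 0 0
      + lam / η * ∑ k, X₀ k 0 * rot (emb (Yaff (PR 0)) : Fin (10 + m) → Fin 2 → ℝ) k 0
      + lam * rot (Zaff (PR 0)) 0 0 := by
    rw [← stacked_Z]
    exact congrFun (congrFun hX (Sum.inr (Sum.inr 0))) 0
  have hJ : J 0 0 = 0 := by simp [J]
  rw [hJ, mul_zero, mul_zero, sub_zero, sub_zero] at hX2
  simp only [← hX0] at hX1 hX2
  have h1 : ∑ k, X k 0 * rot (grad f X) k 0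
        = ∑ k, X k 0 * rot B k 0 + ∑ k, X k 0 * ∑ l, Q k l * X l 0
          + lam / η * ∑ k, X k 0 * rot (emb (Yaff (PR 0)) : Fin (10 + m) → Fin 2 → ℝ) k 0 := by
    rw [Finset.mul_sum, ← Finset.sum_add_distrib, ← Finset.sum_add_distrib]
    exact Finset.sum_congr rfl fun k _ => by rw [hX1]; ring
  have h2 : ∑ k, X k 0 * rot (emb (Yaff (PR 0)) : Fin (10 + m) → Fin 2 → ℝ) k 0
        = ∑ k, X₀ k 0 * rot (emb (Yaff (PR 0)) : Fin (10 + m) → Fin 2 → ℝ) k 0
          + η * ∑ k : Fin 10, PR 0 k 0 * rot (Yaff (PR 0)) k 0 := by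
    rw [← sum_split]
    exact Finset.sum_congr rfl fun k _ => by rw [hX0]
  rw [h1, antisymm_sum Q hQ (fun k => X k 0), h2] at hX2
  have h3 : lam * ∑ k : Fin 10, PR 0 k 0 * rot (Yaff (PR 0)) k 0 = lam * rot (Zaff (PR 0)) 0 0 := by
    have h4 : lam / η * (η * ∑ k : Fin 10, PR 0 k 0 * rot (Yaff (PR 0)) k 0)
        = lam * ∑ k : Fin 10, PR 0 k 0 * rot (Yaff (PR 0)) k 0 := by
      field_simp
    rw [← h4]
    linarith
  have h5 := mul_left_cancel₀ hlam h3
  apply not_scalar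
  have h6 : ∑ k : Fin 10, PR 0 k 0 * rot (Yaff (PR 0)) k 0 = - ∑ k, PR 0 k 0 * Yaff (PR 0) k 1 := by
    rw [← Finset.sum_neg_distrib]
    refine Finset.sum_congr rfl fun k _ => ?_
    show PR 0 k 0 * (- Yaff (PR 0) k 1) = _
    ring
  have h7 : rot (Zaff (PR 0)) 0 0 = - Zaff (PR 0) 0 1 := rfl
  rw [h6, h7] at h5
  linarith

/-- the hull point -/
lemma hull_mem (X₀ B : Fin (10 + m) → Fin 2 → ℝ) (Q : Fin (10 + m) → Fin (10 + m) → ℝ)
    (c η lam : ℝ) (K : Set (BigMat (10 + m)))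
    (hK : ∀ i : Fin 24, Amap X₀ B Q c η lam (pt3 (XR i)) ∈ K) :
    Amap X₀ B Q c η lam (pt3 (PR 0)) ∈ rcHull K := by
  intro F hF hFK
  apply hull_point (F := fun P => F (Amap X₀ B Q c η lam P))
  · intro A D hD
    have := convex_along hF (Amap X₀ B Q c η lam A) (Alin X₀ B Q η lam D)
      (Alin_rank X₀ B Q η lam D hD)
    simpa only [Amap_line] using this
  · intro i
    exact hFK _ (hK i)

end Pool.Agent.Y307.PCD
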