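import Mathlib

/-!
Project PCD (helper307), MP_f3a7de_an: limits of strictly convex functions with quantitative
control.
-/

set_option autoImplicit false
open Set Filter Topology

namespace Pool.Agent.Y307.PCD

lemma quant_strict {V : Type} [NormedAddCommGroup V] [NormedSpace ℝ V] [FiniteDimensional ℝ V]
    {g : V → ℝ} (hg : StrictConvexOn ℝ univ g) (hc : Continuous g) (R s : ℝ) (hs : 0 < s) :
    ∃ θ : ℝ, 0 < θ ∧ ∀ x y : V, ‖x‖ ≤ R → ‖y‖ ≤ R → s ≤ ‖x - y‖ →
      g ((1 / 2 : ℝ) • x + (1 / 2 : ℝ) • y) + θ ≤ (g x + g y) / 2 := by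
  have : ProperSpace V := FiniteDimensional.proper_real V
  set K : Set (V × V) := (Metric.closedBall 0 R ×ˢ Metric.closedBall 0 R) ∩
    {q | s ≤ ‖q.1 - q.2‖} with hK
  have hKc : IsCompact K := by
    apply ((isCompact_closedBall (0:V) R).prod (isCompact_closedBall (0:V) R)).inter_right
    exact isClosed_le continuous_const (by fun_prop)
  have hD : Continuous fun q : V × V => (g q.1 + g q.2) / 2
      - g ((1 / 2 : ℝ) • q.1 + (1 / 2 : ℝ) • q.2) := by fun_prop
  have hpos : ∀ q ∈ K, 0 < (g q.1 + g q.2) / 2 - g ((1 / 2 : ℝ) • q.1 + (1 / 2 : ℝ) • q.2) := by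
    rintro ⟨x, y⟩ ⟨-, hq⟩
    have hne : x ≠ y := by
      rintro rfl
      have hq' : s ≤ ‖x - x‖ := hq
      rw [sub_self, norm_zero] at hq'
      linarith
    have h := hg.2 (mem_univ x) (mem_univ y) hne (by norm_num : (0:ℝ) < 1 / 2)
      (by norm_num : (0:ℝ) < 1 / 2) (by norm_num)
    simp only [smul_eq_mul] at h
    show 0 < (g x + g y) / 2 - g ((1 / 2 : ℝ) • x + (1 / 2 : ℝ) • y)
    linarith
  have hmem : ∀ x y : V, ‖x‖ ≤ R → ‖y‖ ≤ R → s ≤ ‖x - y‖ → (x, y) ∈ K := fun x y hx hy hxy =>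
    ⟨⟨mem_closedBall_zero_iff.mpr hx, mem_closedBall_zero_iff.mpr hy⟩, hxy⟩
  rcases K.eq_empty_or_nonempty with he | hne
  · refine ⟨1, one_pos, fun x y hx hy hxy => ?_⟩
    have := hmem x y hx hy hxy
    rw [he] at this
    exact absurd this (notMem_empty _)
  · obtain ⟨q, hq, hmin⟩ := hKc.exists_isMinOn hne hD.continuousOn
    refine ⟨_, hpos q hq, fun x y hx hy hxy => ?_⟩
    have h := hmin (hmem x y hx hy hxy)
    simp only [mem_ofPred_eq] at h
    linarith

lemma e_geom (e : ℕ → ℝ) (he2 : ∀ i, e (i + 1) ≤ e i / 2) (i j : ℕ) :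
    e (j + i) ≤ e i * (1 / 2) ^ j := by
  induction j with
  | zero => simp
  | succ j ih =>
    have h := he2 (j + i)
    have e1 : j + 1 + i = j + i + 1 := by omega
    rw [e1, pow_succ]
    linarith

lemma e_tendsto (e : ℕ → ℝ) (he : ∀ i, 0 < e i) (he2 : ∀ i, e (i + 1) ≤ e i / 2) :
    Tendsto e atTop (𝓝 0) := by
  have h : Tendsto (fun j : ℕ => e 0 * (1 / 2 : ℝ) ^ j) atTop (𝓝 0) := by
    have := (tendsto_pow_atTop_nhds_zero_of_lt_one (by norm_num : (0:ℝ) ≤ 1 / 2)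
      (by norm_num : (1 / 2 : ℝ) < 1)).const_mul (e 0)
    simpa using this
  refine squeeze_zero (fun i => (he i).le) (fun i => ?_) h
  have := e_geom e he2 0 i
  simpa using this

lemma lim_bound {E : Type*} [NormedAddCommGroup E] [CompleteSpace E] (x : ℕ → E) (e : ℕ → ℝ)
    (he2 : ∀ i, e (i + 1) ≤ e i / 2) (hx : ∀ i, ‖x (i + 1) - x i‖ ≤ e i) :
    Summable (fun i => x (i + 1) - x i) ∧
      ∀ i, ‖(x 0 + ∑' j, (x (j + 1) - x j)) - x i‖ ≤ 2 * e i := by
  have hs : Summable (fun i => x (i + 1) - x i) := by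
    refine Summable.of_norm_bounded (g := fun i : ℕ => e 0 * (1 / 2 : ℝ) ^ i)
      (summable_geometric_two.mul_left (e 0)) fun i => ?_
    have := e_geom e he2 0 i
    exact (hx i).trans (by simpa using this)
  refine ⟨hs, fun i => ?_⟩
  have h1 := hs.sum_add_tsum_nat_add i
  rw [Finset.sum_range_sub] at h1
  rw [← h1]
  have e1 : x 0 + (x i - x 0 + ∑' j, (x (j + i + 1) - x (j + i))) - x i
      = ∑' j, (x (j + i + 1) - x (j + i)) := by abel
  rw [e1]
  have h2 : HasSum (fun j : ℕ => e i * (1 / 2 : ℝ) ^ j) (e i * 2) := hasSum_geometric_two.mul_left _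
  have h3 := tsum_of_norm_bounded h2 (f := fun j => x (j + i + 1) - x (j + i))
    (fun j => (hx (j + i)).trans (e_geom e he2 i j))
  linarith

theorem limit {V : Type} [NormedAddCommGroup V] [NormedSpace ℝ V]
    (h : ℕ → V → ℝ) (e : ℕ → ℝ) (he : ∀ i, 0 < e i) (he2 : ∀ i, e (i + 1) ≤ e i / 2)
    (hd : ∀ i, ContDiff ℝ 1 (h i)) (hc : ∀ i, ConvexOn ℝ univ (h i))
    (h1 : ∀ i v, |h (i + 1) v - h i v| ≤ e i)
    (h2 : ∀ i v, ‖fderiv ℝ (h (i + 1)) v - fderiv ℝ (h i) v‖ ≤ e i)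
    (hq : ∀ (i : ℕ) (x y : V), ‖x‖ ≤ i → ‖y‖ ≤ i → 1 / ((i : ℝ) + 1) ≤ ‖x - y‖ →
      h i ((1 / 2 : ℝ) • x + (1 / 2 : ℝ) • y) + 8 * e i ≤ (h i x + h i y) / 2) :
    ∃ H : V → ℝ, StrictConvexOn ℝ univ H ∧ ContDiff ℝ 1 H ∧ (∀ i v, |H v - h i v| ≤ 2 * e i) ∧
      ∀ i v, ‖fderiv ℝ H v - fderiv ℝ (h i) v‖ ≤ 2 * e i := by
  have hdd : ∀ i, Differentiable ℝ (h i) := fun i => (hd i).differentiable (by norm_num)
  have hb1 : ∀ v, _ := fun v => lim_bound (fun i => h i v) e he2 (fun i => by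
    rw [Real.norm_eq_abs]; exact h1 i v)
  have hb2 : ∀ v, _ := fun v => lim_bound (fun i => fderiv ℝ (h i) v) e he2 (fun i => h2 i v)
  have hes : Summable e := by
    refine Summable.of_nonneg_of_le (fun i => (he i).le) (fun i => ?_)
      (summable_geometric_two.mul_left (e 0))
    have := e_geom e he2 0 i
    simpa using this
  set φ : ℕ → V → ℝ := fun i v => h (i + 1) v - h i v with hφ
  have hφd : ∀ i, Differentiable ℝ (φ i) := fun i => (hdd (i + 1)).sub (hdd i)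
  have hφf : ∀ i v, fderiv ℝ (φ i) v = fderiv ℝ (h (i + 1)) v - fderiv ℝ (h i) v := fun i v =>
    ((hdd (i + 1) v).hasFDerivAt.sub (hdd i v).hasFDerivAt).fderiv
  have hφb : ∀ i v, ‖fderiv ℝ (φ i) v‖ ≤ e i := fun i v => by rw [hφf]; exact h2 i v
  have hφ0 : Summable fun i => φ i 0 := (hb1 0).1
  set H : V → ℝ := fun v => h 0 v + ∑' i, φ i v with hH
  have hTd : Differentiable ℝ fun v => ∑' i, φ i v :=
    differentiable_tsum hes (fun i v => (hφd i v).hasFDerivAt) hφb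
  have hTf : ∀ v, fderiv ℝ (fun v => ∑' i, φ i v) v = ∑' i, fderiv ℝ (φ i) v := fun v =>
    congrFun (fderiv_tsum hes hφd hφb hφ0) v
  have hHf : ∀ v, fderiv ℝ H v
      = fderiv ℝ (h 0) v + ∑' i, (fderiv ℝ (h (i + 1)) v - fderiv ℝ (h i) v) := by
    intro v
    have h3 : fderiv ℝ H v = fderiv ℝ (h 0) v + fderiv ℝ (fun v => ∑' i, φ i v) v :=
      ((hdd 0 v).hasFDerivAt.add (hTd v).hasFDerivAt).fderiv
    rw [h3, hTf]
    simp only [hφf]
  have hHb : ∀ i v, |H v - h i v| ≤ 2 * e i := fun i v => by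
    have := (hb1 v).2 i
    rwa [Real.norm_eq_abs] at this
  have hHfb : ∀ i v, ‖fderiv ℝ H v - fderiv ℝ (h i) v‖ ≤ 2 * e i := fun i v => by
    rw [hHf]; exact (hb2 v).2 i
  have hlim := e_tendsto e he he2
  have hHc : ConvexOn ℝ univ H := by
    refine ⟨convex_univ, fun x _ y _ a b ha hb hab => ?_⟩
    have h3 : ∀ i, H (a • x + b • y) ≤ (a • H x + b • H y) + 4 * e i := by
      intro i
      have e1 := (abs_le.mp (hHb i (a • x + b • y))).2
      have e2 := (abs_le.mp (hHb i x)).1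
      have e3 := (abs_le.mp (hHb i y)).1
      have e4 := (hc i).2 (mem_univ x) (mem_univ y) ha hb hab
      simp only [smul_eq_mul] at e4 ⊢
      have hb' : b = 1 - a := by linarith
      have e5 : a * h i x ≤ a * (H x + 2 * e i) := mul_le_mul_of_nonneg_left (by linarith) ha
      have e6 : b * h i y ≤ b * (H y + 2 * e i) := mul_le_mul_of_nonneg_left (by linarith) hb
      have e7 : a * (H x + 2 * e i) + b * (H y + 2 * e i) = a * H x + b * H y + 2 * e i := by
        rw [hb']; ring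
      linarith
    have h4 : Tendsto (fun i => (a • H x + b • H y) + 4 * e i) atTop
        (𝓝 ((a • H x + b • H y) + 4 * 0)) := (hlim.const_mul 4).const_add _
    rw [mul_zero, add_zero] at h4
    exact ge_of_tendsto' h4 h3
  have hmid : ∀ x y : V, x ≠ y → H ((1 / 2 : ℝ) • x + (1 / 2 : ℝ) • y) < (H x + H y) / 2 := by
    intro x y hxy
    have hn : 0 < ‖x - y‖ := norm_pos_iff.mpr (sub_ne_zero.mpr hxy)
    obtain ⟨i, hi⟩ := exists_nat_ge (max (max ‖x‖ ‖y‖) (1 / ‖x - y‖))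
    have i1 : ‖x‖ ≤ i := ((le_max_left _ _).trans (le_max_left _ _)).trans hi
    have i2 : ‖y‖ ≤ i := ((le_max_right _ _).trans (le_max_left _ _)).trans hi
    have i3 : 1 / ‖x - y‖ ≤ i := (le_max_right _ _).trans hi
    have i4 : 1 / ((i:ℝ) + 1) ≤ ‖x - y‖ := by
      rw [div_le_iff₀ hn] at i3
      rw [div_le_iff₀ (by positivity)]
      nlinarith
    have h3 := hq i x y i1 i2 i4
    have e1 := (abs_le.mp (hHb i ((1 / 2 : ℝ) • x + (1 / 2 : ℝ) • y))).2
    have e2 := (abs_le.mp (hHb i x)).1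
    have e3 := (abs_le.mp (hHb i y)).1
    have e4 := he i
    linarith
  have hHs : StrictConvexOn ℝ univ H := by
    refine ⟨convex_univ, fun x _ y _ hxy a b ha hb hab => ?_⟩
    have hm := hmid x y hxy
    simp only [smul_eq_mul]
    rcases le_total a b with hle | hle
    · have h3 := hHc.2 (mem_univ ((1 / 2 : ℝ) • x + (1 / 2 : ℝ) • y)) (mem_univ y)
        (by linarith : 0 ≤ 2 * a) (by linarith : 0 ≤ b - a) (by linarith)
      have e1 : (2 * a) • ((1 / 2 : ℝ) • x + (1 / 2 : ℝ) • y) + (b - a) • y = a • x + b • y := by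
        module
      rw [e1] at h3
      simp only [smul_eq_mul] at h3
      nlinarith
    · have h3 := hHc.2 (mem_univ ((1 / 2 : ℝ) • x + (1 / 2 : ℝ) • y)) (mem_univ x)
        (by linarith : 0 ≤ 2 * b) (by linarith : 0 ≤ a - b) (by linarith)
      have e1 : (2 * b) • ((1 / 2 : ℝ) • x + (1 / 2 : ℝ) • y) + (a - b) • x = a • x + b • y := by
        module
      rw [e1] at h3
      simp only [smul_eq_mul] at h3
      nlinarith
  refine ⟨H, hHs, ?_, hHb, hHfb⟩
  rw [contDiff_one_iff_fderiv]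
  refine ⟨(hdd 0).add hTd, ?_⟩
  have h3 : fderiv ℝ H = fun v => fderiv ℝ (h 0) v
      + ∑' i, (fderiv ℝ (h (i + 1)) v - fderiv ℝ (h i) v) := funext hHf
  rw [h3]
  have hfc : ∀ i, Continuous (fderiv ℝ (h i)) := fun i => (hd i).continuous_fderiv (by norm_num)
  refine (hfc 0).add (continuous_tsum (fun i => (hfc (i + 1)).sub (hfc i)) hes fun i v => h2 i v)

end Pool.Agent.Y307.PCD
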