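import Pool.Agent.Y307.PCD.Fin
import Pool.Agent.Y307.PCD.Lim

/-!
Project PCD (helper307), MP_f3a7de_an: one strictly polyconvex function of class `C¹` for which the
hull is larger than the inclusion set near every point.
-/

set_option autoImplicit false
open Set Filter Topology

namespace Pool.Agent.Y307.PCD

section

variable {m : ℕ}

open Classical in
/-- one state of the construction: function, frozen points, remaining size -/
structure St (m : ℕ) where
  g : (MinorIdx (10 + m) → ℝ) → ℝ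
  F : Set (Fin (10 + m) → Fin 2 → ℝ)
  b : ℝ
  hg : StrictConvexOn ℝ univ g
  hd : ContDiff ℝ ((1 : ℕ∞) : WithTop ℕ∞) g
  hF : F.Finite
  hb : 0 < b

open Classical in
/-- one step of the construction -/
def Step (i : ℕ) (D : Fin (10 + m) → Fin 2 → ℝ) (s s' : St m) : Prop :=
  ∃ e : ℝ, 0 < e ∧ e ≤ s.b ∧ s'.b = e / 2 ∧
    (∀ x y : MinorIdx (10 + m) → ℝ, ‖x‖ ≤ i → ‖y‖ ≤ i → 1 / ((i : ℝ) + 1) ≤ ‖x - y‖ →
      s.g ((1 / 2 : ℝ) • x + (1 / 2 : ℝ) • y) + 8 * e ≤ (s.g x + s.g y) / 2) ∧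
    s.F ⊆ s'.F ∧ (∀ v, |s'.g v - s.g v| ≤ e) ∧ (∀ v, ‖fderiv ℝ s'.g v - fderiv ℝ s.g v‖ ≤ e) ∧
    (∀ X a b, |grad (fun X => s'.g (minors X)) X a b - grad (fun X => s.g (minors X)) X a b| ≤ e) ∧
    (∀ Y ∈ s.F, s'.g =ᶠ[𝓝 (minors Y)] s.g) ∧
    ∃ (X : Fin (10 + m) → Fin 2 → ℝ) (W : Fin 24 → Fin (10 + m) → Fin 2 → ℝ)
      (A : BigMat (10 + m)), dist D X < (1 / 2) ^ i ∧ (∀ j, W j ∈ s'.F) ∧
      (∀ j a b, |stacked (fun X => s'.g (minors X)) (W j) a b
        - stacked (fun X => s.g (minors X)) X a b| < (1 / 2) ^ i) ∧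
      (∀ K, (∀ j, stacked (fun X => s'.g (minors X)) (W j) ∈ K) → A ∈ rcHull K) ∧
      ∀ f : (Fin (10 + m) → Fin 2 → ℝ) → ℝ, A ∉ inclusionSet f

lemma entries_nhds (P₀ : BigMat (10 + m)) {r : ℝ} (hr : 0 < r) :
    {P : BigMat (10 + m) | ∀ a b, |P a b - P₀ a b| < r} ∈ 𝓝 P₀ := by
  have h : ∀ᶠ P in 𝓝 P₀, ∀ a b, |P a b - P₀ a b| < r := by
    rw [eventually_all]; intro a
    rw [eventually_all]; intro b
    have hc : Continuous fun P : BigMat (10 + m) => |P a b - P₀ a b| :=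
      ((Continuous.matrix_elem continuous_id a b).sub continuous_const).abs
    have h0 : |P₀ a b - P₀ a b| < r := by simpa using hr
    exact (hc.continuousAt (x := P₀)).eventually_lt_const h0
  exact h

open Classical in
lemma step_exists (i : ℕ) (D : Fin (10 + m) → Fin 2 → ℝ) (s : St m) : ∃ s' : St m, Step i D s s' := by
  obtain ⟨θ, hθ, hθ'⟩ := quant_strict s.hg s.hd.continuous (i : ℝ) (1 / ((i : ℝ) + 1)) (by positivity)
  obtain ⟨X, hXF, hXD⟩ := (s.hF.countable.dense_compl ℝ).exists_dist_lt D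
    (show (0:ℝ) < (1 / 2) ^ i by positivity)
  obtain ⟨τ, hτ, hτF⟩ : ∃ τ : ℝ, 0 < τ ∧ ∀ Y ∈ s.F, τ < ‖minors Y - minors X‖ := by
    have h1 : ∀ᶠ τ in 𝓝[>] (0:ℝ), ∀ Y ∈ s.F, τ < ‖minors Y - minors X‖ := by
      rw [Filter.eventually_all_finite s.hF]
      intro Y hY
      have hne : Y ≠ X := by rintro rfl; exact hXF hY
      have hpos : 0 < ‖minors Y - minors X‖ :=
        lt_of_lt_of_le (dist_pos.mpr hne) (dist_le_minors Y X)
      exact eventually_nhdsWithin_of_eventually_nhds (eventually_lt_nhds hpos)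
    obtain ⟨τ, h2, h3⟩ := (h1.and self_mem_nhdsWithin).exists
    exact ⟨τ, h3, h2⟩
  set e : ℝ := min s.b (min (θ / 8) τ) with he
  have he0 : 0 < e := lt_min s.hb (lt_min (by linarith) hτ)
  have heb : e ≤ s.b := min_le_left _ _
  have heθ : e ≤ θ / 8 := (min_le_right _ _).trans (min_le_left _ _)
  have heτ : e ≤ τ := (min_le_right _ _).trans (min_le_right _ _)
  obtain ⟨g', W, A, h1, -, h2, h3, h4, h5, h6, h7, h8, h9⟩ := core_g build 1 le_rfl s.g s.hg s.hd X e he0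
    _ (entries_nhds (stacked (fun X => s.g (minors X)) X) (show (0:ℝ) < (1 / 2) ^ i by positivity))
  refine ⟨⟨g', s.F ∪ range W, e / 2, h1, h2, s.hF.union (finite_range W), by linarith⟩,
    e, he0, heb, rfl, ?_, subset_union_left, h4, h5, h6, ?_, X, W, A, hXD,
    fun j => Or.inr ⟨j, rfl⟩, fun j => h7 j, h8, h9⟩
  · intro x y hx hy hxy
    have := hθ' x y hx hy hxy
    linarith
  · intro Y hY
    have h10 : e < ‖minors Y - minors X‖ := lt_of_le_of_lt heτ (hτF Y hY)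
    have hc : Continuous fun v : MinorIdx (10 + m) → ℝ => ‖v - minors X‖ :=
      (continuous_id.sub continuous_const).norm
    filter_upwards [(hc.continuousAt (x := minors Y)).eventually_const_lt h10] with v hv
    exact h3 v hv.le

open Classical in
/-- the sequence of states -/
noncomputable def run (D : ℕ → Fin (10 + m) → Fin 2 → ℝ) (s₀ : St m) : ℕ → St m
  | 0 => s₀
  | i + 1 => (step_exists i (D i) (run D s₀ i)).choose

lemma run_step (D : ℕ → Fin (10 + m) → Fin 2 → ℝ) (s₀ : St m) (i : ℕ) :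
    Step i (D i) (run D s₀ i) (run D s₀ (i + 1)) :=
  (step_exists i (D i) (run D s₀ i)).choose_spec

end

end Pool.Agent.Y307.PCD
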