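import Pool.Agent.H507R3.PCMax

/-!
Project PCD (helper307), MP_f3a7de_an: statements of the abstract blocks.
`IsAff a` (from `Pool.Agent.H507R3.PCMax`): `a` is an affine function.
-/

set_option autoImplicit false
open Set Filter Topology
open Pool.Agent.H507R3.PC (IsAff)

namespace Pool.Agent.Y307.PCD

/-- A smooth regularisation of the positive part. -/
def S_PSI : Prop := ∃ ψ : ℝ → ℝ, ContDiff ℝ ((⊤ : ℕ∞) : WithTop ℕ∞) ψ ∧ (∀ t, t ≤ -1 → ψ t = 0) ∧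
  (∀ t, 1 ≤ t → ψ t = t) ∧ ConvexOn ℝ univ ψ ∧ Monotone ψ ∧ Monotone (fun t => t - ψ t) ∧
  ∀ t, 0 ≤ deriv ψ t ∧ deriv ψ t ≤ 1

/-- Regularised maximum of a convex function `G` of class `C^k` and finitely many affine functions. -/
def S_SMAX : Prop := ∀ (V : Type) [NormedAddCommGroup V] [NormedSpace ℝ V] (k : ℕ∞), 1 ≤ k →
  ∀ (G : V → ℝ), ConvexOn ℝ univ G → ContDiff ℝ k G → ∀ (ι : Type) (a : ι → V → ℝ),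
  (∀ i, IsAff (a i)) → (∀ i, ContDiff ℝ k (a i)) → ∀ (δ : ℝ), 0 < δ → ∀ (N : ℕ) (s : Finset ι), s.card ≤ N →
  ∃ H : V → ℝ, ConvexOn ℝ univ H ∧ ContDiff ℝ k H ∧ (∀ v, G v ≤ H v) ∧
    (∀ v M, G v ≤ M → (∀ i ∈ s, a i v ≤ M) → H v ≤ M + s.card * δ) ∧
    (∀ v, ∀ j ∈ s, G v + (N + 2) * δ ≤ a j v → (∀ i ∈ s, i ≠ j → a i v + (N + 2) * δ ≤ a j v) →
      H v = a j v) ∧
    (∀ v, (∀ i ∈ s, a i v + δ ≤ G v) → H v = G v) ∧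
    (∀ v (L : V →L[ℝ] ℝ) (r : ℝ), ‖fderiv ℝ G v - L‖ ≤ r → (∀ i ∈ s, ‖fderiv ℝ (a i) v - L‖ ≤ r) →
      ‖fderiv ℝ H v - L‖ ≤ r)

/-- Local insertion of a configuration into a strictly convex function. -/
def S_BUILD : Prop := ∀ (V : Type) [NormedAddCommGroup V] [NormedSpace ℝ V] [FiniteDimensional ℝ V]
  (k : ℕ∞), 1 ≤ k → ∀ (g₀ : V → ℝ), StrictConvexOn ℝ univ g₀ → ContDiff ℝ k g₀ → ∀ (v₀ : V) (κ : ℝ), 0 < κ →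
  ∃ r : ℝ, 0 < r ∧ ∀ (ι : Type) [Fintype ι] [Nonempty ι] (w : ι → V) (α : ι → V → ℝ),
    (∀ i, IsAff (α i)) → (∀ i, ContDiff ℝ k (α i)) → (∀ i, ‖w i - v₀‖ < r) →
    (∀ i j, i ≠ j → α i (w j) < α j (w j)) →
    ∃ (h : V → ℝ) (lam δ : ℝ), 0 < lam ∧ 0 < δ ∧ StrictConvexOn ℝ univ h ∧
      (∃ e : ℝ, 0 < e ∧ ConvexOn ℝ univ (fun v => h v - e * g₀ v)) ∧ ContDiff ℝ k h ∧
      (∀ v, κ ≤ ‖v - v₀‖ → h v = g₀ v) ∧ (∀ v, |h v - g₀ v| ≤ κ) ∧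
      (∀ v, ‖fderiv ℝ h v - fderiv ℝ g₀ v‖ ≤ κ) ∧
      ∀ j, h (w j) = g₀ v₀ + fderiv ℝ g₀ v₀ (w j - v₀) + δ + lam * α j (w j) ∧
        fderiv ℝ h (w j) = fderiv ℝ g₀ v₀ + lam • fderiv ℝ (α j) (w j)

end Pool.Agent.Y307.PCD
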